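import Mathlib
open Finset

namespace Pool.Agent.helper22.Mob

/-- Binary digit as a real number. -/
noncomputable def dg (j k : ℕ) : ℝ := ((j / 2 ^ k % 2 : ℕ) : ℝ)

lemma dg_nonneg (j k : ℕ) : 0 ≤ dg j k := Nat.cast_nonneg _

lemma dg_le_one (j k : ℕ) : dg j k ≤ 1 := by
  unfold dg
  have : j / 2 ^ k % 2 ≤ 1 := by omega
  exact_mod_cast this

lemma bits_mod (j n : ℕ) : ∑ k ∈ range n, 2 ^ k * (j / 2 ^ k % 2) = j % 2 ^ n := by
  induction n with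
  | zero => simp [Nat.mod_one]
  | succ n ih => rw [sum_range_succ, ih, Nat.mod_pow_succ]

lemma bits_real {j n : ℕ} (hj : j < 2 ^ n) : ∑ k ∈ range n, (2:ℝ) ^ k * dg j k = j := by
  have h := bits_mod j n
  rw [Nat.mod_eq_of_lt hj] at h
  unfold dg
  exact_mod_cast h

/-- The vertical coordinates. -/
noncomputable def yv (b : ℕ → ℝ) (n j : ℕ) : ℝ := ∑ k ∈ range n, b k * (2 ^ k * dg j k)

lemma yv_bound (b : ℕ → ℝ) (n j : ℕ) : |yv b n j| ≤ ∑ k ∈ range n, |b k| * 2 ^ k := by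
  unfold yv
  refine (abs_sum_le_sum_abs _ _).trans (sum_le_sum (fun k _ => ?_))
  rw [abs_mul, abs_mul, abs_of_nonneg (dg_nonneg j k), abs_of_pos (by positivity : (0:ℝ) < 2 ^ k)]
  apply mul_le_mul_of_nonneg_left _ (abs_nonneg _)
  exact mul_le_of_le_one_right (by positivity) (dg_le_one j k)

/-- Contribution of the high digits. -/
noncomputable def hi (x : ℕ → ℝ) (k0 n t : ℕ) : ℝ :=
  ∑ k ∈ Ico (k0 + 1) n, x k * dg t (k - (k0 + 1))

lemma hi_eq (x : ℕ → ℝ) (k0 n j : ℕ) :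
    hi x k0 n (j / 2 ^ (k0 + 1)) = ∑ k ∈ Ico (k0 + 1) n, x k * dg j k := by
  unfold hi
  apply sum_congr rfl
  intro k hk
  rw [mem_Ico] at hk
  unfold dg
  rw [Nat.div_div_eq_div_mul, ← pow_add]
  congr 5
  omega

lemma split_digits (x : ℕ → ℝ) {k0 n : ℕ} (hk : k0 < n) (j : ℕ) :
    |∑ k ∈ range n, x k * dg j k - hi x k0 n (j / 2 ^ (k0 + 1))| ≤
      ∑ k ∈ range (k0 + 1), |x k| := by
  rw [hi_eq]
  have h1 : ∑ k ∈ range n, x k * dg j k =
      ∑ k ∈ range (k0 + 1), x k * dg j k + ∑ k ∈ Ico (k0 + 1) n, x k * dg j k := by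
    rw [sum_range_add_sum_Ico _ (by omega)]
  rw [h1, add_sub_cancel_right]
  refine (abs_sum_le_sum_abs _ _).trans (sum_le_sum (fun k _ => ?_))
  rw [abs_mul, abs_of_nonneg (dg_nonneg j k)]
  exact mul_le_of_le_one_right (abs_nonneg _) (dg_le_one j k)

lemma weight_sum (k0 : ℕ) : ∑ k ∈ range (k0 + 1), (2:ℝ) ^ k * ((k0:ℝ) - k + 1) =
    4 * 2 ^ k0 - k0 - 3 := by
  induction k0 with
  | zero => norm_num
  | succ m ih =>
    have h1 : ∑ k ∈ range (m + 1 + 1), (2:ℝ) ^ k * (((m + 1 : ℕ):ℝ) - k + 1) =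
        ∑ k ∈ range (m + 1), (2:ℝ) ^ k * ((m:ℝ) - k + 1) + ∑ k ∈ range (m + 1 + 1), (2:ℝ) ^ k := by
      rw [sum_range_succ, sum_range_succ (fun k => (2:ℝ) ^ k) (m + 1), ← add_assoc, ← sum_add_distrib]
      congr 1
      · apply sum_congr rfl
        intro k _
        push_cast
        ring
      · push_cast; ring
    have h2 : ∑ k ∈ range (m + 1 + 1), (2:ℝ) ^ k = 4 * 2 ^ m - 1 := by
      have := geom_sum_eq (show (2:ℝ) ≠ 1 by norm_num) (m + 1 + 1)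
      rw [this, pow_succ, pow_succ]; ring
    rw [h1, ih, h2, pow_succ]
    push_cast
    ring

lemma low_bound {x : ℕ → ℝ} {k0 : ℕ} {D : ℝ} (hD : 0 ≤ D)
    (hx : ∀ k ≤ k0, |x k| ≤ 2 ^ k * (((k0:ℝ) - k + 1) * D)) :
    ∑ k ∈ range (k0 + 1), |x k| ≤ 4 * 2 ^ k0 * D := by
  have h1 : ∑ k ∈ range (k0 + 1), |x k| ≤ ∑ k ∈ range (k0 + 1), ((2:ℝ) ^ k * ((k0:ℝ) - k + 1)) * D := by
    apply sum_le_sum
    intro k hk
    rw [mem_range] at hk
    refine (hx k (by omega)).trans (le_of_eq (by ring))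
  refine h1.trans ?_
  rw [← sum_mul, weight_sum]
  apply mul_le_mul_of_nonneg_right _ hD
  have : (0:ℝ) ≤ k0 := Nat.cast_nonneg _
  linarith

lemma t_lt {j n k0 : ℕ} (hk : k0 < n) (hj : j < 2 ^ n) : j / 2 ^ (k0 + 1) < 2 ^ (n - (k0 + 1)) := by
  rw [Nat.div_lt_iff_lt_mul (by positivity), ← pow_add]
  have : n - (k0 + 1) + (k0 + 1) = n := by omega
  rw [this]; exact hj

/-- Number of integers in a real interval. -/
lemma card_interval (T : ℕ) (h ρ : ℝ) (hρ : 0 ≤ ρ) [DecidablePred fun m : ℕ => |(m:ℝ) - h| ≤ ρ] :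
    (((range T).filter (fun m : ℕ => |(m:ℝ) - h| ≤ ρ)).card : ℝ) ≤ 2 * ρ + 1 := by
  have hsub : ((range T).filter (fun m : ℕ => |(m:ℝ) - h| ≤ ρ)).map
      ⟨fun m : ℕ => (m:ℤ), Nat.cast_injective⟩ ⊆ Icc ⌈h - ρ⌉ ⌊h + ρ⌋ := by
    intro z hz
    rw [mem_map] at hz
    obtain ⟨m, hm, rfl⟩ := hz
    rw [mem_filter] at hm
    have h1 := abs_le.mp hm.2
    rw [mem_Icc]
    constructor
    · rw [Int.ceil_le]
      simp only [Function.Embedding.coeFn_mk, Int.cast_natCast]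
      linarith
    · rw [Int.le_floor]
      simp only [Function.Embedding.coeFn_mk, Int.cast_natCast]
      linarith
  have h2 := card_le_card hsub
  rw [card_map, Int.card_Icc] at h2
  have h3 : (((range T).filter (fun m : ℕ => |(m:ℝ) - h| ≤ ρ)).card : ℝ) ≤
      ((⌊h + ρ⌋ + 1 - ⌈h - ρ⌉).toNat : ℝ) := by exact_mod_cast h2
  refine h3.trans ?_
  rcases le_total 0 (⌊h + ρ⌋ + 1 - ⌈h - ρ⌉) with h4 | h4
  · have h5 : ((⌊h + ρ⌋ + 1 - ⌈h - ρ⌉).toNat : ℝ) = ((⌊h + ρ⌋ + 1 - ⌈h - ρ⌉ : ℤ) : ℝ) := by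
      have := Int.toNat_of_nonneg h4
      exact_mod_cast this
    rw [h5]
    push_cast
    have := Int.floor_le (h + ρ)
    have := Int.le_ceil (h - ρ)
    linarith
  · rw [Int.toNat_of_nonpos h4]
    push_cast
    linarith

end Pool.Agent.helper22.Mob
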