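import Mathlib
open Complex Metric Set Filter Topology
open scoped ComplexConjugate

namespace Pool.Agent.helper22.Mob

/-- The disc automorphism `z ↦ (z - w) / (1 - conj w * z)`. -/
noncomputable def shift (w z : ℂ) : ℂ := (z - w) / (1 - (starRingEnd ℂ) w * z)

/-- The `n`-th Taylor coefficient at `0` of `z ↦ f (shift w z)`. -/
noncomputable def coef (f : ℂ → ℂ) (w : ℂ) (n : ℕ) : ℂ :=
  iteratedDeriv n (fun z => f (shift w z)) 0 / (n.factorial : ℂ)

/-- The set of shifts `w` of the unit disc for which `f ∘ shift w` has an absolutely convergent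
Taylor series. -/
def W (f : ℂ → ℂ) : Set ℂ := {w | ‖w‖ < 1 ∧ Summable (fun n => ‖coef f w n‖)}

lemma den_ne {w z : ℂ} (hw : ‖w‖ < 1) (hz : ‖z‖ ≤ 1) : 1 - conj w * z ≠ 0 := by
  intro h
  have h1 : conj w * z = 1 := by linear_combination -h
  have h2 : ‖conj w * z‖ < 1 := by
    rw [norm_mul, RCLike.norm_conj]
    calc ‖w‖ * ‖z‖ ≤ ‖w‖ * 1 := mul_le_mul_of_nonneg_left hz (norm_nonneg _)
      _ < 1 := by linarith
  rw [h1, norm_one] at h2
  exact lt_irrefl _ h2

lemma normSq_identity (w z : ℂ) :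
    ‖1 - conj w * z‖ ^ 2 - ‖z - w‖ ^ 2 = (1 - ‖z‖ ^ 2) * (1 - ‖w‖ ^ 2) := by
  rw [Complex.sq_norm, Complex.sq_norm, Complex.sq_norm, Complex.sq_norm]
  simp only [Complex.normSq_apply, Complex.sub_re, Complex.sub_im, Complex.mul_re, Complex.mul_im,
    Complex.conj_re, Complex.conj_im, Complex.one_re, Complex.one_im]
  ring

lemma shift_ball {w z : ℂ} (hw : ‖w‖ < 1) (hz : ‖z‖ < 1) : ‖shift w z‖ < 1 := by
  unfold shift
  have hd := den_ne hw hz.le
  rw [norm_div, div_lt_one (norm_pos_iff.mpr hd)]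
  have h1 := normSq_identity w z
  have h2 : 0 < (1 - ‖z‖ ^ 2) * (1 - ‖w‖ ^ 2) := by
    apply mul_pos
    · nlinarith [norm_nonneg z]
    · nlinarith [norm_nonneg w]
  have h3 : ‖z - w‖ ^ 2 < ‖1 - conj w * z‖ ^ 2 := by linarith
  exact lt_of_pow_lt_pow_left₀ 2 (norm_nonneg _) h3

lemma shift_mem {w z : ℂ} (hw : ‖w‖ < 1) (hz : z ∈ ball (0:ℂ) 1) : shift w z ∈ ball (0:ℂ) 1 := by
  rw [mem_ball_zero_iff] at hz ⊢
  exact shift_ball hw hz

lemma shift_diff {w : ℂ} (hw : ‖w‖ < 1) : DifferentiableOn ℂ (shift w) (ball 0 1) := by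
  unfold shift
  apply DifferentiableOn.div
  · fun_prop
  · fun_prop
  · intro z hz
    exact den_ne hw (mem_ball_zero_iff.mp hz).le

lemma comp_diff {w : ℂ} (hw : ‖w‖ < 1) {g : ℂ → ℂ} (hg : DifferentiableOn ℂ g (ball 0 1)) :
    DifferentiableOn ℂ (fun z => g (shift w z)) (ball 0 1) :=
  hg.comp (shift_diff hw) (fun _ hz => shift_mem hw hz)

lemma hasSum_coef {w : ℂ} (hw : ‖w‖ < 1) {g : ℂ → ℂ} (hg : DifferentiableOn ℂ g (ball 0 1))
    {z : ℂ} (hz : z ∈ ball (0:ℂ) 1) : HasSum (fun n => coef g w n * z ^ n) (g (shift w z)) := by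
  have h := hasSum_taylorSeries_on_ball (c := 0) (r := 1) (f := fun z => g (shift w z)) (z := z)
    (by simpa using comp_diff hw hg) (by simpa using hz)
  have e : (fun n => coef g w n * z ^ n) = (fun n : ℕ => ((n.factorial : ℂ))⁻¹ • (z - 0) ^ n •
      iteratedDeriv n (fun z => g (shift w z)) 0) := by
    ext n
    unfold coef
    simp only [sub_zero, smul_eq_mul]
    ring
  rw [e]
  exact h

/-- Uniqueness of Taylor coefficients. -/
lemma taylor_unique {h : ℂ → ℂ} {a : ℕ → ℂ} {ρ : ℝ} (hρ : 0 < ρ)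
    (hs : ∀ z ∈ ball (0:ℂ) ρ, HasSum (fun n => a n * z ^ n) (h z)) (n : ℕ) :
    iteratedDeriv n h 0 / (n.factorial : ℂ) = a n := by
  have h1 : HasFPowerSeriesAt h (FormalMultilinearSeries.ofScalars ℂ a) 0 := by
    rw [hasFPowerSeriesAt_iff]
    filter_upwards [ball_mem_nhds (0:ℂ) hρ] with z hz
    have := hs z hz
    rw [zero_add]
    have e : (fun n => z ^ n • (FormalMultilinearSeries.ofScalars ℂ a).coeff n) =
        (fun n => a n * z ^ n) := by
      ext n
      rw [FormalMultilinearSeries.coeff_ofScalars, smul_eq_mul, mul_comm]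
    rw [e]
    exact this
  have h2 : AnalyticAt ℂ h 0 := h1.analyticAt
  have h3 := h2.hasFPowerSeriesAt
  have h4 := h1.eq_formalMultilinearSeries h3
  have h5 : (FormalMultilinearSeries.ofScalars ℂ a).coeff n =
      (FormalMultilinearSeries.ofScalars ℂ (fun n => iteratedDeriv n h 0 / (n.factorial : ℂ))).coeff n := by
    rw [h4]
  rw [FormalMultilinearSeries.coeff_ofScalars, FormalMultilinearSeries.coeff_ofScalars] at h5
  exact h5.symm

lemma coef_unique {g : ℂ → ℂ} {w : ℂ} {a : ℕ → ℂ} {ρ : ℝ} (hρ : 0 < ρ)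
    (hs : ∀ z ∈ ball (0:ℂ) ρ, HasSum (fun n => a n * z ^ n) (g (shift w z))) (n : ℕ) :
    coef g w n = a n :=
  taylor_unique hρ hs n

/-- Cauchy estimate. -/
lemma coef_le {w : ℂ} (hw : ‖w‖ < 1) {g : ℂ → ℂ} (hg : DifferentiableOn ℂ g (ball 0 1)) {B : ℝ}
    (hB : ∀ z ∈ ball (0:ℂ) 1, ‖g z‖ ≤ B) (n : ℕ) : ‖coef g w n‖ ≤ B := by
  have hd := comp_diff hw hg
  have key : ∀ r : ℝ, 0 < r → r < 1 → ‖coef g w n‖ * r ^ n ≤ B := by
    intro r hr0 hr1
    have h1 := norm_iteratedDeriv_le_of_forall_mem_sphere_norm_le (c := (0:ℂ)) (R := r) (C := B)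
      (f := fun z => g (shift w z)) n hr0 ?_ ?_
    · unfold coef
      rw [norm_div, Complex.norm_natCast]
      have hf : (0:ℝ) < n.factorial := by positivity
      rw [div_mul_eq_mul_div, div_le_iff₀ hf]
      calc ‖iteratedDeriv n (fun z => g (shift w z)) 0‖ * r ^ n
          ≤ (n.factorial * B / r ^ n) * r ^ n := by gcongr
        _ = B * n.factorial := by field_simp
    · apply hd.diffContOnCl_ball
      exact closedBall_subset_ball hr1
    · intro z hz
      apply hB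
      apply shift_mem hw
      rw [mem_sphere_zero_iff_norm] at hz
      rw [mem_ball_zero_iff, hz]
      exact hr1
  have hlim : Tendsto (fun r : ℝ => ‖coef g w n‖ * r ^ n) (𝓝[<] 1) (𝓝 (‖coef g w n‖ * 1 ^ n)) := by
    apply Tendsto.const_mul
    exact (tendsto_id.mono_left nhdsWithin_le_nhds).pow n
  rw [one_pow, mul_one] at hlim
  apply le_of_tendsto hlim
  filter_upwards [Ioo_mem_nhdsLT (show (0:ℝ) < 1 by norm_num)] with r hr
  exact key r hr.1 hr.2

end Pool.Agent.helper22.Mob
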