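import Mathlib
import Pool.Agent.helper22.Mob.Basic
open Complex Metric Set Filter Topology
open scoped ComplexConjugate

namespace Pool.Agent.helper22.Mob

/-- Taylor coefficients of a uniformly convergent series. -/
lemma coef_tsum {b : ℂ} (hb : ‖b‖ < 1) {g : ℕ → ℂ → ℂ} {B : ℕ → ℝ}
    (hg : ∀ k, DifferentiableOn ℂ (g k) (ball 0 1)) (hB : ∀ k, ∀ z ∈ ball (0:ℂ) 1, ‖g k z‖ ≤ B k)
    (hsum : Summable B) (n : ℕ) :
    coef (fun z => ∑' k, g k z) b n = ∑' k, coef (g k) b n := by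
  apply coef_unique (ρ := 1) one_pos
  intro z hz
  have hz1 : ‖z‖ < 1 := mem_ball_zero_iff.mp hz
  have hB0 : ∀ k, 0 ≤ B k := fun k =>
    (norm_nonneg _).trans (hB k 0 (by simp))
  have hprod : Summable (fun p : ℕ × ℕ => coef (g p.1) b p.2 * z ^ p.2) := by
    have h1 : Summable (fun p : ℕ × ℕ => B p.1 * ‖z‖ ^ p.2) :=
      hsum.mul_of_nonneg (summable_geometric_of_lt_one (norm_nonneg _) hz1) hB0
        (fun n => by positivity)
    apply Summable.of_norm_bounded h1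
    intro p
    rw [norm_mul, norm_pow]
    exact mul_le_mul_of_nonneg_right (coef_le hb (hg p.1) (hB p.1) p.2) (by positivity)
  have hsz := shift_mem hb hz
  have h2 : HasSum (fun p : ℕ × ℕ => coef (g p.1) b p.2 * z ^ p.2)
      (∑' k, g k (shift b z)) := by
    have h3 : ∀ k, HasSum (fun n => coef (g k) b n * z ^ n) (g k (shift b z)) := fun k =>
      hasSum_coef hb (hg k) hz
    have h4 := hprod.hasSum.prod_fiberwise h3
    rw [h4.tsum_eq]
    exact hprod.hasSum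
  have h5 : HasSum (fun p : ℕ × ℕ => coef (g p.2) b p.1 * z ^ p.1) (∑' k, g k (shift b z)) := by
    have := (Equiv.prodComm ℕ ℕ).hasSum_iff.mpr h2
    exact this
  have h6 := h5.prod_fiberwise (g := fun n => (∑' k, coef (g k) b n) * z ^ n) (fun n => by
    have h7 : Summable (fun k => coef (g k) b n) :=
      Summable.of_norm_bounded hsum (fun k => coef_le hb (hg k) (hB k) n)
    exact h7.hasSum.mul_right (z ^ n))
  exact h6

lemma glide_seq {b : ℂ} (Q : ℕ → (ℂ → ℂ) → Prop)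
    (h : ∀ k : ℕ, ∀ ε : ℝ, 0 < ε → ∀ C : ℝ, ∃ g : ℂ → ℂ, Q k g ∧ DifferentiableOn ℂ g (ball 0 1) ∧
      (∀ z ∈ ball (0:ℂ) 1, ‖g z‖ ≤ ε) ∧ ∃ N : ℕ, Summable (fun n => ‖coef g b n‖) ∧
      C ≤ ∑ n ∈ Finset.range N, ‖coef g b n‖) :
    ∃ (g : ℕ → ℂ → ℂ) (M : ℕ → ℕ), Monotone M ∧ ∀ k, Q k (g k) ∧
      DifferentiableOn ℂ (g k) (ball 0 1) ∧
      (∀ z ∈ ball (0:ℂ) 1, ‖g k z‖ ≤ (1 / 2) ^ k / (M k + 1)) ∧
      Summable (fun n => ‖coef (g k) b n‖) ∧
      (k:ℝ) + ∑ j ∈ Finset.range k, ∑' n, ‖coef (g j) b n‖ + 2 ≤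
        ∑ n ∈ Finset.range (M (k + 1)), ‖coef (g k) b n‖ := by
  -- one step
  have step : ∀ (k : ℕ) (M : ℕ) (S : ℝ), ∃ (g : ℂ → ℂ) (M' : ℕ), M ≤ M' ∧ Q k g ∧
      DifferentiableOn ℂ g (ball 0 1) ∧ (∀ z ∈ ball (0:ℂ) 1, ‖g z‖ ≤ (1 / 2) ^ k / (M + 1)) ∧
      Summable (fun n => ‖coef g b n‖) ∧ (k:ℝ) + S + 2 ≤ ∑ n ∈ Finset.range M', ‖coef g b n‖ := by
    intro k M S
    obtain ⟨g, h1, h2, h3, N, h4, h5⟩ := h k ((1 / 2) ^ k / (M + 1)) (by positivity) (k + S + 2)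
    refine ⟨g, max M N, le_max_left _ _, h1, h2, h3, h4, h5.trans ?_⟩
    apply Finset.sum_le_sum_of_subset_of_nonneg
    · exact Finset.range_subset_range.mpr (le_max_right _ _)
    · intro n _ _; exact norm_nonneg _
  choose G M' hM hQ hd hbd hs hbig using step
  obtain ⟨st, hst0, hst⟩ : ∃ st : ℕ → ℕ × ℝ, st 0 = (0, 0) ∧ ∀ k, st (k + 1) =
      (M' k (st k).1 (st k).2, (st k).2 + ∑' n, ‖coef (G k (st k).1 (st k).2) b n‖) :=
    ⟨fun k => Nat.rec (0, 0)
      (fun k p => (M' k p.1 p.2, p.2 + ∑' n, ‖coef (G k p.1 p.2) b n‖)) k, rfl, fun k => rfl⟩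
  have hS : ∀ k, (st k).2 = ∑ j ∈ Finset.range k, ∑' n, ‖coef (G j (st j).1 (st j).2) b n‖ := by
    intro k
    induction k with
    | zero => rw [hst0]; simp
    | succ k ih => rw [hst, Finset.sum_range_succ, ← ih]
  refine ⟨fun k => G k (st k).1 (st k).2, fun k => (st k).1, ?_, ?_⟩
  · apply monotone_nat_of_le_succ
    intro k
    rw [hst]
    exact hM k _ _
  · intro k
    refine ⟨hQ k _ _, hd k _ _, hbd k _ _, hs k _ _, ?_⟩
    beta_reduce
    rw [hst, ← hS]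
    exact hbig k _ _

/-- The gliding hump. -/
theorem gliding {b : ℂ} (hb : ‖b‖ < 1) (Q : ℕ → (ℂ → ℂ) → Prop)
    (h : ∀ k : ℕ, ∀ ε : ℝ, 0 < ε → ∀ C : ℝ, ∃ g : ℂ → ℂ, Q k g ∧ DifferentiableOn ℂ g (ball 0 1) ∧
      (∀ z ∈ ball (0:ℂ) 1, ‖g z‖ ≤ ε) ∧ ∃ N : ℕ, Summable (fun n => ‖coef g b n‖) ∧
      C ≤ ∑ n ∈ Finset.range N, ‖coef g b n‖) :
    ∃ g : ℕ → ℂ → ℂ, (∀ k, Q k (g k) ∧ DifferentiableOn ℂ (g k) (ball 0 1) ∧
      ∀ z ∈ ball (0:ℂ) 1, ‖g k z‖ ≤ (1 / 2) ^ k) ∧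
      ¬ Summable (fun n => ‖coef (fun z => ∑' k, g k z) b n‖) := by
  obtain ⟨g, M, hmono, hall⟩ := glide_seq Q h
  have hQ := fun k => (hall k).1
  have hd := fun k => (hall k).2.1
  have hbd := fun k => (hall k).2.2.1
  have hs := fun k => (hall k).2.2.2.1
  have hbig := fun k => (hall k).2.2.2.2
  clear hall
  have hbd' : ∀ k, ∀ z ∈ ball (0:ℂ) 1, ‖g k z‖ ≤ (1 / 2) ^ k := by
    intro k z hz
    refine (hbd k z hz).trans ?_
    apply div_le_self (by positivity)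
    have : (0:ℝ) ≤ M k := Nat.cast_nonneg _
    linarith
  have hgeo : Summable (fun k : ℕ => ((1:ℝ) / 2) ^ k) := summable_geometric_two
  refine ⟨g, fun k => ⟨hQ k, hd k, hbd' k⟩, ?_⟩
  intro hsum
  have hcoef : ∀ n, coef (fun z => ∑' k, g k z) b n = ∑' k, coef (g k) b n := fun n =>
    coef_tsum hb hd hbd' hgeo n
  have hsk : ∀ n, Summable (fun j => ‖coef (g j) b n‖) := fun n =>
    Summable.of_nonneg_of_le (fun _ => norm_nonneg _)
      (fun j => coef_le hb (hd j) (hbd' j) n) hgeo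
  have hskk : ∀ n k, Summable (fun j => ‖coef (g (j + (k + 1))) b n‖) := fun n k =>
    (summable_nat_add_iff (f := fun j => ‖coef (g j) b n‖) (k + 1)).mpr (hsk n)
  -- lower bound for partial sums
  have hlow : ∀ k : ℕ, (k:ℝ) ≤ ∑ n ∈ Finset.range (M (k + 1)),
      ‖coef (fun z => ∑' k, g k z) b n‖ := by
    intro k
    -- pointwise estimate
    have hpt : ∀ n ∈ Finset.range (M (k + 1)),
        ‖coef (g k) b n‖ - ∑ j ∈ Finset.range k, ‖coef (g j) b n‖ -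
        ∑' j, ‖coef (g (j + (k + 1))) b n‖ ≤ ‖coef (fun z => ∑' k, g k z) b n‖ := by
      intro n _
      rw [hcoef]
      have h1 : Summable (fun j => coef (g j) b n) := (hsk n).of_norm
      have h2 := h1.sum_add_tsum_nat_add (k + 1)
      rw [Finset.sum_range_succ] at h2
      have h3 : ‖∑' j, coef (g (j + (k + 1))) b n‖ ≤ ∑' j, ‖coef (g (j + (k + 1))) b n‖ :=
        norm_tsum_le_tsum_norm (hskk n k)
      have h4 : ‖∑ j ∈ Finset.range k, coef (g j) b n‖ ≤ ∑ j ∈ Finset.range k, ‖coef (g j) b n‖ :=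
        norm_sum_le _ _
      have h6 : ‖coef (g k) b n‖ ≤ ‖∑' j, coef (g j) b n‖ + ‖∑ j ∈ Finset.range k, coef (g j) b n‖ +
          ‖∑' j, coef (g (j + (k + 1))) b n‖ := by
        have h5 : coef (g k) b n = ∑' j, coef (g j) b n - ∑ j ∈ Finset.range k, coef (g j) b n -
            ∑' j, coef (g (j + (k + 1))) b n := by
          rw [← h2]; ring
        calc ‖coef (g k) b n‖ = ‖∑' j, coef (g j) b n - ∑ j ∈ Finset.range k, coef (g j) b n -
            ∑' j, coef (g (j + (k + 1))) b n‖ := congrArg norm h5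
          _ ≤ _ := (norm_sub_le _ _).trans (add_le_add (norm_sub_le _ _) le_rfl)
      linarith
    have hprev : ∑ n ∈ Finset.range (M (k + 1)), ∑ j ∈ Finset.range k, ‖coef (g j) b n‖ ≤
        ∑ j ∈ Finset.range k, ∑' n, ‖coef (g j) b n‖ := by
      rw [Finset.sum_comm]
      apply Finset.sum_le_sum
      intro j _
      exact (hs j).sum_le_tsum _ (fun n _ => norm_nonneg _)
    have hnext : ∑ n ∈ Finset.range (M (k + 1)), ∑' j, ‖coef (g (j + (k + 1))) b n‖ ≤ 2 := by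
      have h1 : ∀ n ∈ Finset.range (M (k + 1)), ∑' j, ‖coef (g (j + (k + 1))) b n‖ ≤
          ∑' j : ℕ, (1 / 2 : ℝ) ^ j / (M (k + 1) + 1) := by
        intro n _
        apply Summable.tsum_le_tsum
        · intro j
          have h2 : ‖coef (g (j + (k + 1))) b n‖ ≤
              (1 / 2) ^ (j + (k + 1)) / ((M (j + (k + 1)) : ℝ) + 1) :=
            coef_le hb (hd _) (hbd _) n
          refine h2.trans ?_
          have h3 : (M (k + 1) : ℝ) ≤ M (j + (k + 1)) := by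
            exact_mod_cast hmono (show k + 1 ≤ j + (k + 1) by omega)
          have h4 : ((1:ℝ) / 2) ^ (j + (k + 1)) ≤ (1 / 2) ^ j :=
            pow_le_pow_of_le_one (by norm_num) (by norm_num) (by omega)
          gcongr
        · exact hskk n k
        · exact hgeo.div_const _
      calc ∑ n ∈ Finset.range (M (k + 1)), ∑' j, ‖coef (g (j + (k + 1))) b n‖
          ≤ ∑ n ∈ Finset.range (M (k + 1)), ∑' j : ℕ, (1 / 2 : ℝ) ^ j / (M (k + 1) + 1) :=
            Finset.sum_le_sum h1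
        _ = M (k + 1) * (2 / (M (k + 1) + 1)) := by
            rw [Finset.sum_const, Finset.card_range, nsmul_eq_mul, tsum_div_const, tsum_geometric_two]
        _ ≤ 2 := by
            rw [mul_div_assoc', div_le_iff₀ (by positivity)]
            linarith
    have hb2 := hbig k
    calc (k:ℝ) ≤ ∑ n ∈ Finset.range (M (k + 1)), ‖coef (g k) b n‖ -
          ∑ n ∈ Finset.range (M (k + 1)), ∑ j ∈ Finset.range k, ‖coef (g j) b n‖ -
          ∑ n ∈ Finset.range (M (k + 1)), ∑' j, ‖coef (g (j + (k + 1))) b n‖ := by linarith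
      _ = ∑ n ∈ Finset.range (M (k + 1)), (‖coef (g k) b n‖ - ∑ j ∈ Finset.range k, ‖coef (g j) b n‖ -
          ∑' j, ‖coef (g (j + (k + 1))) b n‖) := by
          rw [Finset.sum_sub_distrib, Finset.sum_sub_distrib]
      _ ≤ _ := Finset.sum_le_sum hpt
  obtain ⟨k, hk⟩ := exists_nat_gt (∑' n, ‖coef (fun z => ∑' k, g k z) b n‖)
  have h1 := hlow k
  have h2 := hsum.sum_le_tsum (Finset.range (M (k + 1))) (fun n _ => norm_nonneg _)
  linarith

end Pool.Agent.helper22.Mob
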