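import Mathlib
import Pool.Agent.helper22.Mob.Glide
open Complex Metric Set Filter Topology
open scoped ComplexConjugate

namespace Pool.Agent.helper22.Mob

/-- Absolute convergence of the Taylor series of a sum. -/
lemma summable_coef_tsum {w : ℂ} (hw : ‖w‖ < 1) {g : ℕ → ℂ → ℂ} {B : ℕ → ℝ}
    (hg : ∀ k, DifferentiableOn ℂ (g k) (ball 0 1)) (hB : ∀ k, ∀ z ∈ ball (0:ℂ) 1, ‖g k z‖ ≤ B k)
    (hsum : Summable B) (hs : ∀ k, Summable (fun n => ‖coef (g k) w n‖))
    (ht : Summable (fun k => ∑' n, ‖coef (g k) w n‖)) :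
    Summable (fun n => ‖coef (fun z => ∑' k, g k z) w n‖) := by
  have h1 : Summable (fun p : ℕ × ℕ => ‖coef (g p.1) w p.2‖) := by
    rw [summable_prod_of_nonneg (fun p => norm_nonneg _)]
    exact ⟨hs, ht⟩
  have h2 : Summable (fun p : ℕ × ℕ => ‖coef (g p.2) w p.1‖) := by
    have := (Equiv.prodComm ℕ ℕ).summable_iff.mpr h1
    exact this
  rw [summable_prod_of_nonneg (fun p => norm_nonneg _)] at h2
  refine Summable.of_nonneg_of_le (fun _ => norm_nonneg _) (fun n => ?_) h2.2
  rw [coef_tsum hw hg hB hsum n]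
  exact norm_tsum_le_tsum_norm (h2.1 n)

lemma coef_add {w : ℂ} (hw : ‖w‖ < 1) {f g : ℂ → ℂ} (hf : DifferentiableOn ℂ f (ball 0 1))
    (hg : DifferentiableOn ℂ g (ball 0 1)) (n : ℕ) :
    coef (fun z => f z + g z) w n = coef f w n + coef g w n := by
  apply coef_unique (ρ := 1) one_pos
  intro z hz
  have := (hasSum_coef hw hf hz).add (hasSum_coef hw hg hz)
  simpa [add_mul] using this

lemma diff_tsum {g : ℕ → ℂ → ℂ} {B : ℕ → ℝ}
    (hg : ∀ k, DifferentiableOn ℂ (g k) (ball 0 1)) (hB : ∀ k, ∀ z ∈ ball (0:ℂ) 1, ‖g k z‖ ≤ B k)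
    (hsum : Summable B) : DifferentiableOn ℂ (fun z => ∑' k, g k z) (ball 0 1) :=
  differentiableOn_tsum_of_summable_norm hsum hg isOpen_ball (fun k z hz => hB k z hz)

/-- A function that is holomorphic on a bigger disc around the origin is in `W` at `0`, etc.: here the
identity function. -/
lemma summable_coef_id {t : ℂ} (ht : ‖t‖ < 1) : Summable (fun n => ‖coef (fun z => z) t n‖) := by
  -- shift t z = -t + (1 - |t|^2) * sum_{n ≥ 1} conj t^(n-1) z^n
  have h : ∀ n, coef (fun z => z) t n = (if n = 0 then -t else 0) +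
      (if n = 0 then 0 else (1 - t * conj t) * (conj t) ^ (n - 1)) := by
    intro n
    apply coef_unique (ρ := 1) one_pos
    intro z hz
    have hz1 := mem_ball_zero_iff.mp hz
    have hc : ‖conj t * z‖ < 1 := by
      rw [norm_mul, RCLike.norm_conj]
      calc ‖t‖ * ‖z‖ ≤ ‖t‖ * 1 := mul_le_mul_of_nonneg_left hz1.le (norm_nonneg _)
        _ < 1 := by linarith
    have h1 := hasSum_geometric_of_norm_lt_one hc
    have h2 : HasSum (fun n : ℕ => (1 - t * conj t) * (conj t) ^ (n + 1 - 1) * z ^ (n + 1))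
        ((1 - t * conj t) * z * (1 - conj t * z)⁻¹) := by
      have h3 := h1.mul_left ((1 - t * conj t) * z)
      have e : (fun n : ℕ => (1 - t * conj t) * (conj t) ^ (n + 1 - 1) * z ^ (n + 1)) =
          (fun n : ℕ => (1 - t * conj t) * z * (conj t * z) ^ n) := by
        ext n
        rw [Nat.add_sub_cancel, mul_pow]; ring
      rw [e]; exact h3
    have h4 : HasSum (fun n : ℕ => ((if n = 0 then -t else 0) +
      (if n = 0 then 0 else (1 - t * conj t) * (conj t) ^ (n - 1))) * z ^ n)
        ((-t) + (1 - t * conj t) * z * (1 - conj t * z)⁻¹) := by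
      rw [← hasSum_nat_add_iff' 1]
      simp only [Finset.range_one, Finset.sum_singleton, if_true, pow_zero, mul_one, add_zero]
      have e : (fun n : ℕ => ((if n + 1 = 0 then -t else 0) +
        (if n + 1 = 0 then 0 else (1 - t * conj t) * (conj t) ^ (n + 1 - 1))) * z ^ (n + 1)) =
        (fun n : ℕ => (1 - t * conj t) * (conj t) ^ (n + 1 - 1) * z ^ (n + 1)) := by
        ext n; simp
      rw [e]
      convert! h2 using 1
      ring
    have h5 : shift t z = (-t) + (1 - t * conj t) * z * (1 - conj t * z)⁻¹ := by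
      have hd := den_ne ht hz1.le
      unfold shift
      have hi : (1 - conj t * z)⁻¹ * (1 - conj t * z) = 1 := inv_mul_cancel₀ hd
      rw [div_eq_iff hd]
      linear_combination (-(1 - t * conj t) * z) * hi
    rw [h5]
    exact h4
  have h6 : Summable (fun n : ℕ => ‖coef (fun z => z) t (n + 1)‖) := by
    have e : (fun n : ℕ => ‖coef (fun z => z) t (n + 1)‖) =
        (fun n : ℕ => ‖1 - t * conj t‖ * ‖t‖ ^ n) := by
      ext n
      rw [h]
      simp
    rw [e]
    exact (summable_geometric_of_lt_one (norm_nonneg _) ht).mul_left _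
  exact (summable_nat_add_iff 1).mp h6

end Pool.Agent.helper22.Mob
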