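import Mathlib
import Pool.Agent.helper22.Mob.WSum
open Complex Metric Set Filter Topology
open scoped ComplexConjugate

namespace Pool.Agent.helper22.Mob

lemma coef_avg {f : ℂ → ℂ} (hf : DiffContOnCl ℂ f (ball 0 1)) (m : ℕ) :
    iteratedDeriv m f 0 / (m.factorial : ℂ) =
      Real.circleAverage (fun z => (z ^ m)⁻¹ * f z) 0 1 := by
  rw [Real.circleAverage_eq_circleIntegral one_ne_zero]
  have h1 := hf.circleIntegral_one_div_sub_center_pow_smul (R := 1) one_pos m
  have h2 : (∮ z in C(0, 1), (z - 0)⁻¹ • ((z ^ m)⁻¹ * f z)) =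
      ∮ z in C(0, 1), (1 / (z - 0) ^ (m + 1)) • f z := by
    congr 1
    ext z
    simp only [sub_zero, smul_eq_mul, one_div]
    rw [pow_succ, mul_inv]
    ring
  rw [h2, h1]
  have hpi : (2 * Real.pi * I : ℂ) ≠ 0 := by
    simp [Real.pi_ne_zero, Complex.I_ne_zero]
  simp only [smul_eq_mul]
  field_simp

lemma circInt {f : ℂ → ℂ} (hf : ContinuousOn f (sphere (0:ℂ) 1)) : CircleIntegrable f 0 1 :=
  ContinuousOn.circleIntegrable zero_le_one hf

lemma circIntR {f : ℂ → ℝ} (hf : ContinuousOn f (sphere (0:ℂ) 1)) : CircleIntegrable f 0 1 := by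
  apply ContinuousOn.circleIntegrable' 
  simpa using hf

/-- Circle average as a complex number. -/
lemma avg_ofReal {f : ℂ → ℝ} (hf : ContinuousOn f (sphere (0:ℂ) 1)) :
    ((Real.circleAverage f 0 1 : ℝ) : ℂ) = Real.circleAverage (fun z => (f z : ℂ)) 0 1 := by
  have := Complex.ofRealCLM.circleAverage_comp_comm (circIntR hf)
  exact this.symm

lemma sphere_ne_zero {z : ℂ} (hz : z ∈ sphere (0:ℂ) 1) : z ≠ 0 := by
  intro h
  rw [h] at hz
  simp at hz

lemma pow_inv_cont (m : ℕ) : ContinuousOn (fun z : ℂ => (z ^ m)⁻¹) (sphere (0:ℂ) 1) := by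
  apply ContinuousOn.inv₀ (by fun_prop)
  intro z hz
  exact pow_ne_zero _ (sphere_ne_zero hz)

/-- Pairing with a polynomial. -/
lemma avg_pair {f : ℂ → ℂ} (hf : ContinuousOn f (sphere (0:ℂ) 1)) (a : ℕ → ℂ) (T : ℕ) :
    Real.circleAverage (fun z => conj (∑ m ∈ Finset.range T, a m * z ^ m) * f z) 0 1 =
      ∑ m ∈ Finset.range T, conj (a m) * Real.circleAverage (fun z => (z ^ m)⁻¹ * f z) 0 1 := by
  have h1 : Real.circleAverage (fun z => conj (∑ m ∈ Finset.range T, a m * z ^ m) * f z) 0 1 =
      Real.circleAverage (fun z => ∑ m ∈ Finset.range T, conj (a m) * ((z ^ m)⁻¹ * f z)) 0 1 := by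
    apply Real.circleAverage_congr_sphere
    intro z hz
    rw [abs_one] at hz
    have hz1 : ‖z‖ = 1 := by simpa using hz
    show conj (∑ m ∈ Finset.range T, a m * z ^ m) * f z = _
    rw [map_sum, Finset.sum_mul]
    apply Finset.sum_congr rfl
    intro m _
    rw [map_mul, map_pow]
    have h2 : conj z = z⁻¹ := by
      rw [Complex.inv_def, Complex.normSq_eq_norm_sq, hz1]; simp
    rw [h2, inv_pow, mul_assoc]
  rw [h1, Real.circleAverage_fun_sum]
  · apply Finset.sum_congr rfl
    intro m _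
    have := Real.circleAverage_fun_smul (a := conj (a m)) (f := fun z => (z ^ m)⁻¹ * f z)
      (c := 0) (R := 1)
    simpa [smul_eq_mul] using this
  · intro m _
    apply circInt
    exact continuousOn_const.mul ((pow_inv_cont m).mul hf)

/-- Bessel's inequality for Taylor coefficients. -/
lemma bessel {f : ℂ → ℂ} (hf : DiffContOnCl ℂ f (ball 0 1)) (T : ℕ) :
    ∑ m ∈ Finset.range T, ‖iteratedDeriv m f 0 / (m.factorial : ℂ)‖ ^ 2 ≤
      Real.circleAverage (fun z => ‖f z‖ ^ 2) 0 1 := by
  set a : ℕ → ℂ := fun m => iteratedDeriv m f 0 / (m.factorial : ℂ) with ha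
  set S : ℂ → ℂ := fun z => ∑ m ∈ Finset.range T, a m * z ^ m with hS
  have hfc : ContinuousOn f (sphere (0:ℂ) 1) :=
    (hf.continuousOn_ball (x := (0:ℂ)) (r := 1)).mono sphere_subset_closedBall
  have hSc : Continuous S := by fun_prop
  have hSd : Differentiable ℂ S := by fun_prop
  have hSdc : DiffContOnCl ℂ S (ball 0 1) := hSd.diffContOnCl
  have hSa : ∀ m ∈ Finset.range T, iteratedDeriv m S 0 / (m.factorial : ℂ) = a m := by
    intro m hm
    have := taylor_unique (h := S) (a := fun n => if n ∈ Finset.range T then a n else 0)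
      (ρ := 1) one_pos (fun z _ => by
        have h1 : HasSum (fun n => (if n ∈ Finset.range T then a n else 0) * z ^ n)
          (∑ n ∈ Finset.range T, (if n ∈ Finset.range T then a n else 0) * z ^ n) := by
          apply hasSum_sum_of_ne_finset_zero
          intro n hn
          rw [if_neg hn, zero_mul]
        have h2 : S z = ∑ n ∈ Finset.range T, (if n ∈ Finset.range T then a n else 0) * z ^ n := by
          simp only [hS]
          apply Finset.sum_congr rfl
          intro n hn
          rw [if_pos hn]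
        rw [h2]; exact h1) m
    rw [this, if_pos hm]
  have hpf := avg_pair hfc a T
  have hpS := avg_pair hSc.continuousOn a T
  have e1 : Real.circleAverage (fun z => conj (S z) * f z) 0 1 =
      ((∑ m ∈ Finset.range T, ‖a m‖ ^ 2 : ℝ) : ℂ) := by
    rw [hpf]
    push_cast
    apply Finset.sum_congr rfl
    intro m _
    rw [← coef_avg hf m, ← Complex.conj_mul']
  have e2 : Real.circleAverage (fun z => conj (S z) * S z) 0 1 =
      ((∑ m ∈ Finset.range T, ‖a m‖ ^ 2 : ℝ) : ℂ) := by
    rw [hpS]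
    push_cast
    apply Finset.sum_congr rfl
    intro m hm
    rw [← coef_avg hSdc m, hSa m hm, ← Complex.conj_mul']
  have hcS : Continuous (fun z => conj (S z)) := Complex.continuous_conj.comp hSc
  have i1 : CircleIntegrable (fun z => conj (S z) * f z) 0 1 :=
    circInt (hcS.continuousOn.mul hfc)
  have i2 : CircleIntegrable (fun z => conj (S z) * S z) 0 1 :=
    circInt (hcS.continuousOn.mul hSc.continuousOn)
  have r1 : Real.circleAverage (fun z => (conj (S z) * f z).re) 0 1 =
      ∑ m ∈ Finset.range T, ‖a m‖ ^ 2 := by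
    have := Complex.reCLM.circleAverage_comp_comm i1
    rw [e1] at this
    exact this
  have r2 : Real.circleAverage (fun z => (conj (S z) * S z).re) 0 1 =
      ∑ m ∈ Finset.range T, ‖a m‖ ^ 2 := by
    have := Complex.reCLM.circleAverage_comp_comm i2
    rw [e2] at this
    exact this
  have c0 : ContinuousOn (fun z => ‖f z‖ ^ 2) (sphere (0:ℂ) 1) := hfc.norm.pow 2
  have c1 : ContinuousOn (fun z => (conj (S z) * f z).re) (sphere (0:ℂ) 1) :=
    Complex.continuous_re.comp_continuousOn (hcS.continuousOn.mul hfc)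
  have c2 : ContinuousOn (fun z => (conj (S z) * S z).re) (sphere (0:ℂ) 1) :=
    (Complex.continuous_re.comp (hcS.mul hSc)).continuousOn
  have hnn : 0 ≤ Real.circleAverage (fun z => (‖f z‖ ^ 2 - (conj (S z) * f z).re) -
      ((conj (S z) * f z).re - (conj (S z) * S z).re)) 0 1 := by
    apply Real.circleAverage_nonneg_of_nonneg
    intro z _
    have h3 : (‖f z‖ ^ 2 - (conj (S z) * f z).re) -
      ((conj (S z) * f z).re - (conj (S z) * S z).re) = ‖f z - S z‖ ^ 2 := by
      rw [Complex.sq_norm, Complex.sq_norm, Complex.normSq_apply, Complex.normSq_apply]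
      simp only [Complex.mul_re, Complex.conj_re, Complex.conj_im, Complex.sub_re, Complex.sub_im]
      ring
    rw [h3]; positivity
  have s1 := Real.circleAverage_fun_sub (f₁ := fun z => ‖f z‖ ^ 2 - (conj (S z) * f z).re)
    (f₂ := fun z => (conj (S z) * f z).re - (conj (S z) * S z).re) (c := 0) (R := 1)
    (circIntR (c0.sub c1)) (circIntR (c1.sub c2))
  have s2 := Real.circleAverage_fun_sub (f₁ := fun z => ‖f z‖ ^ 2)
    (f₂ := fun z => (conj (S z) * f z).re) (c := 0) (R := 1) (circIntR c0) (circIntR c1)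
  have s3 := Real.circleAverage_fun_sub (f₁ := fun z => (conj (S z) * f z).re)
    (f₂ := fun z => (conj (S z) * S z).re) (c := 0) (R := 1) (circIntR c1) (circIntR c2)
  rw [s1, s2, s3, r1, r2] at hnn
  linarith

lemma shift_diff_closed {w : ℂ} (hw : ‖w‖ < 1) : DifferentiableOn ℂ (shift w) (closedBall 0 1) := by
  unfold shift
  apply DifferentiableOn.div
  · fun_prop
  · fun_prop
  · intro z hz
    exact den_ne hw (mem_closedBall_zero_iff.mp hz)

lemma shift_norm_one {w z : ℂ} (hw : ‖w‖ < 1) (hz : ‖z‖ = 1) : ‖shift w z‖ = 1 := by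
  have hd := den_ne hw hz.le
  have h1 := normSq_identity w z
  rw [hz] at h1
  have h2 : ‖1 - conj w * z‖ ^ 2 = ‖z - w‖ ^ 2 := by linarith
  have h3 : ‖1 - conj w * z‖ = ‖z - w‖ :=
    (pow_left_inj₀ (norm_nonneg _) (norm_nonneg _) (by norm_num)).mp h2
  unfold shift
  rw [norm_div, ← h3, div_self (norm_ne_zero_iff.mpr hd)]

lemma shift_at_zero (w : ℂ) : shift w 0 = -w := by unfold shift; simp

/-- Mean value property for powers of the automorphism. -/
lemma avg_shift_pow {w : ℂ} (hw : ‖w‖ < 1) (k : ℕ) :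
    Real.circleAverage (fun z => shift w z ^ k) 0 1 = (-w) ^ k := by
  have h1 : DiffContOnCl ℂ (fun z => shift w z ^ k) (ball 0 |1|) := by
    rw [abs_one]
    exact (((shift_diff_closed hw).pow k).mono closure_ball_subset_closedBall).diffContOnCl
  rw [h1.circleAverage, shift_at_zero]

lemma avg_shift_pair {w : ℂ} (hw : ‖w‖ < 1) (j l : ℕ) :
    ‖Real.circleAverage (fun z => shift w z ^ j * conj (shift w z) ^ l) 0 1‖ ≤
      ‖w‖ ^ (j - l + (l - j)) := by
  have hsc : ContinuousOn (shift w) (sphere (0:ℂ) 1) :=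
    (shift_diff_closed hw).continuousOn.mono sphere_subset_closedBall
  have hunit : ∀ z ∈ sphere (0:ℂ) |1|, shift w z * conj (shift w z) = 1 := by
    intro z hz
    have hz1 : ‖z‖ = 1 := by simpa using hz
    rw [Complex.mul_conj', shift_norm_one hw hz1]; norm_num
  rcases le_total l j with h | h
  · have e : Real.circleAverage (fun z => shift w z ^ j * conj (shift w z) ^ l) 0 1 =
        Real.circleAverage (fun z => shift w z ^ (j - l)) 0 1 := by
      apply Real.circleAverage_congr_sphere
      intro z hz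
      show shift w z ^ j * conj (shift w z) ^ l = shift w z ^ (j - l)
      obtain ⟨d, rfl⟩ := Nat.exists_eq_add_of_le h
      rw [Nat.add_sub_cancel_left, pow_add, mul_comm (shift w z ^ l), mul_assoc, ← mul_pow,
        hunit z hz, one_pow, mul_one]
    rw [e, avg_shift_pow hw, norm_pow, norm_neg, Nat.sub_eq_zero_of_le h, add_zero]
  · have e : Real.circleAverage (fun z => shift w z ^ j * conj (shift w z) ^ l) 0 1 =
        Real.circleAverage (fun z => conj (shift w z ^ (l - j))) 0 1 := by
      apply Real.circleAverage_congr_sphere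
      intro z hz
      show shift w z ^ j * conj (shift w z) ^ l = conj (shift w z ^ (l - j))
      obtain ⟨d, rfl⟩ := Nat.exists_eq_add_of_le h
      rw [Nat.add_sub_cancel_left, pow_add, ← mul_assoc, ← mul_pow, hunit z hz, one_pow, one_mul,
        map_pow]
    have e2 : Real.circleAverage (fun z => conj (shift w z ^ (l - j))) 0 1 =
        conj (Real.circleAverage (fun z => shift w z ^ (l - j)) 0 1) := by
      have := (Complex.conjCLE : ℂ →L[ℝ] ℂ).circleAverage_comp_comm (circInt (hsc.pow (l - j)))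
      exact this
    rw [e, e2, avg_shift_pow hw, RCLike.norm_conj, norm_pow, norm_neg, Nat.sub_eq_zero_of_le h,
      zero_add]

lemma geom_dist {x : ℝ} (hx0 : 0 ≤ x) (hx1 : x < 1) (j M : ℕ) :
    ∑ l ∈ Finset.range M, x ^ (j - l + (l - j)) ≤ 2 / (1 - x) := by
  have h1x : 0 < 1 - x := by linarith
  have hgeo := hasSum_geometric_of_lt_one hx0 hx1
  have hsplit : ∑ l ∈ Finset.range M, x ^ (j - l + (l - j)) ≤
      ∑ l ∈ Finset.range (j + 1 + M), x ^ (j - l + (l - j)) := by
    apply Finset.sum_le_sum_of_subset_of_nonneg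
    · intro l hl; rw [Finset.mem_range] at hl ⊢; omega
    · intro _ _ _; positivity
  refine hsplit.trans ?_
  rw [Finset.sum_range_add]
  have e1 : ∑ l ∈ Finset.range (j + 1), x ^ (j - l + (l - j)) = ∑ l ∈ Finset.range (j + 1), x ^ l := by
    rw [← Finset.sum_range_reflect (fun l => x ^ l)]
    apply Finset.sum_congr rfl
    intro l hl
    rw [Finset.mem_range] at hl
    congr 1
    omega
  have e2 : ∑ l ∈ Finset.range M, x ^ (j - (j + 1 + l) + (j + 1 + l - j)) ≤
      ∑ l ∈ Finset.range M, x ^ l := by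
    apply Finset.sum_le_sum
    intro l _
    apply pow_le_pow_of_le_one hx0 hx1.le
    omega
  have e3 : ∀ n : ℕ, ∑ l ∈ Finset.range n, x ^ l ≤ (1 - x)⁻¹ := by
    intro n
    rw [← hgeo.tsum_eq]
    exact hgeo.summable.sum_le_tsum _ (fun i _ => by positivity)
  rw [e1]
  calc _ ≤ (1 - x)⁻¹ + (1 - x)⁻¹ := add_le_add (e3 _) (e2.trans (e3 _))
    _ = 2 / (1 - x) := by field_simp; norm_num

/-- Boundedness of the composition operator on the Hardy space, for polynomials. -/
lemma avg_comp_le {w : ℂ} (hw : ‖w‖ < 1) (a : ℕ → ℂ) (M : ℕ) :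
    Real.circleAverage (fun z => ‖∑ j ∈ Finset.range M, a j * shift w z ^ j‖ ^ 2) 0 1 ≤
      2 / (1 - ‖w‖) * ∑ j ∈ Finset.range M, ‖a j‖ ^ 2 := by
  have hsc : ContinuousOn (shift w) (sphere (0:ℂ) 1) :=
    (shift_diff_closed hw).continuousOn.mono sphere_subset_closedBall
  have hcc : ContinuousOn (fun z => conj (shift w z)) (sphere (0:ℂ) 1) :=
    Complex.continuous_conj.comp_continuousOn hsc
  have hFc : ContinuousOn (fun z => ‖∑ j ∈ Finset.range M, a j * shift w z ^ j‖ ^ 2)
      (sphere (0:ℂ) 1) := by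
    apply ContinuousOn.pow
    apply ContinuousOn.norm
    apply continuousOn_finsetSum
    intro j _
    exact continuousOn_const.mul (hsc.pow j)
  set t : ℕ → ℕ → ℂ := fun j l =>
    Real.circleAverage (fun z => shift w z ^ j * conj (shift w z) ^ l) 0 1 with ht
  have h1 : ((Real.circleAverage (fun z => ‖∑ j ∈ Finset.range M, a j * shift w z ^ j‖ ^ 2) 0 1 : ℝ)
      : ℂ) = ∑ j ∈ Finset.range M, ∑ l ∈ Finset.range M, (a j * conj (a l)) * t j l := by
    rw [avg_ofReal hFc]
    have e : (fun z => ((‖∑ j ∈ Finset.range M, a j * shift w z ^ j‖ ^ 2 : ℝ) : ℂ)) =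
        (fun z => ∑ j ∈ Finset.range M, ∑ l ∈ Finset.range M,
          (a j * conj (a l)) * (shift w z ^ j * conj (shift w z) ^ l)) := by
      ext z
      push_cast
      rw [← Complex.mul_conj', map_sum, Finset.sum_mul_sum]
      apply Finset.sum_congr rfl
      intro j _
      apply Finset.sum_congr rfl
      intro l _
      rw [map_mul, map_pow]
      ring
    rw [e, Real.circleAverage_fun_sum]
    · apply Finset.sum_congr rfl
      intro j _
      rw [Real.circleAverage_fun_sum]
      · apply Finset.sum_congr rfl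
        intro l _
        have := Real.circleAverage_fun_smul (a := a j * conj (a l))
          (f := fun z => shift w z ^ j * conj (shift w z) ^ l) (c := 0) (R := 1)
        simpa [smul_eq_mul] using this
      · intro l _
        apply circInt
        exact continuousOn_const.mul ((hsc.pow j).mul (hcc.pow l))
    · intro j _
      apply circInt
      apply continuousOn_finsetSum
      intro l _
      exact continuousOn_const.mul ((hsc.pow j).mul (hcc.pow l))
  have h1w : 0 < 1 - ‖w‖ := by linarith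
  have hnorm : Real.circleAverage (fun z => ‖∑ j ∈ Finset.range M, a j * shift w z ^ j‖ ^ 2) 0 1 ≤
      ∑ j ∈ Finset.range M, ∑ l ∈ Finset.range M, (‖a j‖ * ‖a l‖) * ‖w‖ ^ (j - l + (l - j)) := by
    have h2 := congrArg norm h1
    rw [Complex.norm_real] at h2
    refine (le_abs_self _).trans ?_
    rw [← Real.norm_eq_abs, h2]
    refine (norm_sum_le _ _).trans (Finset.sum_le_sum (fun j _ => ?_))
    refine (norm_sum_le _ _).trans (Finset.sum_le_sum (fun l _ => ?_))
    rw [norm_mul, norm_mul, RCLike.norm_conj]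
    exact mul_le_mul_of_nonneg_left (avg_shift_pair hw j l) (by positivity)
  refine hnorm.trans ?_
  have h3 : ∑ j ∈ Finset.range M, ∑ l ∈ Finset.range M, (‖a j‖ * ‖a l‖) * ‖w‖ ^ (j - l + (l - j)) ≤
      ∑ j ∈ Finset.range M, ∑ l ∈ Finset.range M,
        (‖a j‖ ^ 2 / 2 * ‖w‖ ^ (j - l + (l - j)) + ‖a l‖ ^ 2 / 2 * ‖w‖ ^ (j - l + (l - j))) := by
    apply Finset.sum_le_sum; intro j _
    apply Finset.sum_le_sum; intro l _
    rw [← add_mul]
    apply mul_le_mul_of_nonneg_right _ (by positivity)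
    nlinarith [sq_nonneg (‖a j‖ - ‖a l‖)]
  refine h3.trans ?_
  simp only [Finset.sum_add_distrib]
  have h4 : ∑ j ∈ Finset.range M, ∑ l ∈ Finset.range M, ‖a j‖ ^ 2 / 2 * ‖w‖ ^ (j - l + (l - j)) ≤
      ∑ j ∈ Finset.range M, ‖a j‖ ^ 2 / 2 * (2 / (1 - ‖w‖)) := by
    apply Finset.sum_le_sum; intro j _
    rw [← Finset.mul_sum]
    exact mul_le_mul_of_nonneg_left (geom_dist (norm_nonneg _) hw j M) (by positivity)
  have h5 : ∑ j ∈ Finset.range M, ∑ l ∈ Finset.range M, ‖a l‖ ^ 2 / 2 * ‖w‖ ^ (j - l + (l - j)) ≤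
      ∑ l ∈ Finset.range M, ‖a l‖ ^ 2 / 2 * (2 / (1 - ‖w‖)) := by
    rw [Finset.sum_comm]
    apply Finset.sum_le_sum; intro l _
    rw [← Finset.mul_sum]
    apply mul_le_mul_of_nonneg_left _ (by positivity)
    have := geom_dist (norm_nonneg w) hw l M
    refine le_trans (le_of_eq ?_) this
    apply Finset.sum_congr rfl
    intro j _
    congr 1
    omega
  refine (add_le_add h4 h5).trans (le_of_eq ?_)
  rw [← Finset.sum_mul, ← Finset.sum_div]
  field_simp
  ring

lemma comp_poly_dcc {w : ℂ} (hw : ‖w‖ < 1) (a : ℕ → ℂ) (M : ℕ) :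
    DiffContOnCl ℂ (fun z => ∑ j ∈ Finset.range M, a j * shift w z ^ j) (ball 0 1) := by
  apply DifferentiableOn.diffContOnCl
  apply DifferentiableOn.mono _ closure_ball_subset_closedBall
  apply DifferentiableOn.fun_sum
  intro j _
  exact (differentiableOn_const _).mul ((shift_diff_closed hw).pow j)

/-- The Hardy space bound. -/
theorem hardy {w : ℂ} (hw : ‖w‖ < 1) (a : ℕ → ℂ) (M T : ℕ) :
    ∑ m ∈ Finset.range T, ‖coef (fun y => ∑ j ∈ Finset.range M, a j * y ^ j) w m‖ ^ 2 ≤
      2 / (1 - ‖w‖) * ∑ j ∈ Finset.range M, ‖a j‖ ^ 2 :=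
  (bessel (comp_poly_dcc hw a M) T).trans (avg_comp_le hw a M)

end Pool.Agent.helper22.Mob
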