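import Mathlib
import Pool.Agent.helper22.Mob.Hardy
open Complex Metric Set Filter Topology
open scoped ComplexConjugate

namespace Pool.Agent.helper22.Mob

/-- The Euler operator in the shifted variable. -/
lemma coef_euler {w : ℂ} (hw : ‖w‖ < 1) {u : ℂ → ℂ} (hu : DifferentiableOn ℂ u (ball 0 1)) (m : ℕ) :
    coef (fun y => (y + w) * (1 + conj w * y) * deriv u y) w m =
      (1 - w * conj w) * m * coef u w m := by
  apply coef_unique (ρ := 1) one_pos
  intro z hz
  have hz1 := mem_ball_zero_iff.mp hz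
  have hd := den_ne hw hz1.le
  set H : ℂ → ℂ := fun z => u (shift w z) with hH
  have hHd : DifferentiableOn ℂ H (ball 0 1) := comp_diff hw hu
  have h1 := hasSum_taylorSeries_on_ball (c := 0) (r := 1) (f := deriv H) (z := z)
    (by simpa using hHd.deriv isOpen_ball) (by simpa using hz)
  have e1 : (fun n : ℕ => ((n.factorial : ℂ))⁻¹ • (z - 0) ^ n • iteratedDeriv n (deriv H) 0) =
      (fun n : ℕ => ((n + 1 : ℕ) : ℂ) * coef u w (n + 1) * z ^ n) := by
    ext n
    rw [← iteratedDeriv_succ']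
    unfold coef
    rw [Nat.factorial_succ]
    have hf : (n.factorial : ℂ) ≠ 0 := by exact_mod_cast n.factorial_ne_zero
    have hn : ((n + 1 : ℕ) : ℂ) ≠ 0 := by exact_mod_cast (Nat.succ_ne_zero n)
    simp only [sub_zero, smul_eq_mul]
    rw [Nat.cast_mul]
    field_simp
    rfl
  rw [e1] at h1
  have h2 := h1.mul_left ((1 - w * conj w) * z)
  have h3 : HasSum (fun n : ℕ => (1 - w * conj w) * (n : ℂ) * coef u w n * z ^ n)
      ((1 - w * conj w) * z * deriv H z) := by
    rw [← hasSum_nat_add_iff' 1]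
    simp only [Finset.range_one, Finset.sum_singleton, Nat.cast_zero, mul_zero, zero_mul, sub_zero]
    have e2 : (fun n : ℕ => (1 - w * conj w) * ((n + 1 : ℕ) : ℂ) * coef u w (n + 1) * z ^ (n + 1)) =
        (fun n : ℕ => (1 - w * conj w) * z * (((n + 1 : ℕ) : ℂ) * coef u w (n + 1) * z ^ n)) := by
      ext n; rw [pow_succ]; ring
    rw [e2]; exact h2
  have hder : deriv H z = deriv u (shift w z) * ((1 - w * conj w) / (1 - conj w * z) ^ 2) := by
    have hs : HasDerivAt (shift w) ((1 - w * conj w) / (1 - conj w * z) ^ 2) z := by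
      have hnum : HasDerivAt (fun z : ℂ => z - w) 1 z := (hasDerivAt_id z).sub_const w
      have hden : HasDerivAt (fun z : ℂ => 1 - conj w * z) (-(conj w)) z := by
        have := ((hasDerivAt_id z).const_mul (conj w)).const_sub 1
        simpa using this
      have := hnum.div hden hd
      have e : (1 * (1 - conj w * z) - (z - w) * -(conj w)) / (1 - conj w * z) ^ 2 =
          (1 - w * conj w) / (1 - conj w * z) ^ 2 := by
        congr 1; ring
      rw [e] at this
      exact this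
    have hu' : HasDerivAt u (deriv u (shift w z)) (shift w z) :=
      ((hu _ (shift_mem hw hz)).differentiableAt (isOpen_ball.mem_nhds (shift_mem hw hz))).hasDerivAt
    exact (hu'.comp z hs).deriv
  have hval : (1 - w * conj w) * z * deriv H z =
      (shift w z + w) * (1 + conj w * shift w z) * deriv u (shift w z) := by
    rw [hder]
    have h4 : shift w z * (1 - conj w * z) = z - w := by
      unfold shift
      rw [div_mul_cancel₀ _ hd]
    have h5 : (shift w z + w) * (1 - conj w * z) = (1 - w * conj w) * z := by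
      linear_combination h4
    have h6 : (1 + conj w * shift w z) * (1 - conj w * z) = (1 - w * conj w) := by
      linear_combination (conj w) * h4
    have h7 : (shift w z + w) * (1 + conj w * shift w z) * (1 - conj w * z) ^ 2 =
        (1 - w * conj w) * z * (1 - w * conj w) := by
      rw [← h5]
      linear_combination (shift w z + w) * (1 - conj w * z) * h6
    have h8 : (1 - conj w * z) ^ 2 ≠ 0 := pow_ne_zero 2 hd
    have h9 : (shift w z + w) * (1 + conj w * shift w z) =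
        (1 - w * conj w) * z * (1 - w * conj w) / (1 - conj w * z) ^ 2 := by
      rw [eq_div_iff h8]; exact h7
    rw [h9]; ring
  rw [hval] at h3
  exact h3

/-- The Euler operator on polynomials. -/
lemma euler_poly (A : ℕ → ℂ) (M : ℕ) (hA : ∀ n, M ≤ n → A n = 0) (hA0 : A 0 = 0) (w κ y : ℂ) :
    (y + w) * (1 + conj w * y) * (∑ n ∈ Finset.range M, A n * (n * y ^ (n - 1))) -
      κ * ∑ n ∈ Finset.range M, A n * y ^ n =
    ∑ n ∈ Finset.range (M + 1), (w * ((n + 1 : ℂ) * A (n + 1)) + (1 + w * conj w) * (n * A n) +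
      conj w * ((n - 1 : ℂ) * A (n - 1)) - κ * A n) * y ^ n := by
  have s1 : ∑ n ∈ Finset.range (M + 1), ((n + 1 : ℂ) * A (n + 1)) * y ^ n =
      ∑ n ∈ Finset.range M, A n * (n * y ^ (n - 1)) := by
    have h := Finset.sum_range_succ' (fun n : ℕ => A n * (n * y ^ (n - 1))) (M + 1)
    rw [Finset.sum_range_succ, Finset.sum_range_succ, hA M le_rfl, hA (M + 1) (by omega)] at h
    simp only [zero_mul, add_zero, Nat.add_sub_cancel, Nat.cast_zero, mul_zero] at h
    rw [h]
    apply Finset.sum_congr rfl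
    intro n _
    push_cast
    ring
  have s2 : ∑ n ∈ Finset.range (M + 1), ((n : ℂ) * A n) * y ^ n =
      y * ∑ n ∈ Finset.range M, A n * (n * y ^ (n - 1)) := by
    rw [Finset.sum_range_succ, hA M le_rfl, mul_zero, zero_mul, add_zero, Finset.mul_sum]
    apply Finset.sum_congr rfl
    intro n _
    rcases n with _ | n
    · simp
    · rw [Nat.add_sub_cancel, pow_succ]; ring
  have s3 : ∑ n ∈ Finset.range (M + 1), ((n - 1 : ℂ) * A (n - 1)) * y ^ n =
      y ^ 2 * ∑ n ∈ Finset.range M, A n * (n * y ^ (n - 1)) := by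
    rw [Finset.sum_range_succ']
    simp only [Nat.add_sub_cancel, Nat.zero_sub, hA0, mul_zero, zero_mul, add_zero]
    rw [Finset.mul_sum]
    apply Finset.sum_congr rfl
    intro n _
    rcases n with _ | n
    · simp
    · rw [Nat.add_sub_cancel, pow_succ, pow_succ]; push_cast; ring
  have s4 : ∑ n ∈ Finset.range (M + 1), A n * y ^ n = ∑ n ∈ Finset.range M, A n * y ^ n := by
    rw [Finset.sum_range_succ, hA M le_rfl, zero_mul, add_zero]
  have e : ∑ n ∈ Finset.range (M + 1), (w * ((n + 1 : ℂ) * A (n + 1)) +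
      (1 + w * conj w) * (n * A n) + conj w * ((n - 1 : ℂ) * A (n - 1)) - κ * A n) * y ^ n =
      w * ∑ n ∈ Finset.range (M + 1), ((n + 1 : ℂ) * A (n + 1)) * y ^ n +
      (1 + w * conj w) * ∑ n ∈ Finset.range (M + 1), ((n : ℂ) * A n) * y ^ n +
      conj w * ∑ n ∈ Finset.range (M + 1), ((n - 1 : ℂ) * A (n - 1)) * y ^ n -
      κ * ∑ n ∈ Finset.range (M + 1), A n * y ^ n := by
    rw [Finset.mul_sum, Finset.mul_sum, Finset.mul_sum, Finset.mul_sum, ← Finset.sum_add_distrib,
      ← Finset.sum_add_distrib, ← Finset.sum_sub_distrib]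
    apply Finset.sum_congr rfl
    intro n _
    ring
  rw [e, s1, s2, s3, s4]
  ring

/-- Box function. -/
noncomputable def bx (N K n : ℕ) : ℝ := if N ≤ n ∧ n < N + K then 1 else 0

/-- The packet coefficients. -/
noncomputable def pa (σ : ℂ) (N K n : ℕ) : ℂ := σ ^ n * (bx N K n : ℝ)

/-- The packet. -/
noncomputable def pk (σ : ℂ) (N K : ℕ) (y : ℂ) : ℂ := ∑ n ∈ Finset.range (N + K), pa σ N K n * y ^ n

/-- The coefficients of the commutator. -/
noncomputable def pb (w σ : ℂ) (N K n : ℕ) : ℂ :=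
  w * ((n + 1 : ℂ) * pa σ N K (n + 1)) + (1 + w * conj w) * (n * pa σ N K n) +
      conj w * ((n - 1 : ℂ) * pa σ N K (n - 1)) -
      (N * ((1 + w * σ) * conj (1 + w * σ))) * pa σ N K n

lemma pk_deriv (σ : ℂ) (N K : ℕ) (y : ℂ) :
    deriv (pk σ N K) y = ∑ n ∈ Finset.range (N + K), pa σ N K n * (n * y ^ (n - 1)) := by
  have : HasDerivAt (pk σ N K) (∑ n ∈ Finset.range (N + K), pa σ N K n * (n * y ^ (n - 1))) y := by
    unfold pk
    apply HasDerivAt.fun_sum
    intro n _
    exact (hasDerivAt_pow n y).const_mul _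
  exact this.deriv

lemma pk_diff (σ : ℂ) (N K : ℕ) : DifferentiableOn ℂ (pk σ N K) (ball 0 1) := by
  unfold pk
  fun_prop

lemma pk_commutator {w σ : ℂ} (hw : ‖w‖ < 1) {N K : ℕ} (hN : 1 ≤ N) (m : ℕ) :
    coef (fun y => ∑ n ∈ Finset.range (N + K + 1), pb w σ N K n * y ^ n) w m =
      ((1 - w * conj w) * m - N * ((1 + w * σ) * conj (1 + w * σ))) * coef (pk σ N K) w m := by
  have h1 := coef_euler hw (pk_diff σ N K) m
  have hd1 : DifferentiableOn ℂ (fun y => (y + w) * (1 + conj w * y) * deriv (pk σ N K) y)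
      (ball 0 1) := by
    apply DifferentiableOn.mul
    · fun_prop
    · exact (pk_diff σ N K).deriv isOpen_ball
  have hA : ∀ n, N + K ≤ n → pa σ N K n = 0 := by
    intro n hn
    unfold pa bx
    rw [if_neg (by omega)]
    simp
  have hA0 : pa σ N K 0 = 0 := by
    unfold pa bx
    rw [if_neg (by omega)]
    simp
  have e : (fun y => ∑ n ∈ Finset.range (N + K + 1), pb w σ N K n * y ^ n) =
      (fun y => (y + w) * (1 + conj w * y) * deriv (pk σ N K) y +
        (-(N * ((1 + w * σ) * conj (1 + w * σ)))) * pk σ N K y) := by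
    ext y
    rw [pk_deriv]
    have h2 := euler_poly (pa σ N K) (N + K) hA hA0 w (N * ((1 + w * σ) * conj (1 + w * σ))) y
    unfold pb
    rw [← h2]
    unfold pk
    ring
  have hd2 : DifferentiableOn ℂ (fun y => (-(N * ((1 + w * σ) * conj (1 + w * σ)))) * pk σ N K y)
      (ball 0 1) := (differentiableOn_const _).mul (pk_diff σ N K)
  rw [e, coef_add hw hd1 hd2, h1]
  have h3 : coef (fun y => (-(N * ((1 + w * σ) * conj (1 + w * σ)))) * pk σ N K y) w m =
      (-(N * ((1 + w * σ) * conj (1 + w * σ)))) * coef (pk σ N K) w m := by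
    apply coef_unique (ρ := 1) one_pos
    intro z hz
    have := (hasSum_coef hw (pk_diff σ N K) hz).mul_left (-(N * ((1 + w * σ) * conj (1 + w * σ))))
    simpa [mul_assoc] using this
  rw [h3]
  ring

lemma bx_sum (N K : ℕ) (T : ℕ) : ∑ n ∈ Finset.range T, bx N K n ≤ K := by
  have h1 : ∑ n ∈ Finset.range T, bx N K n = ((Finset.range T).filter (fun n => N ≤ n ∧ n < N + K)).card := by
    unfold bx
    rw [Finset.sum_ite]
    simp
  rw [h1]
  have h2 : ((Finset.range T).filter (fun n => N ≤ n ∧ n < N + K)).card ≤ (Finset.Ico N (N + K)).card := by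
    apply Finset.card_le_card
    intro n hn
    rw [Finset.mem_filter] at hn
    rw [Finset.mem_Ico]
    exact hn.2
  rw [Nat.card_Ico, Nat.add_sub_cancel_left] at h2
  exact_mod_cast h2

lemma bx_nonneg (N K n : ℕ) : 0 ≤ bx N K n := by
  unfold bx; split_ifs <;> norm_num

lemma pb_norm {w σ : ℂ} (hw : ‖w‖ < 1) (hσ : ‖σ‖ = 1) {N K : ℕ} (hN : 1 ≤ N) (n : ℕ) :
    ‖pb w σ N K n‖ ≤ |((n:ℝ) + 1) * bx N K (n + 1) - N * bx N K n| +
      2 * |((n:ℝ) - N) * bx N K n| + |((n:ℝ) - 1) * bx N K (n - 1) - N * bx N K n| := by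
  have hσc : conj σ * σ = 1 := by rw [Complex.conj_mul', hσ]; norm_num
  -- the shifted coefficient
  have h1 : (n - 1 : ℂ) * pa σ N K (n - 1) = σ ^ n * conj σ * ((n - 1 : ℂ) * (bx N K (n - 1) : ℝ)) := by
    unfold pa
    rcases n with _ | n
    · have : bx N K (0 - 1) = 0 := by unfold bx; rw [if_neg (by omega)]
      rw [this]; simp
    · rw [Nat.add_sub_cancel, pow_succ]
      have : σ ^ n = σ ^ n * (conj σ * σ) := by rw [hσc, mul_one]
      push_cast
      linear_combination ((n:ℂ) * (bx N K n : ℝ)) * this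
  have h2 : pb w σ N K n = σ ^ n * (w * σ * ((((n:ℝ) + 1) * bx N K (n + 1) - N * bx N K n : ℝ) : ℂ) +
      (1 + w * conj w) * ((((n:ℝ) - N) * bx N K n : ℝ) : ℂ) +
      conj w * conj σ * ((((n:ℝ) - 1) * bx N K (n - 1) - N * bx N K n : ℝ) : ℂ)) := by
    unfold pb
    rw [h1]
    unfold pa
    rw [map_add, map_mul, map_one]
    push_cast
    linear_combination (-(w * conj w * N * σ ^ n * (bx N K n : ℝ))) * hσc
  rw [h2, norm_mul, norm_pow, hσ, one_pow, one_mul]
  have b1 : ‖w * σ * ((((n:ℝ) + 1) * bx N K (n + 1) - N * bx N K n : ℝ) : ℂ)‖ ≤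
      |((n:ℝ) + 1) * bx N K (n + 1) - N * bx N K n| := by
    rw [norm_mul, norm_mul, hσ, mul_one, Complex.norm_real, Real.norm_eq_abs]
    exact mul_le_of_le_one_left (abs_nonneg _) hw.le
  have b2 : ‖(1 + w * conj w) * ((((n:ℝ) - N) * bx N K n : ℝ) : ℂ)‖ ≤
      2 * |((n:ℝ) - N) * bx N K n| := by
    rw [norm_mul, Complex.norm_real, Real.norm_eq_abs]
    apply mul_le_mul_of_nonneg_right _ (abs_nonneg _)
    refine (norm_add_le _ _).trans ?_
    rw [norm_one, norm_mul, RCLike.norm_conj]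
    nlinarith [norm_nonneg w]
  have b3 : ‖conj w * conj σ * ((((n:ℝ) - 1) * bx N K (n - 1) - N * bx N K n : ℝ) : ℂ)‖ ≤
      |((n:ℝ) - 1) * bx N K (n - 1) - N * bx N K n| := by
    rw [norm_mul, norm_mul, RCLike.norm_conj, RCLike.norm_conj, hσ, mul_one, Complex.norm_real,
      Real.norm_eq_abs]
    exact mul_le_of_le_one_left (abs_nonneg _) hw.le
  exact (norm_add_le _ _).trans (add_le_add ((norm_add_le _ _).trans (add_le_add b1 b2)) b3)

lemma x1_bound {N K : ℕ} (hK : 1 ≤ K) (n : ℕ) :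
    (((n:ℝ) + 1) * bx N K (n + 1) - N * bx N K n) ^ 2 ≤
      (if n + 1 = N then (N:ℝ) ^ 2 else 0) + (if n + 1 = N + K then (N:ℝ) ^ 2 else 0) +
        (K:ℝ) ^ 2 * bx N K n := by
  unfold bx
  by_cases h1 : n + 1 < N
  · rw [if_neg (by omega), if_neg (by omega), if_neg (by omega), if_neg (by omega)]; simp
  by_cases h2 : n + 1 = N
  · rw [if_pos (by omega), if_neg (by omega), if_pos h2, if_neg (by omega)]
    have : (n:ℝ) + 1 = N := by exact_mod_cast h2
    rw [this]; simp
  by_cases h3 : n + 1 < N + K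
  · rw [if_pos (by omega), if_pos (by omega), if_neg (by omega), if_neg (by omega)]
    have h4 : (N:ℝ) ≤ n := by exact_mod_cast (by omega : N ≤ n)
    have h5 : (n:ℝ) + 1 ≤ N + K := by exact_mod_cast (by omega : n + 1 ≤ N + K)
    have h6 : (0:ℝ) ≤ n + 1 - N := by linarith
    have h7 : (n:ℝ) + 1 - N ≤ K := by linarith
    nlinarith
  by_cases h4 : n + 1 = N + K
  · rw [if_neg (by omega), if_pos (by omega), if_neg (by omega), if_pos h4]
    nlinarith [sq_nonneg (K:ℝ)]
  · rw [if_neg (by omega), if_neg (by omega), if_neg (by omega), if_neg (by omega)]; simp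

lemma x2_bound {N K : ℕ} (n : ℕ) :
    (((n:ℝ) - N) * bx N K n) ^ 2 ≤ (K:ℝ) ^ 2 * bx N K n := by
  unfold bx
  split_ifs with h
  · have h4 : (N:ℝ) ≤ n := by exact_mod_cast h.1
    have h5 : (n:ℝ) ≤ N + K := by exact_mod_cast h.2.le
    have h6 : (0:ℝ) ≤ n - N := by linarith
    have h7 : (n:ℝ) - N ≤ K := by linarith
    nlinarith
  · simp

lemma x3_bound {N K : ℕ} (hN : 1 ≤ N) (hK : 1 ≤ K) (n : ℕ) :
    (((n:ℝ) - 1) * bx N K (n - 1) - N * bx N K n) ^ 2 ≤
      (if n = N then (N:ℝ) ^ 2 else 0) + (if n = N + K then ((N:ℝ) + K) ^ 2 else 0) +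
        (K:ℝ) ^ 2 * bx N K n := by
  unfold bx
  by_cases h1 : n < N
  · rw [if_neg (by omega), if_neg (by omega), if_neg (by omega), if_neg (by omega)]; simp
  by_cases h2 : n = N
  · rw [if_neg (by omega), if_pos (by omega), if_pos h2, if_neg (by omega)]
    nlinarith [sq_nonneg (K:ℝ)]
  by_cases h3 : n < N + K
  · rw [if_pos (by omega), if_pos (by omega), if_neg (by omega), if_neg (by omega)]
    have h4 : (N:ℝ) + 1 ≤ n := by exact_mod_cast (by omega : N + 1 ≤ n)
    have h5 : (n:ℝ) ≤ N + K := by exact_mod_cast (by omega : n ≤ N + K)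
    have h6 : (0:ℝ) ≤ n - 1 - N := by linarith
    have h7 : (n:ℝ) - 1 - N ≤ K := by linarith
    nlinarith
  by_cases h4 : n = N + K
  · rw [if_pos (by omega), if_neg (by omega), if_neg (by omega), if_pos h4]
    have h5 : (n:ℝ) = N + K := by exact_mod_cast h4
    have h6 : (1:ℝ) ≤ n := by exact_mod_cast (by omega : 1 ≤ n)
    rw [← h5]
    nlinarith
  · rw [if_neg (by omega), if_neg (by omega), if_neg (by omega), if_neg (by omega)]; simp

lemma sum_ite_le (T : ℕ) (c : ℝ) (hc : 0 ≤ c) (P : ℕ → Prop) [DecidablePred P]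
    (hP : ∀ a b, P a → P b → a = b) : ∑ n ∈ Finset.range T, (if P n then c else 0) ≤ c := by
  rw [← Finset.sum_filter, Finset.sum_const, nsmul_eq_mul]
  have h1 : ((Finset.range T).filter P).card ≤ 1 := by
    rw [Finset.card_le_one]
    intro a ha b hb
    exact hP a b (Finset.mem_filter.mp ha).2 (Finset.mem_filter.mp hb).2
  have h2 : (((Finset.range T).filter P).card : ℝ) ≤ 1 := by exact_mod_cast h1
  nlinarith

lemma pb_sum {w σ : ℂ} (hw : ‖w‖ < 1) (hσ : ‖σ‖ = 1) {N K : ℕ} (hN : 1 ≤ N) (hK : 1 ≤ K) (T : ℕ) :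
    ∑ n ∈ Finset.range T, ‖pb w σ N K n‖ ^ 2 ≤ 15 * (N:ℝ) ^ 2 + 24 * (K:ℝ) ^ 3 := by
  have hpt : ∀ n ∈ Finset.range T, ‖pb w σ N K n‖ ^ 2 ≤
      3 * ((if n + 1 = N then (N:ℝ) ^ 2 else 0) + (if n + 1 = N + K then (N:ℝ) ^ 2 else 0) +
       (if n = N then (N:ℝ) ^ 2 else 0) + (if n = N + K then ((N:ℝ) + K) ^ 2 else 0)) +
        18 * (K:ℝ) ^ 2 * bx N K n := by
    intro n _
    have h0 := pb_norm hw hσ hN (K := K) n
    have h1 := x1_bound (N := N) hK n
    have h2 := x2_bound (N := N) (K := K) n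
    have h3 := x3_bound hN hK n
    set a := ((n:ℝ) + 1) * bx N K (n + 1) - N * bx N K n
    set b := ((n:ℝ) - N) * bx N K n
    set c := ((n:ℝ) - 1) * bx N K (n - 1) - N * bx N K n
    have h4 : ‖pb w σ N K n‖ ^ 2 ≤ (|a| + 2 * |b| + |c|) ^ 2 := pow_le_pow_left₀ (norm_nonneg _) h0 2
    have h5 : (|a| + 2 * |b| + |c|) ^ 2 ≤ 3 * (a ^ 2 + 4 * b ^ 2 + c ^ 2) := by
      rw [← sq_abs a, ← sq_abs b, ← sq_abs c]
      nlinarith [sq_nonneg (|a| - 2 * |b|), sq_nonneg (|a| - |c|), sq_nonneg (2 * |b| - |c|)]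
    linarith
  refine (Finset.sum_le_sum hpt).trans ?_
  simp only [Finset.sum_add_distrib, ← Finset.mul_sum]
  have s1 := sum_ite_le T ((N:ℝ) ^ 2) (by positivity) (fun n => n + 1 = N) (by omega)
  have s2 := sum_ite_le T ((N:ℝ) ^ 2) (by positivity) (fun n => n + 1 = N + K) (by omega)
  have s3 := sum_ite_le T ((N:ℝ) ^ 2) (by positivity) (fun n => n = N) (by omega)
  have s4 := sum_ite_le T (((N:ℝ) + K) ^ 2) (by positivity) (fun n => n = N + K) (by omega)
  have s5 := bx_sum N K T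
  have hK' : (1:ℝ) ≤ K := by exact_mod_cast hK
  have s6 : (K:ℝ) ^ 2 * ∑ n ∈ Finset.range T, bx N K n ≤ (K:ℝ) ^ 2 * K :=
    mul_le_mul_of_nonneg_left s5 (by positivity)
  have s7 : (K:ℝ) ^ 2 ≤ (K:ℝ) ^ 3 := by nlinarith [sq_nonneg (K:ℝ)]
  have s8 : ((N:ℝ) + K) ^ 2 ≤ 2 * N ^ 2 + 2 * K ^ 2 := by nlinarith [sq_nonneg ((N:ℝ) - K)]
  nlinarith

end Pool.Agent.helper22.Mob
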