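import Mathlib
import Pool.Agent.helper22.Mob.Packet
open Complex Metric Set Filter Topology
open scoped ComplexConjugate

namespace Pool.Agent.helper22.Mob

/-- The frequency centre. -/
noncomputable def ctr (w σ : ℂ) (N : ℕ) : ℝ := N * ‖1 + w * σ‖ ^ 2 / (1 - ‖w‖ ^ 2)

lemma ctr_nonneg {w : ℂ} (hw : ‖w‖ < 1) (σ : ℂ) (N : ℕ) : 0 ≤ ctr w σ N := by
  unfold ctr
  have : 0 < 1 - ‖w‖ ^ 2 := by nlinarith [norm_nonneg w]
  positivity

lemma pk_loc {w σ : ℂ} (hw : ‖w‖ < 1) (hσ : ‖σ‖ = 1) {N K : ℕ} (hN : 1 ≤ N) (hK : 1 ≤ K) (T : ℕ) :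
    ∑ m ∈ Finset.range T, ((m:ℝ) - ctr w σ N) ^ 2 * ‖coef (pk σ N K) w m‖ ^ 2 ≤
      (1 - ‖w‖ ^ 2)⁻¹ ^ 2 * (2 / (1 - ‖w‖) * (15 * (N:ℝ) ^ 2 + 24 * (K:ℝ) ^ 3)) := by
  have hp : 0 < 1 - ‖w‖ ^ 2 := by nlinarith [norm_nonneg w]
  have h1w : 0 < 1 - ‖w‖ := by linarith
  have h1 := hardy hw (pb w σ N K) (N + K + 1) T
  have h2 := pb_sum hw hσ hN hK (N + K + 1)
  have h3 : ∀ m ∈ Finset.range T, ((m:ℝ) - ctr w σ N) ^ 2 * ‖coef (pk σ N K) w m‖ ^ 2 =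
      (1 - ‖w‖ ^ 2)⁻¹ ^ 2 * ‖coef (fun y => ∑ n ∈ Finset.range (N + K + 1), pb w σ N K n * y ^ n)
        w m‖ ^ 2 := by
    intro m _
    rw [pk_commutator hw hN m, norm_mul]
    have e : (1 - w * conj w) * m - N * ((1 + w * σ) * conj (1 + w * σ)) =
        (((1 - ‖w‖ ^ 2) * m - N * ‖1 + w * σ‖ ^ 2 : ℝ) : ℂ) := by
      rw [Complex.mul_conj', Complex.mul_conj']
      push_cast
      ring
    rw [e, Complex.norm_real, Real.norm_eq_abs, mul_pow, sq_abs]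
    unfold ctr
    have e2 : (1 - ‖w‖ ^ 2) * m - N * ‖1 + w * σ‖ ^ 2 =
        (1 - ‖w‖ ^ 2) * (m - N * ‖1 + w * σ‖ ^ 2 / (1 - ‖w‖ ^ 2)) := by
      field_simp
    rw [e2]
    field_simp
  rw [Finset.sum_congr rfl h3, ← Finset.mul_sum]
  apply mul_le_mul_of_nonneg_left _ (by positivity)
  refine h1.trans ?_
  apply mul_le_mul_of_nonneg_left h2 (by positivity)

lemma pa_sq {σ : ℂ} (hσ : ‖σ‖ = 1) (N K n : ℕ) : ‖pa σ N K n‖ ^ 2 = bx N K n := by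
  unfold pa
  rw [norm_mul, norm_pow, hσ, one_pow, one_mul, Complex.norm_real]
  unfold bx
  split_ifs <;> simp

lemma pk_l2 {w σ : ℂ} (hw : ‖w‖ < 1) (hσ : ‖σ‖ = 1) (N K T : ℕ) :
    ∑ m ∈ Finset.range T, ‖coef (pk σ N K) w m‖ ^ 2 ≤ 2 / (1 - ‖w‖) * K := by
  have h1w : 0 < 1 - ‖w‖ := by linarith
  refine (hardy hw (pa σ N K) (N + K) T).trans ?_
  apply mul_le_mul_of_nonneg_left _ (by positivity)
  rw [Finset.sum_congr rfl (fun n _ => pa_sq hσ N K n)]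
  exact bx_sum N K (N + K)

/-- distance of natural numbers -/
def ds (m c : ℕ) : ℕ := (m - c) + (c - m)

lemma ds_real (m c : ℕ) : (ds m c : ℝ) = |(m:ℝ) - c| := by
  unfold ds
  rcases le_total m c with h | h
  · rw [Nat.sub_eq_zero_of_le h, zero_add, Nat.cast_sub h, abs_of_nonpos]
    · ring
    · have : (m:ℝ) ≤ c := by exact_mod_cast h
      linarith
  · rw [Nat.sub_eq_zero_of_le h, add_zero, Nat.cast_sub h, abs_of_nonneg]
    have : (c:ℝ) ≤ m := by exact_mod_cast h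
    linarith

lemma inv_sq_sum (T c X : ℕ) : ∑ m ∈ (Finset.range T).filter (fun m => X < ds m c),
    (((ds m c : ℝ)) ^ 2)⁻¹ ≤ 4 / (X + 1) := by
  have key : ∀ (s : Finset ℕ) (φ : ℕ → ℕ) (n : ℕ), Set.InjOn φ s → (∀ m ∈ s, X < φ m ∧ φ m < n) →
      ∑ m ∈ s, (((φ m : ℝ)) ^ 2)⁻¹ ≤ 2 / (X + 1) := by
    intro s φ n hinj hs
    rw [← Finset.sum_image (f := fun i : ℕ => ((i : ℝ) ^ 2)⁻¹) hinj]
    refine le_trans ?_ (sum_Ioo_inv_sq_le (α := ℝ) X n)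
    apply Finset.sum_le_sum_of_subset_of_nonneg
    · intro i hi
      rw [Finset.mem_image] at hi
      obtain ⟨m, hm, rfl⟩ := hi
      rw [Finset.mem_Ioo]
      exact hs m hm
    · intro i _ _; positivity
  rw [← Finset.sum_filter_add_sum_filter_not _ (fun m => c ≤ m)]
  have h1 : ∑ m ∈ ((Finset.range T).filter (fun m => X < ds m c)).filter (fun m => c ≤ m),
      (((ds m c : ℝ)) ^ 2)⁻¹ ≤ 2 / (X + 1) := by
    apply key _ (fun m => ds m c) (T + c + 1)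
    · intro a ha b hb hab
      simp only [Finset.coe_filter, Set.mem_ofPred_eq, Finset.mem_filter, Finset.mem_range] at ha hb
      unfold ds at hab
      simp only at hab
      omega
    · intro m hm
      rw [Finset.mem_filter, Finset.mem_filter, Finset.mem_range] at hm
      unfold ds at hm ⊢
      omega
  have h2 : ∑ m ∈ ((Finset.range T).filter (fun m => X < ds m c)).filter (fun m => ¬ c ≤ m),
      (((ds m c : ℝ)) ^ 2)⁻¹ ≤ 2 / (X + 1) := by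
    apply key _ (fun m => ds m c) (T + c + 1)
    · intro a ha b hb hab
      simp only [Finset.coe_filter, Set.mem_ofPred_eq, Finset.mem_filter, Finset.mem_range] at ha hb
      unfold ds at hab
      simp only at hab
      omega
    · intro m hm
      rw [Finset.mem_filter, Finset.mem_filter, Finset.mem_range] at hm
      unfold ds at hm ⊢
      omega
  calc _ ≤ 2 / ((X:ℝ) + 1) + 2 / (X + 1) := add_le_add h1 h2
    _ = 4 / (X + 1) := by ring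

/-- Abstract tail estimate. -/
lemma tail_abs (x : ℕ → ℝ) (T c X : ℕ) {V : ℝ}
    (hV : ∑ m ∈ Finset.range T, ((m:ℝ) - c) ^ 2 * x m ^ 2 ≤ V) :
    ∑ m ∈ (Finset.range T).filter (fun m => X < ds m c), x m ≤ Real.sqrt (4 / (X + 1) * V) := by
  apply Real.le_sqrt_of_sq_le
  have hV0 : 0 ≤ V := le_trans (Finset.sum_nonneg (fun m _ => by positivity)) hV
  have h1 : ∑ m ∈ (Finset.range T).filter (fun m => X < ds m c), x m =
      ∑ m ∈ (Finset.range T).filter (fun m => X < ds m c), ((ds m c : ℝ))⁻¹ * ((ds m c : ℝ) * x m) := by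
    apply Finset.sum_congr rfl
    intro m hm
    rw [Finset.mem_filter] at hm
    have : (0:ℝ) < ds m c := by exact_mod_cast (by omega : 0 < ds m c)
    field_simp
  rw [h1]
  refine (Finset.sum_mul_sq_le_sq_mul_sq _ _ _).trans ?_
  apply mul_le_mul
  · simp only [inv_pow]
    exact inv_sq_sum T c X
  · refine le_trans ?_ hV
    have h2 : ∑ m ∈ (Finset.range T).filter (fun m => X < ds m c), ((ds m c : ℝ) * x m) ^ 2 =
        ∑ m ∈ (Finset.range T).filter (fun m => X < ds m c), ((m:ℝ) - c) ^ 2 * x m ^ 2 := by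
      apply Finset.sum_congr rfl
      intro m _
      rw [mul_pow, ds_real, sq_abs]
    rw [h2]
    apply Finset.sum_le_sum_of_subset_of_nonneg (Finset.filter_subset _ _)
    intro m _ _
    positivity
  · positivity
  · positivity

/-- The energy bound constant. -/
noncomputable def En (w : ℂ) (N K : ℕ) : ℝ :=
  2 * ((1 - ‖w‖ ^ 2)⁻¹ ^ 2 * (2 / (1 - ‖w‖) * (15 * (N:ℝ) ^ 2 + 24 * (K:ℝ) ^ 3))) +
    2 * (2 / (1 - ‖w‖) * K)

lemma pk_tail {w σ : ℂ} (hw : ‖w‖ < 1) (hσ : ‖σ‖ = 1) {N K : ℕ} (hN : 1 ≤ N) (hK : 1 ≤ K)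
    (T X : ℕ) :
    ∑ m ∈ (Finset.range T).filter (fun m => X < ds m ⌊ctr w σ N⌋₊), ‖coef (pk σ N K) w m‖ ≤
      Real.sqrt (4 / (X + 1) * En w N K) := by
  apply tail_abs
  have h1 := pk_loc hw hσ hN hK T
  have h2 := pk_l2 hw hσ N K T
  unfold En
  have h3 : ∑ m ∈ Finset.range T, ((m:ℝ) - ⌊ctr w σ N⌋₊) ^ 2 * ‖coef (pk σ N K) w m‖ ^ 2 ≤
      ∑ m ∈ Finset.range T, (2 * (((m:ℝ) - ctr w σ N) ^ 2 * ‖coef (pk σ N K) w m‖ ^ 2) +
        2 * ‖coef (pk σ N K) w m‖ ^ 2) := by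
    apply Finset.sum_le_sum
    intro m _
    have hf1 := Nat.floor_le (ctr_nonneg hw σ N)
    have hf2 := (Nat.lt_floor_add_one (ctr w σ N)).le
    have h4 : ((m:ℝ) - ⌊ctr w σ N⌋₊) ^ 2 ≤ 2 * ((m:ℝ) - ctr w σ N) ^ 2 + 2 := by
      nlinarith [sq_nonneg (((m:ℝ) - ctr w σ N) - (ctr w σ N - ⌊ctr w σ N⌋₊))]
    have h5 := mul_le_mul_of_nonneg_right h4 (sq_nonneg ‖coef (pk σ N K) w m‖)
    linarith
  refine h3.trans ?_
  rw [Finset.sum_add_distrib, ← Finset.mul_sum, ← Finset.mul_sum]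
  linarith

lemma pk_partial {w σ : ℂ} (hw : ‖w‖ < 1) (hσ : ‖σ‖ = 1) {N K : ℕ} (hN : 1 ≤ N) (hK : 1 ≤ K) :
    ∃ B : ℝ, ∀ T, ∑ m ∈ Finset.range T, ‖coef (pk σ N K) w m‖ ≤ B := by
  refine ⟨‖coef (pk σ N K) w ⌊ctr w σ N⌋₊‖ + Real.sqrt (4 / ((0:ℕ) + 1) * En w N K), fun T => ?_⟩
  have h1 := pk_tail hw hσ hN hK T 0
  rw [← Finset.sum_filter_add_sum_filter_not (Finset.range T) (fun m => 0 < ds m ⌊ctr w σ N⌋₊),
    add_comm]
  apply add_le_add _ h1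
  have h2 : (Finset.range T).filter (fun m => ¬ 0 < ds m ⌊ctr w σ N⌋₊) ⊆ {⌊ctr w σ N⌋₊} := by
    intro m hm
    rw [Finset.mem_filter] at hm
    rw [Finset.mem_singleton]
    have := hm.2
    unfold ds at this
    omega
  refine (Finset.sum_le_sum_of_subset_of_nonneg h2 (fun _ _ _ => norm_nonneg _)).trans ?_
  rw [Finset.sum_singleton]

lemma pk_summable {w σ : ℂ} (hw : ‖w‖ < 1) (hσ : ‖σ‖ = 1) {N K : ℕ} (hN : 1 ≤ N) (hK : 1 ≤ K) :
    Summable (fun m => ‖coef (pk σ N K) w m‖) := by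
  obtain ⟨B, hB⟩ := pk_partial hw hσ hN hK
  exact summable_of_sum_range_le (fun _ => norm_nonneg _) hB

end Pool.Agent.helper22.Mob
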