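import Mathlib
import Pool.Agent.helper22.Mob.Local
import Pool.Agent.helper22.Mob.Digits
open Complex Metric Set Filter Topology
open scoped ComplexConjugate

namespace Pool.Agent.helper22.Mob

/-- The positions of the packets. -/
noncomputable def sg (b : ℕ → ℝ) (n Q j : ℕ) : ℂ := Complex.exp (((yv b n j / Q : ℝ) : ℂ) * I)

lemma sg_norm (b : ℕ → ℝ) (n Q j : ℕ) : ‖sg b n Q j‖ = 1 := Complex.norm_exp_ofReal_mul_I _

/-- The block. -/
noncomputable def gg (b : ℕ → ℝ) (n Q K : ℕ) (y : ℂ) : ℂ :=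
  ∑ j ∈ Finset.range (2 ^ n), pk (sg b n Q j) (K * (Q + j)) K y

/-- Its coefficients. -/
noncomputable def ga (b : ℕ → ℝ) (n Q K i : ℕ) : ℂ :=
  ∑ j ∈ Finset.range (2 ^ n), pa (sg b n Q j) (K * (Q + j)) K i

lemma pk_extend (σ : ℂ) (N K M : ℕ) (hM : N + K ≤ M) (y : ℂ) :
    pk σ N K y = ∑ i ∈ Finset.range M, pa σ N K i * y ^ i := by
  unfold pk
  apply Finset.sum_subset
  · intro i hi; rw [Finset.mem_range] at hi ⊢; omega
  · intro i _ hi
    rw [Finset.mem_range, not_lt] at hi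
    unfold pa bx
    rw [if_neg (by omega)]
    simp

lemma gg_eq (b : ℕ → ℝ) (n Q K : ℕ) (y : ℂ) :
    gg b n Q K y = ∑ i ∈ Finset.range (K * (Q + 2 ^ n)), ga b n Q K i * y ^ i := by
  unfold gg ga
  have h1 : ∀ j ∈ Finset.range (2 ^ n), pk (sg b n Q j) (K * (Q + j)) K y =
      ∑ i ∈ Finset.range (K * (Q + 2 ^ n)), pa (sg b n Q j) (K * (Q + j)) K i * y ^ i := by
    intro j hj
    apply pk_extend
    rw [Finset.mem_range] at hj
    have : K * (Q + j) + K = K * (Q + j + 1) := by ring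
    rw [this]
    exact Nat.mul_le_mul_left K (by omega)
  rw [Finset.sum_congr rfl h1, Finset.sum_comm]
  apply Finset.sum_congr rfl
  intro i _
  rw [Finset.sum_mul]

lemma bx_unique {Q K i j1 j2 : ℕ} (h1 : bx (K * (Q + j1)) K i ≠ 0) (h2 : bx (K * (Q + j2)) K i ≠ 0) :
    j1 = j2 := by
  unfold bx at h1 h2
  have h3 : K * (Q + j1) ≤ i ∧ i < K * (Q + j1) + K := by
    by_contra h; rw [if_neg h] at h1; exact h1 rfl
  have h4 : K * (Q + j2) ≤ i ∧ i < K * (Q + j2) + K := by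
    by_contra h; rw [if_neg h] at h2; exact h2 rfl
  by_contra hne
  rcases Nat.lt_or_gt_of_ne hne with h | h
  · have : K * (Q + j1 + 1) ≤ K * (Q + j2) := Nat.mul_le_mul_left K (by omega)
    have e : K * (Q + j1 + 1) = K * (Q + j1) + K := by ring
    omega
  · have : K * (Q + j2 + 1) ≤ K * (Q + j1) := Nat.mul_le_mul_left K (by omega)
    have e : K * (Q + j2 + 1) = K * (Q + j2) + K := by ring
    omega

lemma ga_norm (b : ℕ → ℝ) (n Q K i : ℕ) :
    ‖ga b n Q K i‖ = ∑ j ∈ Finset.range (2 ^ n), bx (K * (Q + j)) K i ∧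
    ‖ga b n Q K i‖ ^ 2 = ∑ j ∈ Finset.range (2 ^ n), bx (K * (Q + j)) K i := by
  have hpa : ∀ j, ‖pa (sg b n Q j) (K * (Q + j)) K i‖ = bx (K * (Q + j)) K i := by
    intro j
    unfold pa
    rw [norm_mul, norm_pow, sg_norm, one_pow, one_mul, Complex.norm_real, Real.norm_eq_abs,
      abs_of_nonneg (bx_nonneg _ _ _)]
  by_cases hex : ∃ j ∈ Finset.range (2 ^ n), bx (K * (Q + j)) K i ≠ 0
  · obtain ⟨j0, hj0, hne⟩ := hex
    have hz : ∀ j ∈ Finset.range (2 ^ n), j ≠ j0 → bx (K * (Q + j)) K i = 0 := by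
      intro j _ hj
      by_contra h
      exact hj (bx_unique h hne)
    have h1 : ga b n Q K i = pa (sg b n Q j0) (K * (Q + j0)) K i := by
      unfold ga
      apply Finset.sum_eq_single j0
      · intro j hj hjj
        rw [← norm_eq_zero, hpa, hz j hj hjj]
      · intro h; exact absurd hj0 h
    have h2 : ∑ j ∈ Finset.range (2 ^ n), bx (K * (Q + j)) K i = bx (K * (Q + j0)) K i := by
      apply Finset.sum_eq_single j0
      · intro j hj hjj; exact hz j hj hjj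
      · intro h; exact absurd hj0 h
    rw [h1, hpa, h2]
    refine ⟨rfl, ?_⟩
    unfold bx
    split_ifs <;> norm_num
  · push Not at hex
    have h1 : ga b n Q K i = 0 := by
      unfold ga
      apply Finset.sum_eq_zero
      intro j hj
      rw [← norm_eq_zero, hpa, hex j hj]
    have h2 : ∑ j ∈ Finset.range (2 ^ n), bx (K * (Q + j)) K i = 0 := Finset.sum_eq_zero hex
    rw [h1, h2]
    simp

lemma bx_sum_eq {N K M : ℕ} (hM : N + K ≤ M) : ∑ i ∈ Finset.range M, bx N K i = K := by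
  have h1 : ∑ n ∈ Finset.range M, bx N K n =
      ((Finset.range M).filter (fun n => N ≤ n ∧ n < N + K)).card := by
    unfold bx
    rw [Finset.sum_ite]
    simp
  rw [h1]
  have h2 : (Finset.range M).filter (fun n => N ≤ n ∧ n < N + K) = Finset.Ico N (N + K) := by
    ext i
    rw [Finset.mem_filter, Finset.mem_range, Finset.mem_Ico]
    constructor
    · exact fun h => h.2
    · intro h; exact ⟨by omega, h⟩
  rw [h2, Nat.card_Ico, Nat.add_sub_cancel_left]

lemma ga_sum (b : ℕ → ℝ) (n Q K : ℕ) :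
    ∑ i ∈ Finset.range (K * (Q + 2 ^ n)), ‖ga b n Q K i‖ = 2 ^ n * K ∧
    ∑ i ∈ Finset.range (K * (Q + 2 ^ n)), ‖ga b n Q K i‖ ^ 2 = 2 ^ n * K := by
  have h0 : ∑ i ∈ Finset.range (K * (Q + 2 ^ n)), ∑ j ∈ Finset.range (2 ^ n),
      bx (K * (Q + j)) K i = 2 ^ n * K := by
    rw [Finset.sum_comm]
    have : ∀ j ∈ Finset.range (2 ^ n), ∑ i ∈ Finset.range (K * (Q + 2 ^ n)),
        bx (K * (Q + j)) K i = K := by
      intro j hj
      apply bx_sum_eq
      rw [Finset.mem_range] at hj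
      have : K * (Q + j) + K = K * (Q + j + 1) := by ring
      rw [this]
      exact Nat.mul_le_mul_left K (by omega)
    rw [Finset.sum_congr rfl this, Finset.sum_const, Finset.card_range, nsmul_eq_mul]
    push_cast
    ring
  constructor
  · rw [Finset.sum_congr rfl (fun i _ => (ga_norm b n Q K i).1)]; exact h0
  · rw [Finset.sum_congr rfl (fun i _ => (ga_norm b n Q K i).2)]; exact h0

lemma gg_coef_zero (b : ℕ → ℝ) (n Q K i : ℕ) (hi : i < K * (Q + 2 ^ n)) :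
    coef (gg b n Q K) 0 i = ga b n Q K i := by
  have h := coef_unique (g := gg b n Q K) (w := 0)
    (a := fun i => if i ∈ Finset.range (K * (Q + 2 ^ n)) then ga b n Q K i else 0) (ρ := 1) one_pos
    (fun z _ => by
      have hs : shift 0 z = z := by unfold shift; simp
      rw [hs, gg_eq]
      have h2 : ∑ i ∈ Finset.range (K * (Q + 2 ^ n)), ga b n Q K i * z ^ i =
          ∑ i ∈ Finset.range (K * (Q + 2 ^ n)),
            (if i ∈ Finset.range (K * (Q + 2 ^ n)) then ga b n Q K i else 0) * z ^ i := by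
        apply Finset.sum_congr rfl
        intro i hi
        rw [if_pos hi]
      rw [h2]
      apply hasSum_sum_of_ne_finset_zero
      intro i hi
      rw [if_neg hi, zero_mul]) i
  rw [h, if_pos (Finset.mem_range.mpr hi)]

lemma gg_diff (b : ℕ → ℝ) (n Q K : ℕ) : DifferentiableOn ℂ (gg b n Q K) (ball 0 1) := by
  unfold gg
  apply DifferentiableOn.fun_sum
  intro j _
  exact pk_diff _ _ _

lemma coef_sum {w : ℂ} (hw : ‖w‖ < 1) (s : Finset ℕ) (f : ℕ → ℂ → ℂ)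
    (hf : ∀ j ∈ s, DifferentiableOn ℂ (f j) (ball 0 1)) (m : ℕ) :
    coef (fun z => ∑ j ∈ s, f j z) w m = ∑ j ∈ s, coef (f j) w m := by
  apply coef_unique (ρ := 1) one_pos
  intro z hz
  have := hasSum_sum (fun j hj => hasSum_coef hw (hf j hj) hz)
  simpa [Finset.sum_mul] using this

lemma gg_coef {w : ℂ} (hw : ‖w‖ < 1) (b : ℕ → ℝ) (n Q K m : ℕ) :
    coef (gg b n Q K) w m = ∑ j ∈ Finset.range (2 ^ n), coef (pk (sg b n Q j) (K * (Q + j)) K) w m :=
  coef_sum hw _ _ (fun j _ => pk_diff _ _ _) m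

/-- Weights. -/
noncomputable def xw (w : ℂ) (b : ℕ → ℝ) (k : ℕ) : ℝ := 2 ^ k * (‖1 + w‖ ^ 2 - 2 * w.im * b k)

lemma re_expand (w : ℂ) {θ : ℝ} (hθ : |θ| ≤ 1) (hw : ‖w‖ ≤ 1) :
    |‖1 + w * Complex.exp (θ * I)‖ ^ 2 - (‖1 + w‖ ^ 2 - 2 * w.im * θ)| ≤ 2 * θ ^ 2 := by
  have hn : ‖Complex.exp ((θ:ℂ) * I)‖ = 1 := Complex.norm_exp_ofReal_mul_I _
  have hsq : ∀ u : ℂ, ‖1 + u‖ ^ 2 = 1 + ‖u‖ ^ 2 + 2 * u.re := by
    intro u
    rw [Complex.sq_norm, Complex.sq_norm, Complex.normSq_apply, Complex.normSq_apply]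
    simp only [Complex.add_re, Complex.add_im, Complex.one_re, Complex.one_im]
    ring
  have h1 : ‖w * Complex.exp (θ * I)‖ = ‖w‖ := by rw [norm_mul, hn, mul_one]
  rw [hsq, hsq, h1]
  have h2 := Complex.norm_exp_sub_one_sub_id_le (x := (θ:ℂ) * I)
    (by rw [norm_mul, Complex.norm_I, mul_one, Complex.norm_real]; exact hθ)
  have h3 : (w * Complex.exp (θ * I)).re = w.re - w.im * θ +
      (w * (Complex.exp (θ * I) - 1 - θ * I)).re := by
    simp only [Complex.mul_re, Complex.sub_re, Complex.sub_im, Complex.one_re, Complex.one_im,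
      Complex.ofReal_re, Complex.ofReal_im, Complex.I_re, Complex.I_im, Complex.mul_im]
    ring
  have h4 : |(w * (Complex.exp (θ * I) - 1 - θ * I)).re| ≤ θ ^ 2 := by
    refine (Complex.abs_re_le_norm _).trans ?_
    rw [norm_mul]
    have h5 : ‖Complex.exp ((θ:ℂ) * I) - 1 - θ * I‖ ≤ θ ^ 2 := by
      refine h2.trans (le_of_eq ?_)
      rw [norm_mul, Complex.norm_I, mul_one, Complex.norm_real, Real.norm_eq_abs, sq_abs]
    calc ‖w‖ * ‖Complex.exp ((θ:ℂ) * I) - 1 - θ * I‖ ≤ 1 * θ ^ 2 :=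
          mul_le_mul hw h5 (norm_nonneg _) zero_le_one
      _ = θ ^ 2 := one_mul _
  rw [h3]
  have h6 : 1 + ‖w‖ ^ 2 + 2 * (w.re - w.im * θ + (w * (Complex.exp (θ * I) - 1 - θ * I)).re) -
      (1 + ‖w‖ ^ 2 + 2 * w.re - 2 * w.im * θ) = 2 * (w * (Complex.exp (θ * I) - 1 - θ * I)).re := by
    ring
  rw [h6, abs_mul, abs_two]
  linarith

lemma weights_sum (w : ℂ) (b : ℕ → ℝ) {n j : ℕ} (hj : j < 2 ^ n) :
    ∑ k ∈ Finset.range n, xw w b k * dg j k = j * ‖1 + w‖ ^ 2 - 2 * w.im * yv b n j := by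
  rw [← bits_real hj]
  unfold yv xw
  rw [Finset.sum_mul, Finset.mul_sum, ← Finset.sum_sub_distrib]
  apply Finset.sum_congr rfl
  intro k _
  ring

/-- The centre associated with the high digits. -/
noncomputable def ht (w : ℂ) (b : ℕ → ℝ) (n Q K k0 t : ℕ) : ℝ :=
  K * (Q * ‖1 + w‖ ^ 2 + hi (xw w b) k0 n t) / (1 - ‖w‖ ^ 2)

lemma center {w : ℂ} (hw : ‖w‖ < 1) (b : ℕ → ℝ) {n Q K k0 : ℕ} (hk0 : k0 < n) (hQ : 1 ≤ Q)
    {Δ Y : ℝ} (hΔ : 0 ≤ Δ) (hx : ∀ k ≤ k0, |‖1 + w‖ ^ 2 - 2 * w.im * b k| ≤ 2 * (((k0:ℝ) - k + 1) * Δ))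
    (hY : ∑ k ∈ Finset.range n, |b k| * 2 ^ k ≤ Y) (hQY : 4 * Y ^ 2 + 2 * 2 ^ n * Y ≤ Q)
    (hQn : 2 ^ n ≤ Q) (hQ' : Y ≤ Q) {j : ℕ} (hj : j < 2 ^ n) :
    |ctr w (sg b n Q j) (K * (Q + j)) - ht w b n Q K k0 (j / 2 ^ (k0 + 1))| ≤
      K / (1 - ‖w‖ ^ 2) * (1 + 8 * Δ * 2 ^ k0) := by
  have hp : 0 < 1 - ‖w‖ ^ 2 := by nlinarith [norm_nonneg w]
  have hQpos : (0:ℝ) < Q := by exact_mod_cast hQ
  have hy := (yv_bound b n j).trans hY
  have hY0 : 0 ≤ Y := (abs_nonneg _).trans hy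
  set θ : ℝ := yv b n j / Q with hθ
  have hθY : |θ| ≤ Y / Q := by
    rw [hθ, abs_div, abs_of_pos hQpos]
    gcongr
  have hθ1 : |θ| ≤ 1 := hθY.trans (by rw [div_le_one hQpos]; exact hQ')
  have h1 := re_expand w hθ1 hw.le
  have h2 := split_digits (xw w b) hk0 j
  have h3 := low_bound (x := xw w b) (k0 := k0) (D := 2 * Δ) (by positivity) (by
    intro k hk
    unfold xw
    rw [abs_mul, abs_of_pos (by positivity : (0:ℝ) < 2 ^ k)]
    apply mul_le_mul_of_nonneg_left _ (by positivity)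
    have := hx k hk
    linarith)
  rw [weights_sum w b hj] at h2
  unfold ctr ht
  have hsg : sg b n Q j = Complex.exp ((θ:ℂ) * I) := rfl
  rw [hsg]
  set E := ‖1 + w * Complex.exp ((θ:ℂ) * I)‖ ^ 2 with hE
  set A := ‖1 + w‖ ^ 2 with hA
  set H := hi (xw w b) k0 n (j / 2 ^ (k0 + 1)) with hH
  have hjle : (j:ℝ) ≤ 2 ^ n := by exact_mod_cast hj.le
  have hj0 : (0:ℝ) ≤ j := Nat.cast_nonneg _
  have hQn' : (2:ℝ) ^ n ≤ Q := by exact_mod_cast hQn
  have him : |w.im| ≤ 1 := (Complex.abs_im_le_norm w).trans hw.le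
  have hK0 : (0:ℝ) ≤ K := Nat.cast_nonneg _
  have hyθ : yv b n j = Q * θ := by rw [hθ]; field_simp
  rw [hyθ] at h2
  -- numerator estimate
  have hnum : |((Q:ℝ) + j) * E - (Q * A + H)| ≤ 1 + 8 * Δ * 2 ^ k0 := by
    have e : ((Q:ℝ) + j) * E - (Q * A + H) = ((Q:ℝ) + j) * (E - (A - 2 * w.im * θ)) +
        (j * A - 2 * w.im * (Q * θ) - H) - 2 * (w.im * (j * θ)) := by ring
    rw [e]
    have t1 : |((Q:ℝ) + j) * (E - (A - 2 * w.im * θ))| ≤ 2 * Q * (2 * (Y / Q) ^ 2) := by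
      rw [abs_mul, abs_of_nonneg (by positivity)]
      apply mul_le_mul
      · linarith
      · refine h1.trans ?_
        rw [← sq_abs θ]
        have := pow_le_pow_left₀ (abs_nonneg θ) hθY 2
        linarith
      · exact abs_nonneg _
      · positivity
    have t2 : |2 * (w.im * (j * θ))| ≤ 2 * (1 * (2 ^ n * (Y / Q))) := by
      rw [abs_mul, abs_mul, abs_mul, abs_two, abs_of_nonneg hj0]
      gcongr
    have t3 : |(j * A - 2 * w.im * (Q * θ) - H)| ≤ 4 * 2 ^ k0 * (2 * Δ) := h2.trans h3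
    have t4 : 2 * Q * (2 * (Y / Q) ^ 2) + 2 * (1 * (2 ^ n * (Y / Q))) ≤ 1 := by
      have : 2 * Q * (2 * (Y / Q) ^ 2) + 2 * (1 * (2 ^ n * (Y / Q))) =
          (4 * Y ^ 2 + 2 * 2 ^ n * Y) / Q := by field_simp; ring
      rw [this, div_le_one hQpos]
      exact hQY
    have t5 := abs_sub (((Q:ℝ) + j) * (E - (A - 2 * w.im * θ)) +
        (j * A - 2 * w.im * (Q * θ) - H)) (2 * (w.im * (j * θ)))
    have t6 := abs_add_le (((Q:ℝ) + j) * (E - (A - 2 * w.im * θ))) (j * A - 2 * w.im * (Q * θ) - H)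
    linarith
  have e2 : ((K * (Q + j) : ℕ) : ℝ) * E / (1 - ‖w‖ ^ 2) - K * (Q * A + H) / (1 - ‖w‖ ^ 2) =
      K / (1 - ‖w‖ ^ 2) * (((Q:ℝ) + j) * E - (Q * A + H)) := by
    push_cast
    ring
  rw [e2, abs_mul, abs_of_nonneg (by positivity)]
  exact mul_le_mul_of_nonneg_left hnum (by positivity)

lemma En_mono {w : ℂ} (hw : ‖w‖ < 1) {N N' K : ℕ} (h : N ≤ N') : En w N K ≤ En w N' K := by
  unfold En
  have h1w : 0 < 1 - ‖w‖ := by linarith
  have hN : (N:ℝ) ≤ N' := by exact_mod_cast h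
  gcongr

/-- The main estimate. -/
lemma main_est {w : ℂ} (hw : ‖w‖ < 1) (b : ℕ → ℝ) {n Q K k0 X : ℕ} (hk0 : k0 < n) (hQ : 1 ≤ Q)
    (hK : 1 ≤ K)
    {Δ Y : ℝ} (hΔ : 0 ≤ Δ) (hx : ∀ k ≤ k0, |‖1 + w‖ ^ 2 - 2 * w.im * b k| ≤ 2 * (((k0:ℝ) - k + 1) * Δ))
    (hY : ∑ k ∈ Finset.range n, |b k| * 2 ^ k ≤ Y) (hQY : 4 * Y ^ 2 + 2 * 2 ^ n * Y ≤ Q)
    (hQn : 2 ^ n ≤ Q) (hQ' : Y ≤ Q) (T : ℕ) :
    ∑ m ∈ Finset.range T, ‖coef (gg b n Q K) w m‖ ≤
      Real.sqrt (2 ^ (n - (k0 + 1)) * (2 * (X + 1 + K / (1 - ‖w‖ ^ 2) * (1 + 8 * Δ * 2 ^ k0)) + 1) *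
        (2 / (1 - ‖w‖) * (2 ^ n * K))) +
      2 ^ n * Real.sqrt (4 / (X + 1) * En w (2 * K * Q) K) := by
  classical
  have hp : 0 < 1 - ‖w‖ ^ 2 := by nlinarith [norm_nonneg w]
  have h1w : 0 < 1 - ‖w‖ := by linarith
  set ρ : ℝ := X + 1 + K / (1 - ‖w‖ ^ 2) * (1 + 8 * Δ * 2 ^ k0) with hρ
  have hρ0 : 0 ≤ ρ := by positivity
  set cc : ℕ → ℕ := fun j => ⌊ctr w (sg b n Q j) (K * (Q + j))⌋₊ with hcc
  let good : ℕ → Prop := fun m => ∃ j ∈ Finset.range (2 ^ n), ds m (cc j) ≤ X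
  rw [← Finset.sum_filter_add_sum_filter_not (Finset.range T) good]
  have hcoef := gg_coef hw b n Q K
  apply add_le_add
  · -- good part
    apply Real.le_sqrt_of_sq_le
    have hcs := Finset.sum_mul_sq_le_sq_mul_sq ((Finset.range T).filter good) (fun _ => (1:ℝ))
      (fun m => ‖coef (gg b n Q K) w m‖)
    simp only [one_mul, one_pow, Finset.sum_const, nsmul_eq_mul, mul_one] at hcs
    refine hcs.trans ?_
    apply mul_le_mul
    · -- cardinality
      have hsub : (Finset.range T).filter good ⊆ (Finset.range (2 ^ (n - (k0 + 1)))).biUnion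
          (fun t => (Finset.range T).filter (fun m : ℕ => |(m:ℝ) - ht w b n Q K k0 t| ≤ ρ)) := by
        intro m hm
        rw [Finset.mem_filter] at hm
        obtain ⟨hmT, j, hj, hd⟩ := hm
        rw [Finset.mem_range] at hj
        rw [Finset.mem_biUnion]
        refine ⟨j / 2 ^ (k0 + 1), Finset.mem_range.mpr (t_lt hk0 hj), ?_⟩
        rw [Finset.mem_filter]
        refine ⟨hmT, ?_⟩
        have hc := center hw b (K := K) hk0 hQ hΔ hx hY hQY hQn hQ' hj
        have hf1 := Nat.floor_le (ctr_nonneg hw (sg b n Q j) (K * (Q + j)))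
        have hf2 := (Nat.lt_floor_add_one (ctr w (sg b n Q j) (K * (Q + j)))).le
        have hd' : |(m:ℝ) - cc j| ≤ X := by
          rw [← ds_real]; exact_mod_cast hd
        have hfl : |(cc j : ℝ) - ctr w (sg b n Q j) (K * (Q + j))| ≤ 1 := by
          rw [abs_le]
          constructor
          · show (-1:ℝ) ≤ (⌊ctr w (sg b n Q j) (K * (Q + j))⌋₊ : ℝ) - _
            linarith
          · show (⌊ctr w (sg b n Q j) (K * (Q + j))⌋₊ : ℝ) - _ ≤ 1
            linarith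
        have e : (m:ℝ) - ht w b n Q K k0 (j / 2 ^ (k0 + 1)) = ((m:ℝ) - cc j) +
            ((cc j : ℝ) - ctr w (sg b n Q j) (K * (Q + j))) +
            (ctr w (sg b n Q j) (K * (Q + j)) - ht w b n Q K k0 (j / 2 ^ (k0 + 1))) := by ring
        rw [e]
        have t1 := abs_add_le (((m:ℝ) - cc j) + ((cc j : ℝ) - ctr w (sg b n Q j) (K * (Q + j))))
          (ctr w (sg b n Q j) (K * (Q + j)) - ht w b n Q K k0 (j / 2 ^ (k0 + 1)))
        have t2 := abs_add_le ((m:ℝ) - cc j) ((cc j : ℝ) - ctr w (sg b n Q j) (K * (Q + j)))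
        rw [hρ]
        linarith
      have h1 := Finset.card_le_card hsub
      have h2 : ((Finset.range (2 ^ (n - (k0 + 1)))).biUnion
          (fun t => (Finset.range T).filter (fun m : ℕ => |(m:ℝ) - ht w b n Q K k0 t| ≤ ρ))).card ≤
          ∑ t ∈ Finset.range (2 ^ (n - (k0 + 1))),
            ((Finset.range T).filter (fun m : ℕ => |(m:ℝ) - ht w b n Q K k0 t| ≤ ρ)).card :=
        Finset.card_biUnion_le
      have h3 : (((Finset.range T).filter good).card : ℝ) ≤ ∑ t ∈ Finset.range (2 ^ (n - (k0 + 1))),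
            (((Finset.range T).filter (fun m : ℕ => |(m:ℝ) - ht w b n Q K k0 t| ≤ ρ)).card : ℝ) := by
        exact_mod_cast h1.trans h2
      refine h3.trans ?_
      have h4 : ∀ t ∈ Finset.range (2 ^ (n - (k0 + 1))),
            (((Finset.range T).filter (fun m : ℕ => |(m:ℝ) - ht w b n Q K k0 t| ≤ ρ)).card : ℝ) ≤
            2 * ρ + 1 := fun t _ => card_interval T _ ρ hρ0
      refine (Finset.sum_le_sum h4).trans (le_of_eq ?_)
      rw [Finset.sum_const, Finset.card_range, nsmul_eq_mul]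
      push_cast
      ring
    · -- energy
      have h1 : ∑ m ∈ (Finset.range T).filter good, ‖coef (gg b n Q K) w m‖ ^ 2 ≤
          ∑ m ∈ Finset.range T, ‖coef (gg b n Q K) w m‖ ^ 2 :=
        Finset.sum_le_sum_of_subset_of_nonneg (Finset.filter_subset _ _) (fun _ _ _ => by positivity)
      refine h1.trans ?_
      have h2 := hardy hw (ga b n Q K) (K * (Q + 2 ^ n)) T
      rw [(ga_sum b n Q K).2] at h2
      have e : gg b n Q K = (fun y => ∑ i ∈ Finset.range (K * (Q + 2 ^ n)), ga b n Q K i * y ^ i) := by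
        ext y; exact gg_eq b n Q K y
      rw [e]
      exact h2
    · positivity
    · positivity
  · -- bad part
    have h1 : ∑ m ∈ (Finset.range T).filter (fun m => ¬ good m), ‖coef (gg b n Q K) w m‖ ≤
        ∑ m ∈ (Finset.range T).filter (fun m => ¬ good m), ∑ j ∈ Finset.range (2 ^ n),
          ‖coef (pk (sg b n Q j) (K * (Q + j)) K) w m‖ := by
      apply Finset.sum_le_sum
      intro m _
      rw [hcoef]
      exact norm_sum_le _ _
    refine h1.trans ?_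
    rw [Finset.sum_comm]
    have h2 : ∀ j ∈ Finset.range (2 ^ n), ∑ m ∈ (Finset.range T).filter (fun m => ¬ good m),
          ‖coef (pk (sg b n Q j) (K * (Q + j)) K) w m‖ ≤
          Real.sqrt (4 / (X + 1) * En w (2 * K * Q) K) := by
      intro j hj
      have hN : 1 ≤ K * (Q + j) := Nat.mul_pos hK (by omega)
      have h3 := pk_tail hw (sg_norm b n Q j) hN hK T X
      have h4 : ∑ m ∈ (Finset.range T).filter (fun m => ¬ good m),
          ‖coef (pk (sg b n Q j) (K * (Q + j)) K) w m‖ ≤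
          ∑ m ∈ (Finset.range T).filter (fun m => X < ds m ⌊ctr w (sg b n Q j) (K * (Q + j))⌋₊),
          ‖coef (pk (sg b n Q j) (K * (Q + j)) K) w m‖ := by
        apply Finset.sum_le_sum_of_subset_of_nonneg
        · intro m hm
          rw [Finset.mem_filter] at hm ⊢
          refine ⟨hm.1, ?_⟩
          by_contra hcon
          exact hm.2 ⟨j, hj, not_lt.mp hcon⟩
        · intro _ _ _; exact norm_nonneg _
      refine h4.trans (h3.trans ?_)
      apply Real.sqrt_le_sqrt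
      apply mul_le_mul_of_nonneg_left _ (by positivity)
      apply En_mono hw
      rw [Finset.mem_range] at hj
      calc K * (Q + j) ≤ K * (Q + Q) := Nat.mul_le_mul_left K (by omega)
        _ = 2 * K * Q := by ring
    refine (Finset.sum_le_sum h2).trans (le_of_eq ?_)
    rw [Finset.sum_const, Finset.card_range, nsmul_eq_mul]
    push_cast
    ring

end Pool.Agent.helper22.Mob
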