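import Mathlib
import Pool.Agent.helper22.Mob.Kakeya
open Complex Metric Set Filter Topology
open scoped ComplexConjugate

namespace Pool.Agent.helper22.Mob

/-- The compact sets of admissible shifts. -/
def Kc (R : ℝ) : Set ℂ := {w | ‖w‖ ≤ 1 - 1 / R ∧ 1 / R ≤ |w.im|}

/-- The slopes. -/
noncomputable def bb (R Δ : ℝ) (s k : ℕ) : ℝ := -(2 * R) + ((k:ℝ) - s) * Δ

lemma choose_digit {R Δ : ℝ} (hR : 2 ≤ R) (hΔ : 0 < Δ) (s : ℕ) {w : ℂ} (hw : w ∈ Kc R) :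
    ∃ k0 : ℕ, s ≤ k0 ∧ k0 < s + ⌊4 * R / Δ⌋₊ + 1 ∧
      ∀ k ≤ k0, |‖1 + w‖ ^ 2 - 2 * w.im * bb R Δ s k| ≤ 2 * (((k0:ℝ) - k + 1) * Δ) := by
  obtain ⟨hw1, hw2⟩ := hw
  have hRpos : 0 < R := by linarith
  have h1R : 0 < 1 / R := by positivity
  have him : 0 < |w.im| := by linarith
  have him0 : w.im ≠ 0 := abs_pos.mp him
  have hwn : ‖w‖ ≤ 1 := by linarith
  have him1 : |w.im| ≤ 1 := (Complex.abs_im_le_norm w).trans hwn
  have hA : ‖1 + w‖ ^ 2 ≤ 4 := by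
    have : ‖1 + w‖ ≤ 2 := (norm_add_le _ _).trans (by rw [norm_one]; linarith)
    nlinarith [norm_nonneg (1 + w)]
  set β : ℝ := ‖1 + w‖ ^ 2 / (2 * w.im) with hβ
  have hβabs : |β| ≤ 2 * R := by
    rw [hβ, abs_div, abs_mul, abs_two, abs_of_nonneg (by positivity), div_le_iff₀ (by positivity)]
    have : 1 ≤ R * |w.im| := by
      rw [div_le_iff₀ hRpos] at hw2
      linarith
    linarith
  have hβ1 := abs_le.mp hβabs
  have hq0 : 0 ≤ (β + 2 * R) / Δ := div_nonneg (by linarith [hβ1.1]) hΔ.le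
  refine ⟨s + ⌊(β + 2 * R) / Δ⌋₊, by omega, ?_, ?_⟩
  · have : ⌊(β + 2 * R) / Δ⌋₊ ≤ ⌊4 * R / Δ⌋₊ := by
      apply Nat.floor_le_floor
      gcongr
      linarith [hβ1.2]
    omega
  · intro k hk
    have hf1 := Nat.floor_le hq0
    have hf2 := (Nat.lt_floor_add_one ((β + 2 * R) / Δ)).le
    rw [le_div_iff₀ hΔ] at hf1
    rw [div_le_iff₀ hΔ] at hf2
    set fl := ⌊(β + 2 * R) / Δ⌋₊ with hfl
    have hkr : (k:ℝ) ≤ s + fl := by exact_mod_cast hk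
    have e : ‖1 + w‖ ^ 2 - 2 * w.im * bb R Δ s k = 2 * w.im * (β - bb R Δ s k) := by
      rw [hβ]; field_simp
    have hb1 : 0 ≤ β - bb R Δ s k := by
      unfold bb
      nlinarith
    have hb2 : β - bb R Δ s k ≤ (((s + fl : ℕ):ℝ) - k + 1) * Δ := by
      unfold bb
      push_cast
      nlinarith
    rw [e, abs_mul, abs_mul, abs_two, abs_of_nonneg hb1]
    calc 2 * |w.im| * (β - bb R Δ s k) ≤ 2 * 1 * ((((s + fl : ℕ):ℝ) - k + 1) * Δ) := by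
          apply mul_le_mul _ hb2 hb1 (by norm_num)
          linarith
      _ = _ := by ring

/-- Arithmetic for the good frequencies. -/
lemma arith_A {R ε Δ L K i1 i2 : ℝ} {s n k0 : ℕ} (hR : 2 ≤ R) (hε : 0 < ε) (hL : 1 ≤ L) (hK : 1 ≤ K)
    (hΔ : Δ = ε ^ 2 / (128 * R ^ 2)) (hs : 16 * R * (2 * L + 3 + 2 * R) ≤ 2 ^ s * ε ^ 2)
    (hk1 : s ≤ k0) (hk2 : k0 < n) (h1 : i1 ≤ 2 * R) (h10 : 0 ≤ i1) (h2 : i2 ≤ R) (h20 : 0 ≤ i2) :
    2 ^ (n - (k0 + 1)) * (2 * (L * K + 1 + K * i2 * (1 + 8 * Δ * 2 ^ k0)) + 1) *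
      (i1 * (2 ^ n * K)) ≤ (2 ^ n * K * (ε / 2)) ^ 2 := by
  have hRpos : 0 < R := by linarith
  have hΔ0 : 0 < Δ := by rw [hΔ]; positivity
  have e1 : (2:ℝ) ^ (n - (k0 + 1)) = 2 ^ n / 2 ^ (k0 + 1) := by
    rw [eq_div_iff (by positivity), ← pow_add]
    congr 1; omega
  have e2 : 2 * (L * K + 1 + K * i2 * (1 + 8 * Δ * 2 ^ k0)) + 1 ≤
      K * (2 * L + 3 + 2 * R + 16 * R * Δ * 2 ^ k0) := by
    have h3 : K * i2 * (1 + 8 * Δ * 2 ^ k0) ≤ K * R * (1 + 8 * Δ * 2 ^ k0) := by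
      apply mul_le_mul_of_nonneg_right _ (by positivity)
      exact mul_le_mul_of_nonneg_left h2 (by positivity)
    have e3 : K * (2 * L + 3 + 2 * R + 16 * R * Δ * 2 ^ k0) =
        2 * (L * K) + 3 * K + 2 * (K * R * (1 + 8 * Δ * 2 ^ k0)) := by ring
    rw [e3]
    linarith
  have e4 : i1 * (2 ^ n * K) ≤ 2 * R * (2 ^ n * K) := mul_le_mul_of_nonneg_right h1 (by positivity)
  have step1 : 2 ^ (n - (k0 + 1)) * (2 * (L * K + 1 + K * i2 * (1 + 8 * Δ * 2 ^ k0)) + 1) *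
      (i1 * (2 ^ n * K)) ≤ 2 ^ n / 2 ^ (k0 + 1) * (K * (2 * L + 3 + 2 * R + 16 * R * Δ * 2 ^ k0)) *
          (2 * R * (2 ^ n * K)) := by
    rw [e1]
    apply mul_le_mul _ e4 (by positivity) (by positivity)
    exact mul_le_mul_of_nonneg_left e2 (by positivity)
  have step2 : 2 ^ n / 2 ^ (k0 + 1) * (K * (2 * L + 3 + 2 * R + 16 * R * Δ * 2 ^ k0)) *
          (2 * R * (2 ^ n * K)) =
      (2 ^ n * K) ^ 2 * ((2 * R * (2 * L + 3 + 2 * R)) / 2 ^ (k0 + 1) + 16 * R ^ 2 * Δ) := by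
    rw [pow_succ]
    field_simp
  have step3 : (2 * R * (2 * L + 3 + 2 * R)) / 2 ^ (k0 + 1) ≤ ε ^ 2 / 8 := by
    rw [div_le_iff₀ (by positivity)]
    have h2s : (2:ℝ) ^ s ≤ 2 ^ (k0 + 1) := pow_le_pow_right₀ (by norm_num) (by omega)
    have h3 : (2:ℝ) ^ s * ε ^ 2 ≤ 2 ^ (k0 + 1) * ε ^ 2 :=
      mul_le_mul_of_nonneg_right h2s (by positivity)
    linarith
  have step4 : 16 * R ^ 2 * Δ = ε ^ 2 / 8 := by
    rw [hΔ]
    field_simp
    norm_num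
  rw [step2, step4] at step1
  refine step1.trans ?_
  calc (2 ^ n * K) ^ 2 * ((2 * R * (2 * L + 3 + 2 * R)) / 2 ^ (k0 + 1) + ε ^ 2 / 8)
      ≤ (2 ^ n * K) ^ 2 * (ε ^ 2 / 8 + ε ^ 2 / 8) := by
        apply mul_le_mul_of_nonneg_left _ (by positivity)
        linarith
    _ = (2 ^ n * K * (ε / 2)) ^ 2 := by ring

/-- Arithmetic for the energy. -/
lemma arith_En {R : ℝ} {w : ℂ} {Q K : ℕ} (hR : 2 ≤ R) (hw : ‖w‖ < 1) (hKr : (K:ℝ) = (Q:ℝ) ^ 2)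
    (hK1 : (1:ℝ) ≤ K) (hinv2 : (1 - ‖w‖ ^ 2)⁻¹ ≤ R) (hinv3 : 2 / (1 - ‖w‖) ≤ 2 * R) :
    0 ≤ En w (2 * K * Q) K ∧ En w (2 * K * Q) K ≤ 340 * R ^ 3 * K ^ 3 := by
  have h1w : 0 < 1 - ‖w‖ := by linarith
  have hp0 : 0 < 1 - ‖w‖ ^ 2 := by nlinarith [norm_nonneg w]
  have hRpos : 0 < R := by linarith
  constructor
  · unfold En; positivity
  · unfold En
    have e1 : ((2 * K * Q : ℕ) : ℝ) ^ 2 = 4 * (K:ℝ) ^ 3 := by
      push_cast
      have : (2 * (K:ℝ) * Q) ^ 2 = 4 * (K:ℝ) ^ 2 * (Q:ℝ) ^ 2 := by ring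
      rw [this, ← hKr]; ring
    rw [e1]
    have hi0 : 0 ≤ (1 - ‖w‖ ^ 2)⁻¹ := by positivity
    have t1 : (1 - ‖w‖ ^ 2)⁻¹ ^ 2 * (2 / (1 - ‖w‖) * (15 * (4 * (K:ℝ) ^ 3) + 24 * (K:ℝ) ^ 3)) ≤
        R ^ 2 * (2 * R * (84 * (K:ℝ) ^ 3)) := by
      have e2 : 15 * (4 * (K:ℝ) ^ 3) + 24 * (K:ℝ) ^ 3 = 84 * (K:ℝ) ^ 3 := by ring
      rw [e2]
      apply mul_le_mul (pow_le_pow_left₀ hi0 hinv2 2) _ (by positivity) (by positivity)
      exact mul_le_mul_of_nonneg_right hinv3 (by positivity)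
    have t2 : 2 / (1 - ‖w‖) * (K:ℝ) ≤ 2 * R * K := mul_le_mul_of_nonneg_right hinv3 (by positivity)
    have t3 : R * K ≤ R ^ 3 * K ^ 3 := by
      have a1 : R ≤ R ^ 3 := by
        have := one_le_pow₀ (n := 2) (show 1 ≤ R by linarith)
        nlinarith
      have a2 : (K:ℝ) ≤ (K:ℝ) ^ 3 := by
        have := one_le_pow₀ (n := 2) hK1
        nlinarith
      exact mul_le_mul a1 a2 (by positivity) (by positivity)
    have t4 : R ^ 2 * (2 * R * (84 * (K:ℝ) ^ 3)) = 168 * (R ^ 3 * K ^ 3) := by ring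
    rw [t4] at t1
    have t5 : 340 * R ^ 3 * (K:ℝ) ^ 3 = 340 * (R ^ 3 * K ^ 3) := by ring
    rw [t5]
    linarith

lemma arith_B {R ε L K E : ℝ} (hR : 2 ≤ R) (hL : 1 ≤ L) (hK : 1 ≤ K)
    (hL2 : 5440 * R ^ 3 ≤ L * ε ^ 2) (hE0 : 0 ≤ E) (hE : E ≤ 340 * R ^ 3 * K ^ 3) :
    4 / (L * K + 1) * E ≤ (K * (ε / 2)) ^ 2 := by
  have hRpos : 0 < R := by linarith
  have hX : 4 / (L * K + 1) ≤ 4 / (L * K) := by
    apply div_le_div_of_nonneg_left (by norm_num) (by positivity)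
    linarith
  calc 4 / (L * K + 1) * E ≤ 4 / (L * K) * (340 * R ^ 3 * K ^ 3) :=
        mul_le_mul hX hE hE0 (by positivity)
    _ = (1360 * R ^ 3 / L) * K ^ 2 := by field_simp; ring
    _ ≤ (ε ^ 2 / 4) * K ^ 2 := by
        apply mul_le_mul_of_nonneg_right _ (by positivity)
        rw [div_le_iff₀ (by positivity)]
        linarith
    _ = (K * (ε / 2)) ^ 2 := by ring

/-- The quantitative block. -/
lemma kakeya_block {R ε : ℝ} (hR : 2 ≤ R) (hε : 0 < ε) : ∃ (b : ℕ → ℝ) (n Q K : ℕ), 1 ≤ Q ∧ 1 ≤ K ∧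
    ∀ w ∈ Kc R, ∀ T, ∑ m ∈ Finset.range T, ‖coef (gg b n Q K) w m‖ ≤ 2 ^ n * K * ε := by
  have hRpos : 0 < R := by linarith
  obtain ⟨L, hL⟩ := exists_nat_ge (max 1 (5440 * R ^ 3 / ε ^ 2))
  have hL1 : (1:ℝ) ≤ L := (le_max_left _ _).trans hL
  have hL2 : 5440 * R ^ 3 ≤ L * ε ^ 2 := by
    have := (le_max_right _ _).trans hL
    rwa [div_le_iff₀ (by positivity)] at this
  set Δ : ℝ := ε ^ 2 / (128 * R ^ 2) with hΔdef
  have hΔ : 0 < Δ := by positivity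
  obtain ⟨s, hs⟩ := pow_unbounded_of_one_lt (16 * R * (2 * L + 3 + 2 * R) / ε ^ 2)
    (show (1:ℝ) < 2 by norm_num)
  have hs' : 16 * R * (2 * L + 3 + 2 * R) ≤ 2 ^ s * ε ^ 2 := by
    rw [div_lt_iff₀ (by positivity)] at hs
    exact hs.le
  set n : ℕ := s + ⌊4 * R / Δ⌋₊ + 1 with hn
  set b := bb R Δ s with hb
  set Y : ℝ := ∑ k ∈ Finset.range n, |b k| * 2 ^ k with hY
  have hY0 : 0 ≤ Y := Finset.sum_nonneg (fun k _ => by positivity)
  obtain ⟨Q, hQ⟩ := exists_nat_ge (max (max 1 Y) (max (2 ^ n) (4 * Y ^ 2 + 2 * 2 ^ n * Y)))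
  have hQ1 : (1:ℝ) ≤ Q := (le_max_left _ _).trans ((le_max_left _ _).trans hQ)
  have hQY' : Y ≤ Q := (le_max_right _ _).trans ((le_max_left _ _).trans hQ)
  have hQn : (2:ℝ) ^ n ≤ Q := (le_max_left _ _).trans ((le_max_right _ _).trans hQ)
  have hQY : 4 * Y ^ 2 + 2 * 2 ^ n * Y ≤ Q := (le_max_right _ _).trans ((le_max_right _ _).trans hQ)
  have hQ1' : 1 ≤ Q := by exact_mod_cast hQ1
  have hQn' : 2 ^ n ≤ Q := by exact_mod_cast hQn
  refine ⟨b, n, Q, Q ^ 2, hQ1', Nat.one_le_pow _ _ hQ1', ?_⟩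
  intro w hw T
  obtain ⟨k0, hk1, hk2, hx⟩ := choose_digit hR hΔ s hw
  have hw' := hw
  obtain ⟨hw1, hw2⟩ := hw'
  have h1R : 0 < 1 / R := by positivity
  have hwlt : ‖w‖ < 1 := by linarith
  have h1w : 0 < 1 - ‖w‖ := by linarith
  have h1w' : 1 / R ≤ 1 - ‖w‖ := by linarith
  have hp : 1 / R ≤ 1 - ‖w‖ ^ 2 := by nlinarith [norm_nonneg w]
  have hp0 : 0 < 1 - ‖w‖ ^ 2 := by linarith
  have hinv1 : 1 / (1 - ‖w‖) ≤ R := by
    rw [div_le_iff₀ h1w]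
    rw [div_le_iff₀ hRpos] at h1w'
    linarith
  have hinv2 : (1 - ‖w‖ ^ 2)⁻¹ ≤ R := by
    rw [inv_le_comm₀ hp0 hRpos, ← one_div]
    exact hp
  have hinv3 : 2 / (1 - ‖w‖) ≤ 2 * R := by
    have : 2 / (1 - ‖w‖) = 2 * (1 / (1 - ‖w‖)) := by ring
    rw [this]; linarith
  set K : ℕ := Q ^ 2 with hK
  have hKr : (K:ℝ) = (Q:ℝ) ^ 2 := by rw [hK]; push_cast; ring
  have hK1 : (1:ℝ) ≤ K := by rw [hKr]; nlinarith
  have hK1' : 1 ≤ K := by exact_mod_cast hK1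
  have hmain := main_est hwlt b (X := L * K) hk2 hQ1' hK1' hΔ.le hx le_rfl hQY hQn' hQY' T
  refine hmain.trans ?_
  have hA : Real.sqrt (2 ^ (n - (k0 + 1)) * (2 * (((L * K : ℕ) : ℝ) + 1 +
      K / (1 - ‖w‖ ^ 2) * (1 + 8 * Δ * 2 ^ k0)) + 1) * (2 / (1 - ‖w‖) * (2 ^ n * K))) ≤
      2 ^ n * K * (ε / 2) := by
    apply Real.sqrt_le_iff.mpr
    refine ⟨by positivity, ?_⟩
    rw [div_eq_mul_inv (K:ℝ), Nat.cast_mul]
    exact arith_A hR hε hL1 hK1 hΔdef hs' hk1 hk2 hinv3 (by positivity) hinv2 (by positivity)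
  have hB : Real.sqrt (4 / (((L * K : ℕ) : ℝ) + 1) * En w (2 * K * Q) K) ≤ K * (ε / 2) := by
    apply Real.sqrt_le_iff.mpr
    refine ⟨by positivity, ?_⟩
    have hEn := arith_En hR hwlt hKr hK1 hinv2 hinv3
    rw [Nat.cast_mul]
    exact arith_B hR hL1 hK1 hL2 hEn.1 hEn.2
  calc _ ≤ 2 ^ n * K * (ε / 2) + 2 ^ n * (K * (ε / 2)) :=
        add_le_add hA (mul_le_mul_of_nonneg_left hB (by positivity))
    _ = 2 ^ n * K * ε := by ring

lemma shift_inv {w z : ℂ} (hw : ‖w‖ < 1) (hz : ‖z‖ < 1) : shift w (shift (-w) z) = z := by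
  have h1 : 1 + conj w * z ≠ 0 := by
    have := den_ne (w := -w) (z := z) (by rwa [norm_neg]) hz.le
    rw [map_neg] at this
    intro h; apply this; rw [← h]; ring
  have h2 : (1 - conj w * w) ≠ 0 := by
    have := den_ne hw hw.le
    exact this
  have e : shift (-w) z = (z + w) / (1 + conj w * z) := by
    unfold shift; rw [map_neg]; congr 1 <;> ring
  rw [e]
  unfold shift
  have h3 : 1 - conj w * ((z + w) / (1 + conj w * z)) = (1 - conj w * w) / (1 + conj w * z) := by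
    field_simp; ring
  have h4 : (z + w) / (1 + conj w * z) - w = z * (1 - conj w * w) / (1 + conj w * z) := by
    rw [eq_div_iff h1, sub_mul, div_mul_cancel₀ _ h1]; ring
  rw [h3, h4, div_div_div_cancel_right₀ h1, mul_div_assoc, div_self h2, mul_one]

lemma norm_le_of_coef {w : ℂ} (hw : ‖w‖ < 1) {f : ℂ → ℂ} (hf : DifferentiableOn ℂ f (ball 0 1))
    (hs : Summable (fun n => ‖coef f w n‖)) {z : ℂ} (hz : z ∈ ball (0:ℂ) 1) :
    ‖f z‖ ≤ ∑' n, ‖coef f w n‖ := by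
  have hz1 := mem_ball_zero_iff.mp hz
  have hz' : shift (-w) z ∈ ball (0:ℂ) 1 := shift_mem (by rwa [norm_neg]) hz
  have h1 := hasSum_coef hw hf hz'
  rw [shift_inv hw hz1] at h1
  have hz'1 := mem_ball_zero_iff.mp hz'
  have hle : ∀ n, ‖coef f w n * shift (-w) z ^ n‖ ≤ ‖coef f w n‖ := by
    intro n
    rw [norm_mul, norm_pow]
    exact mul_le_of_le_one_right (norm_nonneg _) (pow_le_one₀ (norm_nonneg _) hz'1.le)
  have hs2 : Summable (fun n => ‖coef f w n * shift (-w) z ^ n‖) :=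
    Summable.of_nonneg_of_le (fun _ => norm_nonneg _) hle hs
  rw [← h1.tsum_eq]
  exact (norm_tsum_le_tsum_norm hs2).trans (hs2.tsum_le_tsum hle hs)

lemma gg_summable {w : ℂ} (hw : ‖w‖ < 1) (b : ℕ → ℝ) {n Q K : ℕ} (hQ : 1 ≤ Q) (hK : 1 ≤ K) :
    Summable (fun m => ‖coef (gg b n Q K) w m‖) := by
  have h1 : Summable (fun m => ∑ j ∈ Finset.range (2 ^ n),
      ‖coef (pk (sg b n Q j) (K * (Q + j)) K) w m‖) := by
    apply summable_sum
    intro j _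
    exact pk_summable hw (sg_norm b n Q j) (Nat.mul_pos hK (by omega)) hK
  refine Summable.of_nonneg_of_le (fun _ => norm_nonneg _) (fun m => ?_) h1
  rw [gg_coef hw]
  exact norm_sum_le _ _

lemma coef_cmul {w : ℂ} (hw : ‖w‖ < 1) {f : ℂ → ℂ} (hf : DifferentiableOn ℂ f (ball 0 1))
    (c : ℂ) (n : ℕ) : coef (fun z => c * f z) w n = c * coef f w n := by
  apply coef_unique (ρ := 1) one_pos
  intro z hz
  have := (hasSum_coef hw hf hz).mul_left c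
  simpa [mul_assoc] using this

/-- The block used in the gliding hump. -/
lemma q1_block (k : ℕ) (ε : ℝ) (hε : 0 < ε) (C : ℝ) : ∃ g : ℂ → ℂ,
    ((∀ w, ‖w‖ < 1 → Summable (fun m => ‖coef g w m‖)) ∧
      (∀ w ∈ Kc (k + 2), ∑' m, ‖coef g w m‖ ≤ (1 / 2) ^ k)) ∧
      DifferentiableOn ℂ g (ball 0 1) ∧ (∀ z ∈ ball (0:ℂ) 1, ‖g z‖ ≤ ε) ∧
      ∃ N : ℕ, Summable (fun n => ‖coef g 0 n‖) ∧ C ≤ ∑ n ∈ Finset.range N, ‖coef g 0 n‖ := by
  set C' := max C 1 with hC'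
  have hC1 : 1 ≤ C' := le_max_right _ _
  have hC0 : 0 < C' := by linarith
  set e := min ε ((1 / 2) ^ k) with he
  have he0 : 0 < e := lt_min hε (by positivity)
  have hk0 : (0:ℝ) ≤ k := Nat.cast_nonneg k
  obtain ⟨b, n, Q, K, hQ, hK, hblock⟩ := kakeya_block (R := (k:ℝ) + 2) (ε := e / C') (by linarith)
    (by positivity)
  have hKpos : (0:ℝ) < K := by exact_mod_cast hK
  set c : ℝ := C' / (2 ^ n * K) with hc
  have hc0 : 0 < c := by positivity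
  have hd := gg_diff b n Q K
  have hcn : ∀ (w : ℂ), ‖w‖ < 1 → ∀ m, ‖coef (fun z => (c:ℂ) * gg b n Q K z) w m‖ =
      c * ‖coef (gg b n Q K) w m‖ := by
    intro w hw m
    rw [coef_cmul hw hd, norm_mul, Complex.norm_real, Real.norm_eq_abs, abs_of_pos hc0]
  have hsum : ∀ w : ℂ, ‖w‖ < 1 → Summable (fun m => ‖coef (fun z => (c:ℂ) * gg b n Q K z) w m‖) := by
    intro w hw
    simp_rw [hcn w hw]
    exact (gg_summable hw b hQ hK).mul_left c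
  have hdg : DifferentiableOn ℂ (fun z => (c:ℂ) * gg b n Q K z) (ball 0 1) :=
    (differentiableOn_const _).mul hd
  have hKlt : ∀ w ∈ Kc ((k:ℝ) + 2), ‖w‖ < 1 := by
    intro w hw
    have h1 : 0 < 1 / ((k:ℝ) + 2) := by positivity
    have := hw.1
    linarith
  have hts : ∀ w ∈ Kc ((k:ℝ) + 2), ∑' m, ‖coef (fun z => (c:ℂ) * gg b n Q K z) w m‖ ≤ e := by
    intro w hw
    have hw1 := hKlt w hw
    simp_rw [hcn w hw1]
    rw [tsum_mul_left]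
    have h1 : ∑' m, ‖coef (gg b n Q K) w m‖ ≤ 2 ^ n * K * (e / C') :=
      Real.tsum_le_of_sum_range_le (fun _ => norm_nonneg _) (hblock w hw)
    calc c * ∑' m, ‖coef (gg b n Q K) w m‖ ≤ c * (2 ^ n * K * (e / C')) :=
          mul_le_mul_of_nonneg_left h1 hc0.le
      _ = e := by rw [hc]; field_simp
  refine ⟨fun z => (c:ℂ) * gg b n Q K z, ⟨hsum, fun w hw => (hts w hw).trans (min_le_right _ _)⟩,
    hdg, ?_, K * (Q + 2 ^ n), hsum 0 (by simp), ?_⟩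
  · intro z hz
    have hw1 : (1 / 2 : ℂ) * I ∈ Kc ((k:ℝ) + 2) := by
      have h2 : 1 / ((k:ℝ) + 2) ≤ 1 / 2 := by
        apply one_div_le_one_div_of_le (by norm_num); linarith
      constructor
      · rw [norm_mul, Complex.norm_I, mul_one]
        have : ‖(1 / 2 : ℂ)‖ = 1 / 2 := by norm_num
        rw [this]; linarith
      · have : ((1 / 2 : ℂ) * I).im = 1 / 2 := by simp
        rw [this, abs_of_pos (by norm_num)]
        exact h2
    have h3 := norm_le_of_coef (hKlt _ hw1) hdg (hsum _ (hKlt _ hw1)) hz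
    exact h3.trans ((hts _ hw1).trans (min_le_left _ _))
  · have h0 : ‖(0:ℂ)‖ < 1 := by simp
    simp_rw [hcn 0 h0]
    rw [← Finset.mul_sum]
    have h4 : ∑ i ∈ Finset.range (K * (Q + 2 ^ n)), ‖coef (gg b n Q K) 0 i‖ = 2 ^ n * K := by
      rw [← (ga_sum b n Q K).1]
      apply Finset.sum_congr rfl
      intro i hi
      rw [gg_coef_zero b n Q K i (Finset.mem_range.mp hi)]
    rw [h4, hc]
    have h5 : C' / (2 ^ n * K) * (2 ^ n * K) = C' := by field_simp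
    rw [h5]
    exact le_max_left _ _

/-- The counterexample for Q1. -/
theorem q1_example : ∃ f : ℂ → ℂ, DifferentiableOn ℂ f (ball 0 1) ∧ (0:ℂ) ∉ W f ∧
    ∀ w : ℂ, ‖w‖ < 1 → w.im ≠ 0 → w ∈ W f := by
  obtain ⟨g, hgk, hnot⟩ := gliding (b := (0:ℂ)) (by simp) (fun k g =>
    (∀ w, ‖w‖ < 1 → Summable (fun m => ‖coef g w m‖)) ∧
      (∀ w ∈ Kc (k + 2), ∑' m, ‖coef g w m‖ ≤ (1 / 2) ^ k))
    (fun k ε hε C => q1_block k ε hε C)
  have hgeo : Summable (fun k : ℕ => ((1:ℝ) / 2) ^ k) := summable_geometric_two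
  have hd := fun k => (hgk k).2.1
  have hB := fun k => (hgk k).2.2
  refine ⟨fun z => ∑' k, g k z, diff_tsum hd hB hgeo, fun h => hnot h.2, ?_⟩
  intro w hw him
  refine ⟨hw, ?_⟩
  apply summable_coef_tsum hw hd hB hgeo (fun k => (hgk k).1.1 w hw)
  -- eventually in the compact set
  have him' : 0 < |w.im| := abs_pos.mpr him
  obtain ⟨k1, hk1⟩ := exists_nat_gt (max (1 / (1 - ‖w‖)) (1 / |w.im|))
  have h1w : 0 < 1 - ‖w‖ := by linarith
  have hmem : ∀ k : ℕ, w ∈ Kc (((k + k1 : ℕ) : ℝ) + 2) := by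
    intro k
    have hk0 : (0:ℝ) ≤ k := Nat.cast_nonneg k
    have a1 : 1 / (1 - ‖w‖) ≤ ((k + k1 : ℕ) : ℝ) + 2 := by
      have := (le_max_left _ _).trans hk1.le
      push_cast; linarith
    have a2 : 1 / |w.im| ≤ ((k + k1 : ℕ) : ℝ) + 2 := by
      have := (le_max_right _ _).trans hk1.le
      push_cast; linarith
    constructor
    · have := one_div_le_one_div_of_le (by positivity) a1
      rw [one_div_one_div] at this
      linarith
    · have := one_div_le_one_div_of_le (by positivity) a2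
      rw [one_div_one_div] at this
      exact this
  rw [← summable_nat_add_iff k1]
  refine Summable.of_nonneg_of_le (fun k => tsum_nonneg (fun _ => norm_nonneg _)) (fun k => ?_) hgeo
  refine ((hgk (k + k1)).1.2 w (hmem k)).trans ?_
  exact pow_le_pow_of_le_one (by norm_num) (by norm_num) (by omega)

end Pool.Agent.helper22.Mob
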