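import Mathlib
open Complex Metric Set Filter Topology
open scoped ComplexConjugate

namespace Pool.Agent.helper22.Mob

/-- Second moment identity. -/
lemma hasSum_sq {ι : Type*} (I : Finset ι) (c κ : ι → ℂ) (hκ : ∀ i ∈ I, ‖κ i‖ < 1) :
    HasSum (fun n : ℕ => ‖∑ i ∈ I, c i * κ i ^ n‖ ^ 2 / n)
      (∑ i ∈ I, ∑ j ∈ I, (c i * conj (c j) * (-Complex.log (1 - κ i * conj (κ j)))).re) := by
  have h1 : ∀ i ∈ I, ∀ j ∈ I, HasSum (fun n : ℕ => (c i * conj (c j) * ((κ i * conj (κ j)) ^ n / n)).re)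
      (c i * conj (c j) * (-Complex.log (1 - κ i * conj (κ j)))).re := by
    intro i hi j hj
    have h2 : ‖κ i * conj (κ j)‖ < 1 := by
      rw [norm_mul, RCLike.norm_conj]
      calc ‖κ i‖ * ‖κ j‖ ≤ 1 * ‖κ j‖ := mul_le_mul_of_nonneg_right (hκ i hi).le (norm_nonneg _)
        _ < 1 := by rw [one_mul]; exact hκ j hj
    exact Complex.hasSum_re ((Complex.hasSum_taylorSeries_neg_log h2).mul_left _)
  have h3 := hasSum_sum (fun i hi => hasSum_sum (fun j hj => h1 i hi j hj))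
  have e : (fun n : ℕ => ‖∑ i ∈ I, c i * κ i ^ n‖ ^ 2 / n) =
      (fun n : ℕ => ∑ i ∈ I, ∑ j ∈ I, (c i * conj (c j) * ((κ i * conj (κ j)) ^ n / n)).re) := by
    ext n
    have h4 : ((‖∑ i ∈ I, c i * κ i ^ n‖ ^ 2 / n : ℝ) : ℂ) =
        ∑ i ∈ I, ∑ j ∈ I, (c i * conj (c j) * ((κ i * conj (κ j)) ^ n / n)) := by
      push_cast
      rw [← Complex.mul_conj', map_sum, Finset.sum_mul_sum, Finset.sum_div]
      apply Finset.sum_congr rfl
      intro i _
      rw [Finset.sum_div]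
      apply Finset.sum_congr rfl
      intro j _
      rw [map_mul, map_pow, mul_pow]
      ring
    have h5 := congrArg Complex.re h4
    rw [Complex.ofReal_re] at h5
    rw [h5, Complex.re_sum]
    apply Finset.sum_congr rfl
    intro i _
    rw [Complex.re_sum]
  rw [e]
  exact h3

/-- `y ≥ (3/4) y² - (1/16) y⁴` for `y ≥ 0`. -/
lemma quartic {y : ℝ} (hy : 0 ≤ y) : 3 / 4 * y ^ 2 - 1 / 16 * y ^ 4 ≤ y := by
  nlinarith [mul_nonneg hy (mul_nonneg (sq_nonneg (y - 2)) (by linarith : 0 ≤ y + 4))]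

/-- Lower bound for the `ℓ¹` mean from the second and fourth moments. -/
lemma l1_lower {q : ℕ → ℂ} {s S2 S4 : ℝ} (hs : 0 < s)
    (h2 : HasSum (fun n : ℕ => ‖q n‖ ^ 2 / n) S2) (h4 : HasSum (fun n : ℕ => ‖q n‖ ^ 4 / n) S4)
    (h1 : Summable (fun n : ℕ => ‖q n‖ / n)) :
    3 / 4 * S2 / s - 1 / 16 * S4 / s ^ 3 ≤ ∑' n : ℕ, ‖q n‖ / n := by
  have h5 : HasSum (fun n : ℕ => 3 / 4 * (‖q n‖ ^ 2 / n) / s - 1 / 16 * (‖q n‖ ^ 4 / n) / s ^ 3)
      (3 / 4 * S2 / s - 1 / 16 * S4 / s ^ 3) :=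
    ((h2.mul_left (3 / 4)).div_const s).sub ((h4.mul_left (1 / 16)).div_const (s ^ 3))
  rw [← h5.tsum_eq]
  apply h5.summable.tsum_le_tsum _ h1
  intro n
  have hq := quartic (y := ‖q n‖ / s) (by positivity)
  have hn : (0:ℝ) ≤ n := Nat.cast_nonneg n
  have h6 : 3 / 4 * (‖q n‖ ^ 2 / n) / s - 1 / 16 * (‖q n‖ ^ 4 / n) / s ^ 3 =
      (3 / 4 * (‖q n‖ / s) ^ 2 - 1 / 16 * (‖q n‖ / s) ^ 4) * (s / n) := by
    rcases hn.lt_or_eq with h | h
    · field_simp
    · rw [← h]; simp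
  rw [h6]
  calc (3 / 4 * (‖q n‖ / s) ^ 2 - 1 / 16 * (‖q n‖ / s) ^ 4) * (s / n) ≤ (‖q n‖ / s) * (s / n) := by
        apply mul_le_mul_of_nonneg_right hq; positivity
    _ = ‖q n‖ / n := by field_simp

/-- The logarithm stays bounded along a path that does not end at `1`. -/
lemma log_bdd {u : ℝ → ℂ} (hu : ContinuousAt u 1) (h1 : ‖u 1‖ ≤ 1) (hne : u 1 ≠ 1) :
    ∃ C : ℝ, ∀ᶠ r in 𝓝[<] (1:ℝ), ‖Complex.log (1 - u r)‖ ≤ C := by
  have hslit : 1 - u 1 ∈ Complex.slitPlane := by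
    left
    rw [Complex.sub_re, Complex.one_re]
    have h2 : (u 1).re ≤ ‖u 1‖ := Complex.re_le_norm _
    rcases (h2.trans h1).lt_or_eq with h3 | h3
    · linarith
    · exfalso
      apply hne
      have h4 : ‖u 1‖ = 1 := le_antisymm h1 (by linarith)
      have h5 := Complex.sq_norm (u 1)
      rw [h4, Complex.normSq_apply, h3] at h5
      have h6 : (u 1).im = 0 := by nlinarith
      apply Complex.ext
      · simpa using h3
      · simpa using h6
  have hc : ContinuousAt (fun r => ‖Complex.log (1 - u r)‖) 1 := by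
    apply ContinuousAt.norm
    exact (continuousAt_const.sub hu).clog hslit
  refine ⟨‖Complex.log (1 - u 1)‖ + 1, ?_⟩
  have h7 : ∀ᶠ r in 𝓝 (1:ℝ), ‖Complex.log (1 - u r)‖ < ‖Complex.log (1 - u 1)‖ + 1 :=
    hc.eventually_lt continuousAt_const (by linarith)
  exact (h7.filter_mono nhdsWithin_le_nhds).mono fun r hr => hr.le

/-- Crude bound for the logarithm. -/
lemma log_norm_le {K : ℂ} {c r : ℝ} (hc : 0 < c) (hc1 : c ≤ 1 / 2) (hr0 : 0 < r) (hr : r < 1)
    (hK : ‖K‖ < 1) (h : c * (1 - r) ≤ 1 - ‖K‖) :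
    ‖Complex.log (1 - K)‖ ≤ -Real.log (1 - r) + (-Real.log c + Real.pi) := by
  have h1r : 0 < 1 - r := by linarith
  have hlow : c * (1 - r) ≤ ‖1 - K‖ := by
    have := norm_sub_norm_le (1:ℂ) K
    rw [norm_one] at this
    linarith
  have hup : ‖1 - K‖ ≤ 2 := by
    calc ‖1 - K‖ ≤ ‖(1:ℂ)‖ + ‖K‖ := norm_sub_le _ _
      _ ≤ 2 := by rw [norm_one]; linarith
  have hpos : 0 < ‖1 - K‖ := lt_of_lt_of_le (by positivity) hlow
  have h2 : |Real.log ‖1 - K‖| ≤ -Real.log (1 - r) + -Real.log c := by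
    rw [abs_le]
    constructor
    · have := Real.log_le_log (by positivity) hlow
      rw [Real.log_mul hc.ne' h1r.ne'] at this
      linarith
    · have h3 := Real.log_le_log hpos hup
      have h4 : Real.log 2 ≤ -Real.log c := by
        rw [← Real.log_inv]
        apply Real.log_le_log (by norm_num)
        rw [le_inv_comm₀ (by norm_num) hc]
        linarith
      have h5 : 0 ≤ -Real.log (1 - r) := by
        have := Real.log_nonpos h1r.le (by linarith)
        linarith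
      linarith
  calc ‖Complex.log (1 - K)‖ ≤ |(Complex.log (1 - K)).re| + |(Complex.log (1 - K)).im| :=
        Complex.norm_le_abs_re_add_abs_im _
    _ ≤ (-Real.log (1 - r) + -Real.log c) + Real.pi := by
        apply add_le_add
        · rw [Complex.log_re]; exact h2
        · rw [Complex.log_im]; exact Complex.abs_arg_le_pi _
    _ = _ := by ring

end Pool.Agent.helper22.Mob
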