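import Mathlib
import Pool.Agent.helper22.Mob.WSum
import Pool.Agent.helper22.Mob.Moments
open Complex Metric Set Filter Topology
open scoped ComplexConjugate

namespace Pool.Agent.helper22.Mob

lemma re_pos_of_norm_lt {u : ℂ} (hu : ‖u‖ < 1) : 0 < (1 - u).re := by
  rw [Complex.sub_re, Complex.one_re]
  have := (Complex.re_le_norm u)
  linarith

lemma ne_zero_of_re_pos {x : ℂ} (hx : 0 < x.re) : x ≠ 0 := by
  intro h; rw [h] at hx; simp at hx

lemma log_mul_re_pos {x y : ℂ} (hx : 0 < x.re) (hy : 0 < y.re) :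
    Complex.log (x * y) = Complex.log x + Complex.log y := by
  rw [Complex.log_mul_eq_add_log_iff (ne_zero_of_re_pos hx) (ne_zero_of_re_pos hy)]
  have h1 := abs_lt.mp (Complex.abs_arg_lt_pi_div_two_iff.mpr (Or.inl hx))
  have h2 := abs_lt.mp (Complex.abs_arg_lt_pi_div_two_iff.mpr (Or.inl hy))
  constructor
  · linarith [h1.1, h2.1]
  · linarith [h1.2, h2.2]

/-- The Blaschke image of the singularity. -/
noncomputable def kap (t : ℝ) (a : ℂ) : ℂ := (t + a) / (1 + a * t)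

lemma kap_eq_shift (t : ℝ) (a : ℂ) : kap t a = shift (-(t:ℂ)) a := by
  unfold kap shift
  rw [map_neg, Complex.conj_ofReal]
  congr 1
  · ring
  · ring

lemma norm_t {t : ℝ} (ht0 : 0 < t) (ht1 : t < 1) : ‖(t:ℂ)‖ < 1 := by
  rw [Complex.norm_real, Real.norm_eq_abs, abs_of_pos ht0]; exact ht1

lemma kap_norm {t : ℝ} (ht0 : 0 < t) (ht1 : t < 1) {a : ℂ} (ha : ‖a‖ < 1) : ‖kap t a‖ < 1 := by
  rw [kap_eq_shift]
  apply shift_ball _ ha
  rw [norm_neg]; exact norm_t ht0 ht1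

lemma log_identity {t : ℝ} (ht0 : 0 < t) (ht1 : t < 1) {a z : ℂ} (ha : ‖a‖ < 1) (hz : ‖z‖ < 1) :
    -Complex.log (1 - a * shift t z) =
      -Complex.log (1 + a * t) + (-Complex.log (1 - kap t a * z) - -Complex.log (1 - t * z)) := by
  have hs : ‖shift (t:ℂ) z‖ < 1 := shift_ball (norm_t ht0 ht1) hz
  have mul_lt : ∀ {x y : ℂ}, ‖x‖ < 1 → ‖y‖ < 1 → ‖x * y‖ < 1 := by
    intro x y hx hy
    rw [norm_mul]
    calc ‖x‖ * ‖y‖ ≤ 1 * ‖y‖ := mul_le_mul_of_nonneg_right hx.le (norm_nonneg _)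
      _ < 1 := by rw [one_mul]; exact hy
  have hX : 0 < (1 - a * shift t z).re := re_pos_of_norm_lt (mul_lt ha hs)
  have hY : 0 < (1 - (t:ℂ) * z).re := re_pos_of_norm_lt (mul_lt (norm_t ht0 ht1) hz)
  have hU : 0 < (1 + a * t).re := by
    have := re_pos_of_norm_lt (u := -(a * t)) (by rw [norm_neg]; exact mul_lt ha (norm_t ht0 ht1))
    rwa [sub_neg_eq_add] at this
  have hV : 0 < (1 - kap t a * z).re := re_pos_of_norm_lt (mul_lt (kap_norm ht0 ht1 ha) hz)
  have hprod : (1 - a * shift t z) * (1 - (t:ℂ) * z) = (1 + a * t) * (1 - kap t a * z) := by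
    have h1 := ne_zero_of_re_pos hY
    have h2 := ne_zero_of_re_pos hU
    have h3 : shift (t:ℂ) z * (1 - (t:ℂ) * z) = z - t := by
      unfold shift
      rw [Complex.conj_ofReal, div_mul_cancel₀ _ h1]
    have h4 : kap t a * (1 + a * t) = t + a := by
      unfold kap
      rw [div_mul_cancel₀ _ h2]
    linear_combination (-a) * h3 + z * h4
  have h1 := log_mul_re_pos hX hY
  have h2 := log_mul_re_pos hU hV
  rw [hprod, h2] at h1
  linear_combination h1

section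
variable {m : ℕ} (ζ : Fin m → ℂ)

/-- The basic block. -/
noncomputable def blk (r : ℝ) (z : ℂ) : ℂ :=
  ∑ j, conj (ζ j) * (-Complex.log (1 - r * ζ j * z))

variable {ζ} (hζ : ∀ j, ‖ζ j‖ = 1)
include hζ

lemma a_norm {r : ℝ} (hr0 : 0 < r) (hr1 : r < 1) (j : Fin m) : ‖(r:ℂ) * ζ j‖ < 1 := by
  rw [norm_mul, hζ, mul_one]; exact norm_t hr0 hr1

lemma az_norm {r : ℝ} (hr0 : 0 < r) (hr1 : r < 1) (j : Fin m) {z : ℂ} (hz : ‖z‖ < 1) :
    ‖(r:ℂ) * ζ j * z‖ < 1 := by
  rw [norm_mul]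
  calc ‖(r:ℂ) * ζ j‖ * ‖z‖ ≤ 1 * ‖z‖ :=
        mul_le_mul_of_nonneg_right (a_norm hζ hr0 hr1 j).le (norm_nonneg _)
    _ < 1 := by rw [one_mul]; exact hz

lemma blk_hasDeriv {r : ℝ} (hr0 : 0 < r) (hr1 : r < 1) {z : ℂ} (hz : ‖z‖ < 1) :
    HasDerivAt (blk ζ r) (∑ j, (r:ℂ) / (1 - r * ζ j * z)) z := by
  unfold blk
  apply HasDerivAt.fun_sum
  intro j _
  have hre := re_pos_of_norm_lt (az_norm hζ hr0 hr1 j hz)
  have h1 : HasDerivAt (fun z : ℂ => 1 - (r:ℂ) * ζ j * z) (-((r:ℂ) * ζ j)) z := by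
    have := ((hasDerivAt_id z).const_mul ((r:ℂ) * ζ j)).const_sub 1
    simpa using this
  have h2 := (h1.clog (Or.inl hre)).neg.const_mul (conj (ζ j))
  have e : conj (ζ j) * -(-((r:ℂ) * ζ j) / (1 - (r:ℂ) * ζ j * z)) = (r:ℂ) / (1 - r * ζ j * z) := by
    have h3 : conj (ζ j) * ζ j = 1 := by
      rw [Complex.conj_mul', hζ]; norm_num
    rw [neg_div, neg_neg, mul_div_assoc', ← mul_assoc, mul_comm (conj (ζ j)) (r:ℂ), mul_assoc, h3, mul_one]
  rw [e] at h2
  exact h2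

lemma blk_diff {r : ℝ} (hr0 : 0 < r) (hr1 : r < 1) : DifferentiableOn ℂ (blk ζ r) (ball 0 1) :=
  fun _ hz => (blk_hasDeriv hζ hr0 hr1 (mem_ball_zero_iff.mp hz)).differentiableAt.differentiableWithinAt

lemma blk_coef_zero {r : ℝ} (hr0 : 0 < r) (hr1 : r < 1) (n : ℕ) :
    coef (blk ζ r) 0 n = (∑ j, conj (ζ j) * (r * ζ j) ^ n) / n := by
  apply coef_unique (ρ := 1) one_pos
  intro z hz
  have hz1 := mem_ball_zero_iff.mp hz
  have hs : shift 0 z = z := by unfold shift; simp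
  rw [hs]
  unfold blk
  have h1 : ∀ j ∈ Finset.univ, HasSum (fun n : ℕ => conj (ζ j) * ((r * ζ j * z) ^ n / n))
      (conj (ζ j) * (-Complex.log (1 - r * ζ j * z))) := fun j _ =>
    (Complex.hasSum_taylorSeries_neg_log (az_norm hζ hr0 hr1 j hz1)).mul_left _
  have h2 := hasSum_sum h1
  have e : (fun n : ℕ => (∑ j, conj (ζ j) * (r * ζ j) ^ n) / n * z ^ n) =
      (fun n : ℕ => ∑ j, conj (ζ j) * ((r * ζ j * z) ^ n / n)) := by
    ext n
    rw [Finset.sum_div, Finset.sum_mul]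
    apply Finset.sum_congr rfl
    intro j _
    rw [mul_pow (r * ζ j)]
    ring
  rw [e]
  exact h2

lemma blk_coef_t {t : ℝ} (ht0 : 0 < t) (ht1 : t < 1) (hsum : ∑ j, conj (ζ j) = 0)
    {r : ℝ} (hr0 : 0 < r) (hr1 : r < 1) (n : ℕ) :
    coef (blk ζ r) t n = (if n = 0 then ∑ j, conj (ζ j) * (-Complex.log (1 + r * ζ j * t)) else 0) +
      (∑ j, conj (ζ j) * (kap t (r * ζ j)) ^ n) / n := by
  apply coef_unique (ρ := 1) one_pos
  intro z hz
  have hz1 := mem_ball_zero_iff.mp hz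
  have hkz : ∀ j, ‖kap t (r * ζ j) * z‖ < 1 := by
    intro j
    rw [norm_mul]
    calc ‖kap t (r * ζ j)‖ * ‖z‖ ≤ 1 * ‖z‖ :=
          mul_le_mul_of_nonneg_right (kap_norm ht0 ht1 (a_norm hζ hr0 hr1 j)).le (norm_nonneg _)
      _ < 1 := by rw [one_mul]; exact hz1
  have h1 : ∀ j ∈ Finset.univ, HasSum (fun n : ℕ => conj (ζ j) * ((kap t (r * ζ j) * z) ^ n / n))
      (conj (ζ j) * (-Complex.log (1 - kap t (r * ζ j) * z))) := fun j _ =>
    (Complex.hasSum_taylorSeries_neg_log (hkz j)).mul_left _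
  have h2 := hasSum_sum h1
  have h3 : HasSum (fun n : ℕ => (if n = 0 then ∑ j, conj (ζ j) * (-Complex.log (1 + r * ζ j * t))
      else 0)) (∑ j, conj (ζ j) * (-Complex.log (1 + r * ζ j * t))) := by
    exact hasSum_ite_eq 0 _
  have h4 := h3.add h2
  have e : (fun n : ℕ => ((if n = 0 then ∑ j, conj (ζ j) * (-Complex.log (1 + r * ζ j * t)) else 0) +
      (∑ j, conj (ζ j) * (kap t (r * ζ j)) ^ n) / n) * z ^ n) =
      (fun n : ℕ => (if n = 0 then ∑ j, conj (ζ j) * (-Complex.log (1 + r * ζ j * t)) else 0) +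
        ∑ j, conj (ζ j) * ((kap t (r * ζ j) * z) ^ n / n)) := by
    ext n
    rw [add_mul]
    congr 1
    · split_ifs with h
      · rw [h, pow_zero, mul_one]
      · rw [zero_mul]
    · rw [Finset.sum_div, Finset.sum_mul]
      apply Finset.sum_congr rfl
      intro j _
      rw [mul_pow (kap t (r * ζ j))]
      ring
  have hval : blk ζ r (shift t z) = (∑ j, conj (ζ j) * (-Complex.log (1 + r * ζ j * t))) +
      ∑ j, conj (ζ j) * (-Complex.log (1 - kap t (r * ζ j) * z)) := by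
    unfold blk
    have h5 : ∀ j, conj (ζ j) * (-Complex.log (1 - r * ζ j * shift t z)) =
        conj (ζ j) * (-Complex.log (1 + r * ζ j * t)) +
        conj (ζ j) * (-Complex.log (1 - kap t (r * ζ j) * z)) -
        conj (ζ j) * (-Complex.log (1 - t * z)) := by
      intro j
      rw [log_identity ht0 ht1 (a_norm hζ hr0 hr1 j) hz1]
      ring
    rw [Finset.sum_congr rfl (fun j _ => h5 j), Finset.sum_sub_distrib, Finset.sum_add_distrib,
      ← Finset.sum_mul, hsum, zero_mul, sub_zero]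
  rw [e, hval]
  exact h4

end

lemma quot_re_nonneg {g g' : ℂ → ℂ} (hg : ∀ z, ‖z‖ < 1 → HasDerivAt g (g' z) z)
    (hre : ∀ z, ‖z‖ < 1 → 0 ≤ (g' z).re) {z w : ℂ} (hz : ‖z‖ < 1) (hw : ‖w‖ < 1) (hne : z ≠ w) :
    0 ≤ ((g z - g w) / (z - w)).re := by
  have hzw : z - w ≠ 0 := sub_ne_zero.mpr hne
  have hseg : ∀ s : ℝ, s ∈ Icc (0:ℝ) 1 → ‖w + s * (z - w)‖ < 1 := by
    intro s hs
    have h1 : w + s * (z - w) = ((1 - s : ℝ) : ℂ) * w + (s:ℂ) * z := by push_cast; ring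
    rw [h1]
    have hconv := convex_ball (0:ℂ) 1
    have h2 := hconv (mem_ball_zero_iff.mpr hw) (mem_ball_zero_iff.mpr hz)
      (show (0:ℝ) ≤ 1 - s by linarith [hs.2]) hs.1 (by ring)
    have h3 := mem_ball_zero_iff.mp h2
    simpa [Complex.real_smul] using h3
  have hder : ∀ s : ℝ, s ∈ Icc (0:ℝ) 1 → HasDerivAt (fun s : ℝ => (g (w + s * (z - w)) / (z - w)).re)
      (g' (w + s * (z - w))).re s := by
    intro s hs
    have h1 : HasDerivAt (fun s : ℝ => w + (s:ℂ) * (z - w)) (z - w) s := by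
      have := (Complex.ofRealCLM.hasDerivAt (x := s)).mul_const (z - w)
      have h2 := this.const_add w
      simpa using h2
    have h2 := ((hg _ (hseg s hs)).comp_of_eq s h1 rfl).div_const (z - w)
    have h3 := (Complex.reCLM.hasFDerivAt.comp_hasDerivAt s h2)
    have e : Complex.reCLM (g' (w + s * (z - w)) * (z - w) / (z - w)) = (g' (w + s * (z - w))).re := by
      rw [mul_div_assoc, div_self hzw, mul_one]; rfl
    rw [e] at h3
    exact h3
  have hmono : MonotoneOn (fun s : ℝ => (g (w + s * (z - w)) / (z - w)).re) (Icc (0:ℝ) 1) := by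
    apply monotoneOn_of_deriv_nonneg (convex_Icc 0 1)
    · intro s hs
      exact (hder s hs).continuousAt.continuousWithinAt
    · intro s hs
      rw [interior_Icc] at hs
      exact (hder s (Ioo_subset_Icc_self hs)).differentiableAt.differentiableWithinAt
    · intro s hs
      rw [interior_Icc] at hs
      rw [(hder s (Ioo_subset_Icc_self hs)).deriv]
      exact hre _ (hseg s (Ioo_subset_Icc_self hs))
  have h := hmono (left_mem_Icc.mpr zero_le_one) (right_mem_Icc.mpr zero_le_one) zero_le_one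
  simp only [Complex.ofReal_zero, zero_mul, add_zero, Complex.ofReal_one, one_mul,
    add_sub_cancel] at h
  rw [sub_div, Complex.sub_re]
  linarith

end Pool.Agent.helper22.Mob
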