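import Mathlib
import Pool.Agent.helper22.Mob.Block
open Complex Metric Set Filter Topology
open scoped ComplexConjugate

namespace Pool.Agent.helper22.Mob

/-- The `m`-th roots of unity. -/
noncomputable def rt (m : ℕ) (j : Fin m) : ℂ := Complex.exp (2 * Real.pi * I / m) ^ (j : ℕ)

lemma prim {m : ℕ} (hm : 2 ≤ m) : IsPrimitiveRoot (Complex.exp (2 * Real.pi * I / m)) m :=
  Complex.isPrimitiveRoot_exp m (by omega)

lemma rt_norm {m : ℕ} (hm : 2 ≤ m) (j : Fin m) : ‖rt m j‖ = 1 := by
  unfold rt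
  rw [norm_pow, (prim hm).norm'_eq_one (by omega), one_pow]

lemma rt_inj {m : ℕ} (hm : 2 ≤ m) : Function.Injective (rt m) := by
  intro i j h
  unfold rt at h
  exact Fin.ext ((prim hm).pow_inj i.2 j.2 h)

lemma conj_eq_inv_of_norm_one {z : ℂ} (hz : ‖z‖ = 1) : conj z = z⁻¹ := by
  rw [Complex.inv_def, Complex.normSq_eq_norm_sq, hz]; simp

lemma rt_sum {m : ℕ} (hm : 2 ≤ m) : ∑ j, conj (rt m j) = 0 := by
  rw [← map_sum]
  unfold rt
  rw [Fin.sum_univ_eq_sum_range (fun j => Complex.exp (2 * Real.pi * I / m) ^ j) m,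
    (prim hm).geom_sum_eq_zero (by omega), map_zero]

lemma rt_char {m : ℕ} (hm : 2 ≤ m) (n : ℕ) :
    ∑ j, conj (rt m j) * rt m j ^ (n + 1) = if m ∣ n then (m:ℂ) else 0 := by
  have h1 : ∀ j : Fin m, conj (rt m j) * rt m j ^ (n + 1) =
      (Complex.exp (2 * Real.pi * I / m) ^ n) ^ (j:ℕ) := by
    intro j
    have h0 : rt m j ≠ 0 := by
      intro h; have := rt_norm hm j; rw [h, norm_zero] at this; norm_num at this
    rw [conj_eq_inv_of_norm_one (rt_norm hm j), pow_succ', ← mul_assoc, inv_mul_cancel₀ h0, one_mul]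
    unfold rt
    rw [← pow_mul, ← pow_mul, mul_comm (j:ℕ) n]
  rw [Finset.sum_congr rfl (fun j _ => h1 j),
    Fin.sum_univ_eq_sum_range (fun j => (Complex.exp (2 * Real.pi * I / m) ^ n) ^ j) m]
  split_ifs with h
  · rw [((prim hm).pow_eq_one_iff_dvd n).mpr h]
    simp
  · have hne : Complex.exp (2 * Real.pi * I / m) ^ n ≠ 1 := fun h' =>
      h (((prim hm).pow_eq_one_iff_dvd n).mp h')
    have h2 := geom_sum_eq hne m
    rw [h2, ← pow_mul, mul_comm n m, pow_mul, (prim hm).pow_eq_one, one_pow, sub_self, zero_div]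

/-- The absolute sum of the Taylor coefficients of the block at the origin. -/
lemma blk_norm_zero {m : ℕ} (hm : 2 ≤ m) {r : ℝ} (hr0 : 0 < r) (hr1 : r < 1) :
    Summable (fun n => ‖coef (blk (rt m) r) 0 n‖) ∧
      ∑' n, ‖coef (blk (rt m) r) 0 n‖ ≤ m - Real.log (1 - r) := by
  have hmpos : (0:ℝ) < m := by positivity
  have hf : ∀ n, ‖coef (blk (rt m) r) 0 (n + 1)‖ =
      if m ∣ n then r ^ (n + 1) * m / (n + 1 : ℕ) else 0 := by
    intro n
    rw [blk_coef_zero (rt_norm hm) hr0 hr1]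
    have h1 : ∑ j, conj (rt m j) * (r * rt m j) ^ (n + 1) =
        (r:ℂ) ^ (n + 1) * ∑ j, conj (rt m j) * rt m j ^ (n + 1) := by
      rw [Finset.mul_sum]
      apply Finset.sum_congr rfl
      intro j _
      rw [mul_pow]; ring
    rw [h1, rt_char hm]
    split_ifs with h
    · rw [norm_div, norm_mul, norm_pow, Complex.norm_real, Complex.norm_natCast, Complex.norm_natCast,
        Real.norm_eq_abs, abs_of_pos hr0]
    · rw [mul_zero, zero_div, norm_zero]
  have hf0 : ‖coef (blk (rt m) r) 0 0‖ = 0 := by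
    rw [blk_coef_zero (rt_norm hm) hr0 hr1]; simp
  have hinj : Function.Injective (fun k : ℕ => m * k + 1) := by
    intro a b h
    have h' : m * a + 1 = m * b + 1 := h
    have : m * a = m * b := by omega
    exact Nat.eq_of_mul_eq_mul_left (by omega) this
  have hout : ∀ n, n ∉ Set.range (fun k : ℕ => m * k + 1) → ‖coef (blk (rt m) r) 0 n‖ = 0 := by
    intro n hn
    rcases n with _ | n
    · exact hf0
    · rw [hf, if_neg]
      rintro ⟨k, hk⟩
      exact hn ⟨k, by simp [hk]⟩
  -- comparison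
  have hrm0 : 0 < r ^ m := by positivity
  have hrm1 : r ^ m < 1 := pow_lt_one₀ hr0.le hr1 (by omega)
  have hg : HasSum (fun k : ℕ => (if k = 0 then (m:ℝ) else 0) + (r ^ m) ^ k / k)
      (m + -Real.log (1 - r ^ m)) := by
    apply (hasSum_ite_eq 0 (m:ℝ)).add
    have h1 := Real.hasSum_pow_div_log_of_abs_lt_one (x := r ^ m) (by rw [abs_of_pos hrm0]; exact hrm1)
    rw [← hasSum_nat_add_iff' 1]
    simpa using h1
  have hle : ∀ k : ℕ, ‖coef (blk (rt m) r) 0 (m * k + 1)‖ ≤
      (if k = 0 then (m:ℝ) else 0) + (r ^ m) ^ k / k := by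
    intro k
    rw [hf, if_pos (dvd_mul_right m k)]
    rcases Nat.eq_zero_or_pos k with h | h
    · subst h
      simp only [mul_zero, zero_add, pow_one, if_true, pow_zero, Nat.cast_one, div_one, Nat.cast_zero,
        div_zero, add_zero]
      nlinarith
    · rw [if_neg (by omega), zero_add, pow_succ, pow_mul]
      have hk : (0:ℝ) < k := by exact_mod_cast h
      rw [div_le_div_iff₀ (by positivity) hk]
      push_cast
      have h2 : 0 < (r ^ m) ^ k := by positivity
      have h3 : r * m * k ≤ m * k + 1 := by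
        have h4 : r * (m * k) ≤ 1 * (m * k) := mul_le_mul_of_nonneg_right hr1.le (by positivity)
        linarith
      nlinarith
  have hs1 : Summable (fun k : ℕ => ‖coef (blk (rt m) r) 0 (m * k + 1)‖) :=
    Summable.of_nonneg_of_le (fun _ => norm_nonneg _) hle hg.summable
  have hs2 : HasSum (fun n => ‖coef (blk (rt m) r) 0 n‖)
      (∑' k : ℕ, ‖coef (blk (rt m) r) 0 (m * k + 1)‖) := by
    rw [← hinj.hasSum_iff hout]
    exact hs1.hasSum
  refine ⟨hs2.summable, ?_⟩
  rw [hs2.tsum_eq]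
  calc ∑' k : ℕ, ‖coef (blk (rt m) r) 0 (m * k + 1)‖ ≤ _ := hs1.tsum_le_tsum hle hg.summable
    _ = m + -Real.log (1 - r ^ m) := hg.tsum_eq
    _ ≤ m - Real.log (1 - r) := by
        have h5 : Real.log (1 - r) ≤ Real.log (1 - r ^ m) := by
          apply Real.log_le_log (by linarith)
          have : r ^ m ≤ r ^ 1 := pow_le_pow_of_le_one hr0.le hr1.le (by omega)
          rw [pow_one] at this
          linarith
        linarith

end Pool.Agent.helper22.Mob
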