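import Mathlib
import Pool.Agent.helper22.Mob.Roots
open Complex Metric Set Filter Topology
open scoped ComplexConjugate

namespace Pool.Agent.helper22.Mob

lemma one_add_ne {t : ℝ} (ht0 : 0 < t) (ht1 : t < 1) {a : ℂ} (ha : ‖a‖ ≤ 1) : 1 + a * t ≠ 0 := by
  have := den_ne (w := -(t:ℂ)) (z := a) (by rw [norm_neg]; exact norm_t ht0 ht1) ha
  rw [map_neg, Complex.conj_ofReal] at this
  intro h; apply this; rw [← h]; ring

lemma kap_mul {t : ℝ} (ht0 : 0 < t) (ht1 : t < 1) {a : ℂ} (ha : ‖a‖ ≤ 1) :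
    kap t a * (1 + a * t) = t + a := by
  unfold kap; rw [div_mul_cancel₀ _ (one_add_ne ht0 ht1 ha)]

lemma kap_normSq {t : ℝ} (a : ℂ) :
    ‖1 + a * t‖ ^ 2 - ‖t + a‖ ^ 2 = (1 - ‖a‖ ^ 2) * (1 - t ^ 2) := by
  have h := normSq_identity (-(t:ℂ)) a
  rw [map_neg, Complex.conj_ofReal] at h
  have e1 : 1 - -(t:ℂ) * a = 1 + a * t := by ring
  have e2 : a - -(t:ℂ) = t + a := by ring
  rw [e1, e2, norm_neg, Complex.norm_real, Real.norm_eq_abs, sq_abs] at h
  exact h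

lemma kap_norm_one {t : ℝ} (ht0 : 0 < t) (ht1 : t < 1) {a : ℂ} (ha : ‖a‖ = 1) : ‖kap t a‖ = 1 := by
  have h1 := one_add_ne ht0 ht1 ha.le
  have h2 := kap_normSq (t := t) a
  rw [ha] at h2
  have h3 : ‖1 + a * t‖ = ‖t + a‖ := by
    have h4 : ‖1 + a * t‖ ^ 2 = ‖t + a‖ ^ 2 := by linarith
    exact (pow_left_inj₀ (norm_nonneg _) (norm_nonneg _) (by norm_num)).mp h4
  unfold kap
  rw [norm_div, ← h3, div_self (norm_ne_zero_iff.mpr h1)]

lemma kap_inj {t : ℝ} (ht0 : 0 < t) (ht1 : t < 1) {a b : ℂ} (ha : ‖a‖ ≤ 1) (hb : ‖b‖ ≤ 1)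
    (h : kap t a = kap t b) : a = b := by
  have h1 := kap_mul ht0 ht1 ha
  have h2 := kap_mul ht0 ht1 hb
  rw [h] at h1
  have h3 : (a - b) * (1 - (t:ℂ) ^ 2) = 0 := by
    linear_combination (-(1 + b * t)) * h1 + (1 + a * t) * h2
  have h4 : (1 - (t:ℂ) ^ 2) ≠ 0 := by
    have : (1 - t ^ 2 : ℝ) ≠ 0 := by nlinarith
    exact_mod_cast this
  rcases mul_eq_zero.mp h3 with h5 | h5
  · exact sub_eq_zero.mp h5
  · exact absurd h5 h4

lemma quad_identity {t : ℝ} (ht0 : 0 < t) (ht1 : t < 1) {a b c d : ℂ} (ha : ‖a‖ ≤ 1) (hb : ‖b‖ ≤ 1)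
    (hc : ‖c‖ ≤ 1) (hd : ‖d‖ ≤ 1) (h : kap t a * kap t b = kap t c * kap t d) :
    (a * b - c * d) * (1 + (t:ℂ) ^ 2) +
      (t:ℂ) * ((a + b) - (c + d) + (a * b * (c + d) - c * d * (a + b))) = 0 := by
  have h1 := kap_mul ht0 ht1 ha
  have h2 := kap_mul ht0 ht1 hb
  have h3 := kap_mul ht0 ht1 hc
  have h4 := kap_mul ht0 ht1 hd
  have h5 : ((t:ℂ) + a) * (t + b) * ((1 + c * t) * (1 + d * t)) =
      (t + c) * (t + d) * ((1 + a * t) * (1 + b * t)) := by
    rw [← h1, ← h2, ← h3, ← h4]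
    linear_combination ((1 + a * t) * (1 + b * t) * (1 + c * t) * (1 + d * t)) * h
  have h6 : (1 - (t:ℂ) ^ 2) ≠ 0 := by
    have : (1 - t ^ 2 : ℝ) ≠ 0 := by nlinarith
    exact_mod_cast this
  apply mul_left_cancel₀ h6
  linear_combination h5

lemma bad_subsingleton (A B : ℂ) (hAB : ¬ (A = 0 ∧ B = 0)) :
    ({t : ℝ | t ∈ Ioo (0:ℝ) 1 ∧ A * (1 + (t:ℂ) ^ 2) + (t:ℂ) * B = 0}).Subsingleton := by
  intro t ht u hu
  obtain ⟨ht1, ht2⟩ := ht
  obtain ⟨hu1, hu2⟩ := hu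
  by_contra hne
  apply hAB
  have hA : A = 0 := by
    have h1 : A * (((u:ℂ) - t) * (1 - t * u)) = 0 := by
      linear_combination (u:ℂ) * ht2 - (t:ℂ) * hu2
    rcases mul_eq_zero.mp h1 with h2 | h2
    · exact h2
    · exfalso
      rcases mul_eq_zero.mp h2 with h3 | h3
      · apply hne
        have h4 : (u:ℂ) = t := sub_eq_zero.mp h3
        exact_mod_cast h4.symm
      · have h4 : (1 - t * u : ℝ) = 0 := by exact_mod_cast h3
        have h5 : t * u < 1 * 1 := mul_lt_mul'' ht1.2 hu1.2 ht1.1.le hu1.1.le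
        linarith
  refine ⟨hA, ?_⟩
  rw [hA, zero_mul, zero_add] at ht2
  rcases mul_eq_zero.mp ht2 with h2 | h2
  · exfalso
    have h3 : t = 0 := by exact_mod_cast h2
    rw [h3] at ht1
    exact lt_irrefl _ ht1.1
  · exact h2

/-- The root of unity with natural number index. -/
noncomputable def rtn (m j : ℕ) : ℂ := Complex.exp (2 * Real.pi * I / m) ^ j

/-- A generic parameter. -/
def Good (t : ℝ) : Prop := ∀ (m i j k l : ℕ),
  (rtn m i * rtn m j - rtn m k * rtn m l) * (1 + (t:ℂ) ^ 2) +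
    (t:ℂ) * ((rtn m i + rtn m j) - (rtn m k + rtn m l) +
      (rtn m i * rtn m j * (rtn m k + rtn m l) - rtn m k * rtn m l * (rtn m i + rtn m j))) = 0 →
  rtn m i * rtn m j = rtn m k * rtn m l ∧
    (rtn m i + rtn m j) - (rtn m k + rtn m l) +
      (rtn m i * rtn m j * (rtn m k + rtn m l) - rtn m k * rtn m l * (rtn m i + rtn m j)) = 0

lemma exists_good : ∃ t : ℝ, 0 < t ∧ t < 1 ∧ Good t := by
  classical
  let A : ℕ × ℕ × ℕ × ℕ × ℕ → ℂ := fun p =>
    rtn p.1 p.2.1 * rtn p.1 p.2.2.1 - rtn p.1 p.2.2.2.1 * rtn p.1 p.2.2.2.2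
  let B : ℕ × ℕ × ℕ × ℕ × ℕ → ℂ := fun p =>
    (rtn p.1 p.2.1 + rtn p.1 p.2.2.1) - (rtn p.1 p.2.2.2.1 + rtn p.1 p.2.2.2.2) +
      (rtn p.1 p.2.1 * rtn p.1 p.2.2.1 * (rtn p.1 p.2.2.2.1 + rtn p.1 p.2.2.2.2) -
        rtn p.1 p.2.2.2.1 * rtn p.1 p.2.2.2.2 * (rtn p.1 p.2.1 + rtn p.1 p.2.2.1))
  let bad : ℕ × ℕ × ℕ × ℕ × ℕ → Set ℝ := fun p =>
    {t : ℝ | t ∈ Ioo (0:ℝ) 1 ∧ ¬ (A p = 0 ∧ B p = 0) ∧ A p * (1 + (t:ℂ) ^ 2) + (t:ℂ) * B p = 0}
  have hcount : (⋃ p, bad p).Countable := by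
    apply Set.countable_iUnion
    intro p
    by_cases h : A p = 0 ∧ B p = 0
    · have : bad p = ∅ := by
        ext t
        simp only [bad, Set.mem_ofPred_eq, Set.mem_empty_iff_false, iff_false]
        rintro ⟨_, h2, _⟩
        exact h2 h
      rw [this]; exact Set.countable_empty
    · apply Set.Subsingleton.countable
      intro t ht u hu
      exact bad_subsingleton (A p) (B p) h ⟨ht.1, ht.2.2⟩ ⟨hu.1, hu.2.2⟩
  have hunc : ¬ (Ioo (0:ℝ) 1).Countable := by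
    rw [Cardinal.Real.Ioo_countable_iff]; norm_num
  have hex : ∃ t ∈ Ioo (0:ℝ) 1, t ∉ ⋃ p, bad p := by
    by_contra hcon
    apply hunc
    apply hcount.mono
    intro t ht
    by_contra h
    exact hcon ⟨t, ht, h⟩
  obtain ⟨t, ht, hnot⟩ := hex
  refine ⟨t, ht.1, ht.2, ?_⟩
  intro m i j k l h
  by_contra hcon
  apply hnot
  rw [Set.mem_iUnion]
  refine ⟨(m, i, j, k, l), ht, ?_, h⟩
  rintro ⟨h1, h2⟩
  exact hcon ⟨sub_eq_zero.mp h1, h2⟩

lemma good_coincide {t : ℝ} (ht0 : 0 < t) (ht1 : t < 1) (hg : Good t) {m : ℕ} (hm : 2 ≤ m)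
    {i j k l : Fin m} (h : kap t (rt m i) * kap t (rt m j) = kap t (rt m k) * kap t (rt m l)) :
    (k = i ∧ l = j) ∨ (k = j ∧ l = i) ∨ (rt m i * rt m j = 1 ∧ rt m k * rt m l = 1) := by
  have hn := fun i => (rt_norm hm i).le
  have h1 := quad_identity ht0 ht1 (hn i) (hn j) (hn k) (hn l) h
  obtain ⟨h2, h3⟩ := hg m i j k l h1
  change rt m i * rt m j = rt m k * rt m l at h2
  change (rt m i + rt m j) - (rt m k + rt m l) +
      (rt m i * rt m j * (rt m k + rt m l) - rt m k * rt m l * (rt m i + rt m j)) = 0 at h3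
  have h4 : ((rt m i + rt m j) - (rt m k + rt m l)) * (1 - rt m i * rt m j) = 0 := by
    linear_combination h3 + (-(rt m i + rt m j)) * h2
  rcases mul_eq_zero.mp h4 with h5 | h5
  · -- equal sums and products
    have h6 : (rt m k - rt m i) * (rt m k - rt m j) = 0 := by
      linear_combination (-(rt m k)) * h5 + h2
    rcases mul_eq_zero.mp h6 with h7 | h7
    · left
      have h8 : rt m k = rt m i := sub_eq_zero.mp h7
      refine ⟨rt_inj hm h8, ?_⟩
      apply rt_inj hm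
      linear_combination (-1 : ℂ) * h5 - h8
    · right; left
      have h8 : rt m k = rt m j := sub_eq_zero.mp h7
      refine ⟨rt_inj hm h8, ?_⟩
      apply rt_inj hm
      linear_combination (-1 : ℂ) * h5 - h8
  · right; right
    have h6 : rt m i * rt m j = 1 := by linear_combination -h5
    exact ⟨h6, by rw [← h2]; exact h6⟩

/-- The number of coincidences. -/
lemma card_coincide {t : ℝ} (ht0 : 0 < t) (ht1 : t < 1) (hg : Good t) {m : ℕ} (hm : 2 ≤ m)
    [DecidablePred fun p : (Fin m × Fin m) × (Fin m × Fin m) =>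
      kap t (rt m p.1.1) * kap t (rt m p.1.2) = kap t (rt m p.2.1) * kap t (rt m p.2.2)] :
    (Finset.univ.filter fun p : (Fin m × Fin m) × (Fin m × Fin m) =>
      kap t (rt m p.1.1) * kap t (rt m p.1.2) = kap t (rt m p.2.1) * kap t (rt m p.2.2)).card ≤
      3 * m ^ 2 := by
  classical
  have h0 : ∀ i, rt m i ≠ 0 := by
    intro i h; have := rt_norm hm i; rw [h, norm_zero] at this; norm_num at this
  let σ : Fin m → Fin m := fun i => if h : ∃ j, rt m i * rt m j = 1 then h.choose else i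
  have hσ : ∀ i j, rt m i * rt m j = 1 → j = σ i := by
    intro i j hij
    have hex : ∃ j, rt m i * rt m j = 1 := ⟨j, hij⟩
    have h1 : σ i = hex.choose := by simp only [σ]; rw [dif_pos hex]
    rw [h1]
    apply rt_inj hm
    apply mul_left_cancel₀ (h0 i)
    rw [hij, hex.choose_spec]
  have hsub : (Finset.univ.filter fun p : (Fin m × Fin m) × (Fin m × Fin m) =>
      kap t (rt m p.1.1) * kap t (rt m p.1.2) = kap t (rt m p.2.1) * kap t (rt m p.2.2)) ⊆
      (Finset.univ.image fun q : Fin m × Fin m => (q, q)) ∪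
      (Finset.univ.image fun q : Fin m × Fin m => (q, (q.2, q.1))) ∪
      (Finset.univ.image fun q : Fin m × Fin m => ((q.1, σ q.1), (q.2, σ q.2))) := by
    rintro ⟨⟨i, j⟩, ⟨k, l⟩⟩ hp
    rw [Finset.mem_filter] at hp
    have hp2 : kap t (rt m i) * kap t (rt m j) = kap t (rt m k) * kap t (rt m l) := hp.2
    rcases good_coincide ht0 ht1 hg hm hp2 with ⟨h1, h2⟩ | ⟨h1, h2⟩ | ⟨h1, h2⟩
    · rw [h1, h2]
      simp
    · rw [h1, h2]
      simp
    · rw [hσ i j h1, hσ k l h2]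
      simp
  refine (Finset.card_le_card hsub).trans ?_
  have hc : (Finset.univ : Finset (Fin m × Fin m)).card = m ^ 2 := by
    rw [Finset.card_univ, Fintype.card_prod, Fintype.card_fin, sq]
  refine (Finset.card_union_le _ _).trans ?_
  have h1 := Finset.card_union_le (Finset.univ.image fun q : Fin m × Fin m => (q, q))
    (Finset.univ.image fun q : Fin m × Fin m => (q, (q.2, q.1)))
  have h2 := Finset.card_image_le (s := Finset.univ) (f := fun q : Fin m × Fin m => (q, q))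
  have h3 := Finset.card_image_le (s := Finset.univ) (f := fun q : Fin m × Fin m => (q, (q.2, q.1)))
  have h4 := Finset.card_image_le (s := Finset.univ)
    (f := fun q : Fin m × Fin m => ((q.1, σ q.1), (q.2, σ q.2)))
  rw [hc] at h2 h3 h4
  omega

end Pool.Agent.helper22.Mob
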