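import Mathlib
import Pool.Agent.helper22.Mob.Generic
open Complex Metric Set Filter Topology
open scoped ComplexConjugate

namespace Pool.Agent.helper22.Mob

lemma fin_bound {ι : Type*} [Fintype ι] {l : Filter ℝ} (f : ι → ℝ → ℝ)
    (h : ∀ i, ∃ C : ℝ, ∀ᶠ r in l, f i r ≤ C) : ∃ C : ℝ, 0 ≤ C ∧ ∀ᶠ r in l, ∀ i, f i r ≤ C := by
  choose C hC using h
  refine ⟨∑ i, |C i|, Finset.sum_nonneg (fun i _ => abs_nonneg _), ?_⟩
  rw [Filter.eventually_all]
  intro i
  filter_upwards [hC i] with r hr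
  refine hr.trans ((le_abs_self _).trans ?_)
  exact Finset.single_le_sum (f := fun i => |C i|) (fun i _ => abs_nonneg _) (Finset.mem_univ i)

lemma kap_cont {t : ℝ} (ht0 : 0 < t) (ht1 : t < 1) {a : ℂ} (ha : ‖a‖ = 1) :
    ContinuousAt (fun r : ℝ => kap t (r * a)) 1 := by
  unfold kap
  apply ContinuousAt.div
  · fun_prop
  · fun_prop
  · apply one_add_ne ht0 ht1
    simp [ha]

lemma kap_one (t : ℝ) (a : ℂ) : kap t (((1:ℝ):ℂ) * a) = kap t a := by
  rw [Complex.ofReal_one, one_mul]

/-- Bounds for `1 - |κ|^2`. -/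
lemma kap_gap {t : ℝ} (ht0 : 0 < t) (ht1 : t < 1) {a : ℂ} {r : ℝ} (hr0 : 0 < r) (hr1 : r < 1)
    (ha : ‖a‖ = r) : 1 - ‖kap t a‖ ^ 2 ≤ 2 * (1 + t) / (1 - t) * (1 - r) ∧
      (1 - t) / (1 + t) * (1 - r) ≤ 1 - ‖kap t a‖ ^ 2 := by
  have hne := one_add_ne ht0 ht1 (show ‖a‖ ≤ 1 by rw [ha]; exact hr1.le)
  have h1 := kap_normSq (t := t) a
  have hpos : 0 < ‖1 + a * t‖ := norm_pos_iff.mpr hne
  have h2 : 1 - ‖kap t a‖ ^ 2 = (1 - r ^ 2) * (1 - t ^ 2) / ‖1 + a * t‖ ^ 2 := by
    unfold kap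
    have h5 : ‖1 + a * t‖ ^ 2 ≠ 0 := by positivity
    rw [norm_div, div_pow, ← ha, ← h1, sub_div, div_self h5]
  have hlow : 1 - t ≤ ‖1 + a * t‖ := by
    have h3 := norm_sub_norm_le (1:ℂ) (-(a * t))
    rw [norm_one, norm_neg, norm_mul, ha, Complex.norm_real, Real.norm_eq_abs, abs_of_pos ht0,
      sub_neg_eq_add] at h3
    nlinarith
  have hup : ‖1 + a * t‖ ≤ 1 + t := by
    have h3 := norm_add_le (1:ℂ) (a * t)
    rw [norm_one, norm_mul, ha, Complex.norm_real, Real.norm_eq_abs, abs_of_pos ht0] at h3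
    nlinarith
  have h1t : 0 < 1 - t := by linarith
  have h1r : 0 < 1 - r := by linarith
  rw [h2]
  constructor
  · rw [div_le_iff₀ (by positivity)]
    have h4 : (1 - t) ^ 2 ≤ ‖1 + a * t‖ ^ 2 := pow_le_pow_left₀ h1t.le hlow 2
    calc (1 - r ^ 2) * (1 - t ^ 2) ≤ (2 * (1 - r)) * (1 - t ^ 2) := by
          apply mul_le_mul_of_nonneg_right _ (by nlinarith)
          nlinarith
      _ = 2 * (1 + t) / (1 - t) * (1 - r) * (1 - t) ^ 2 := by field_simp; ring
      _ ≤ 2 * (1 + t) / (1 - t) * (1 - r) * ‖1 + a * t‖ ^ 2 := by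
          apply mul_le_mul_of_nonneg_left h4; positivity
  · rw [le_div_iff₀ (by positivity)]
    have h4 : ‖1 + a * t‖ ^ 2 ≤ (1 + t) ^ 2 := pow_le_pow_left₀ hpos.le hup 2
    calc (1 - t) / (1 + t) * (1 - r) * ‖1 + a * t‖ ^ 2 ≤ (1 - t) / (1 + t) * (1 - r) * (1 + t) ^ 2 := by
          apply mul_le_mul_of_nonneg_left h4; positivity
      _ = (1 - r) * (1 - t ^ 2) := by field_simp; ring
      _ ≤ (1 - r ^ 2) * (1 - t ^ 2) := by
          apply mul_le_mul_of_nonneg_right _ (by nlinarith)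
          nlinarith

lemma kap_gap1 {t : ℝ} (ht0 : 0 < t) (ht1 : t < 1) {a : ℂ} {r : ℝ} (hr0 : 0 < r) (hr1 : r < 1)
    (ha : ‖a‖ = r) : (1 - t) / (2 * (1 + t)) * (1 - r) ≤ 1 - ‖kap t a‖ := by
  have h1 := (kap_gap ht0 ht1 hr0 hr1 ha).2
  have h2 := kap_norm ht0 ht1 (show ‖a‖ < 1 by rw [ha]; exact hr1)
  have h3 : 1 - ‖kap t a‖ ^ 2 ≤ 2 * (1 - ‖kap t a‖) := by nlinarith [norm_nonneg (kap t a)]
  have h4 : (1 - t) / (2 * (1 + t)) * (1 - r) = ((1 - t) / (1 + t) * (1 - r)) / 2 := by
    field_simp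
  rw [h4]
  linarith

lemma ev_Ioo : ∀ᶠ r : ℝ in 𝓝[<] (1:ℝ), 0 < r ∧ r < 1 :=
  Ioo_mem_nhdsLT (show (0:ℝ) < 1 by norm_num)

section
variable {t : ℝ} (ht0 : 0 < t) (ht1 : t < 1) {m : ℕ} (hm : 2 ≤ m)
include ht0 ht1 hm

omit ht0 ht1 in
lemma rnorm {r : ℝ} (hr0 : 0 < r) (i : Fin m) : ‖(r:ℂ) * rt m i‖ = r := by
  rw [norm_mul, rt_norm hm, mul_one, Complex.norm_real, Real.norm_eq_abs, abs_of_pos hr0]

lemma diag_lower {r : ℝ} (hr0 : 0 < r) (hr1 : r < 1) (i : Fin m) :
    -Real.log (1 - r) - Real.log (2 * (1 + t) / (1 - t)) ≤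
    (conj (rt m i) * conj (conj (rt m i)) *
      (-Complex.log (1 - kap t (r * rt m i) * conj (kap t (r * rt m i))))).re := by
  have hn := rnorm hm hr0 i
  have h1 : conj (rt m i) * conj (conj (rt m i)) = 1 := by
    rw [Complex.mul_conj', RCLike.norm_conj, rt_norm hm]; norm_num
  have h2 : (1:ℂ) - kap t (r * rt m i) * conj (kap t (r * rt m i)) =
      ((1 - ‖kap t (r * rt m i)‖ ^ 2 : ℝ) : ℂ) := by
    rw [Complex.mul_conj']; push_cast; ring
  have hg := kap_gap ht0 ht1 hr0 hr1 hn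
  have h1t : 0 < 1 - t := by linarith
  have h1r : 0 < 1 - r := by linarith
  have hpos : 0 < 1 - ‖kap t (r * rt m i)‖ ^ 2 := lt_of_lt_of_le (by positivity) hg.2
  rw [h1, h2, ← Complex.ofReal_log hpos.le, one_mul, ← Complex.ofReal_neg, Complex.ofReal_re]
  have h3 := Real.log_le_log hpos hg.1
  rw [Real.log_mul (by positivity) (by positivity)] at h3
  linarith

omit ht0 ht1 hm in
lemma term_le_norm {c d L : ℂ} (hc : ‖c‖ = 1) (hd : ‖d‖ = 1) : |(c * d * (-L)).re| ≤ ‖L‖ := by
  have := Complex.abs_re_le_norm (c * d * (-L))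
  rwa [norm_mul, norm_mul, hc, hd, norm_neg, one_mul, one_mul] at this

lemma S2_lower : ∃ C : ℝ, ∀ᶠ r : ℝ in 𝓝[<] (1:ℝ), m * (-Real.log (1 - r)) - C ≤
    ∑ i, ∑ j, (conj (rt m i) * conj (conj (rt m j)) *
      (-Complex.log (1 - kap t (r * rt m i) * conj (kap t (r * rt m j))))).re := by
  obtain ⟨C1, hC1, hev⟩ := fin_bound (l := 𝓝[<] (1:ℝ)) (fun (p : Fin m × Fin m) (r : ℝ) =>
    if p.1 = p.2 then 0 else ‖Complex.log (1 - kap t (r * rt m p.1) * conj (kap t (r * rt m p.2)))‖)
    (by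
      rintro ⟨i, j⟩
      by_cases hij : i = j
      · refine ⟨0, Filter.Eventually.of_forall (fun r => ?_)⟩
        simp [hij]
      · simp only [if_neg hij]
        apply log_bdd (u := fun r : ℝ => kap t (r * rt m i) * conj (kap t (r * rt m j)))
        · exact (kap_cont ht0 ht1 (rt_norm hm i)).mul
            (Complex.continuous_conj.continuousAt.comp (kap_cont ht0 ht1 (rt_norm hm j)))
        · simp only [kap_one]
          rw [norm_mul, RCLike.norm_conj, kap_norm_one ht0 ht1 (rt_norm hm i),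
            kap_norm_one ht0 ht1 (rt_norm hm j), one_mul]
        · simp only [kap_one]
          intro h
          have h1 := kap_norm_one ht0 ht1 (rt_norm hm j)
          have h2 : conj (kap t (rt m j)) * kap t (rt m j) = 1 := by
            rw [Complex.conj_mul', h1]; norm_num
          apply hij
          apply rt_inj hm
          apply kap_inj ht0 ht1 (rt_norm hm i).le (rt_norm hm j).le
          linear_combination (kap t (rt m j)) * h - kap t (rt m i) * h2)
  refine ⟨m * Real.log (2 * (1 + t) / (1 - t)) + m * (m * C1), ?_⟩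
  filter_upwards [hev, ev_Ioo] with r hr hrI
  obtain ⟨hr0, hr1⟩ := hrI
  set Λ := -Real.log (1 - r) with hΛ
  set D := Real.log (2 * (1 + t) / (1 - t)) with hD
  have hterm : ∀ i j : Fin m, (if i = j then Λ - D else 0) - C1 ≤
      (conj (rt m i) * conj (conj (rt m j)) *
      (-Complex.log (1 - kap t (r * rt m i) * conj (kap t (r * rt m j))))).re := by
    intro i j
    by_cases hij : i = j
    · subst hij
      rw [if_pos rfl]
      have := diag_lower ht0 ht1 hm hr0 hr1 i
      linarith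
    · rw [if_neg hij]
      have h1 := hr (i, j)
      simp only [if_neg hij] at h1
      have h2 := term_le_norm (c := conj (rt m i)) (d := conj (conj (rt m j)))
        (L := Complex.log (1 - kap t (r * rt m i) * conj (kap t (r * rt m j))))
        (by rw [RCLike.norm_conj]; exact rt_norm hm i)
        (by rw [RCLike.norm_conj, RCLike.norm_conj]; exact rt_norm hm j)
      have h3 := (abs_le.mp h2).1
      linarith
  calc m * Λ - (m * D + m * (m * C1)) = ∑ i : Fin m, ∑ j : Fin m, ((if i = j then Λ - D else 0) - C1) := by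
        simp only [Finset.sum_sub_distrib, Finset.sum_ite_eq, Finset.mem_univ, if_true,
          Finset.sum_const, Finset.card_univ, Fintype.card_fin, nsmul_eq_mul]
        ring
    _ ≤ _ := Finset.sum_le_sum (fun i _ => Finset.sum_le_sum (fun j _ => hterm i j))

lemma S4_upper (hg : Good t) : ∃ C : ℝ, ∀ᶠ r : ℝ in 𝓝[<] (1:ℝ),
    ∑ a : Fin m × Fin m, ∑ b : Fin m × Fin m,
      ((conj (rt m a.1) * conj (rt m a.2)) * conj (conj (rt m b.1) * conj (rt m b.2)) *
      (-Complex.log (1 - (kap t (r * rt m a.1) * kap t (r * rt m a.2)) *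
        conj (kap t (r * rt m b.1) * kap t (r * rt m b.2))))).re ≤
      3 * m ^ 2 * (-Real.log (1 - r)) + C := by
  classical
  obtain ⟨C1, hC1, hev⟩ := fin_bound (l := 𝓝[<] (1:ℝ))
    (fun (p : (Fin m × Fin m) × (Fin m × Fin m)) (r : ℝ) =>
    if kap t (rt m p.1.1) * kap t (rt m p.1.2) = kap t (rt m p.2.1) * kap t (rt m p.2.2) then 0 else
      ‖Complex.log (1 - (kap t (r * rt m p.1.1) * kap t (r * rt m p.1.2)) *
        conj (kap t (r * rt m p.2.1) * kap t (r * rt m p.2.2)))‖)
    (by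
      rintro ⟨⟨i, j⟩, ⟨k, l⟩⟩
      by_cases hij : kap t (rt m i) * kap t (rt m j) = kap t (rt m k) * kap t (rt m l)
      · refine ⟨0, Filter.Eventually.of_forall (fun r => ?_)⟩
        simp [hij]
      · simp only [if_neg hij]
        apply log_bdd (u := fun r : ℝ => (kap t (r * rt m i) * kap t (r * rt m j)) *
          conj (kap t (r * rt m k) * kap t (r * rt m l)))
        · exact ((kap_cont ht0 ht1 (rt_norm hm i)).mul (kap_cont ht0 ht1 (rt_norm hm j))).mul
            (Complex.continuous_conj.continuousAt.comp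
            ((kap_cont ht0 ht1 (rt_norm hm k)).mul (kap_cont ht0 ht1 (rt_norm hm l))))
        · simp only [kap_one]
          rw [norm_mul, RCLike.norm_conj, norm_mul, norm_mul, kap_norm_one ht0 ht1 (rt_norm hm i),
            kap_norm_one ht0 ht1 (rt_norm hm j), kap_norm_one ht0 ht1 (rt_norm hm k),
            kap_norm_one ht0 ht1 (rt_norm hm l)]
          norm_num
        · simp only [kap_one]
          intro h
          have h1 : ‖kap t (rt m k) * kap t (rt m l)‖ = 1 := by
            rw [norm_mul, kap_norm_one ht0 ht1 (rt_norm hm k), kap_norm_one ht0 ht1 (rt_norm hm l),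
              one_mul]
          have h2 : conj (kap t (rt m k) * kap t (rt m l)) * (kap t (rt m k) * kap t (rt m l)) = 1 := by
            rw [Complex.conj_mul', h1]; norm_num
          apply hij
          linear_combination (kap t (rt m k) * kap t (rt m l)) * h -
            (kap t (rt m i) * kap t (rt m j)) * h2)
  have h1t : 0 < 1 - t := by linarith
  set c := (1 - t) / (2 * (1 + t)) with hc
  have hcpos : 0 < c := by positivity
  have hchalf : c ≤ 1 / 2 := by
    rw [hc, div_le_div_iff₀ (by positivity) (by norm_num)]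
    linarith
  have hD0 : 0 ≤ -Real.log c + Real.pi := by
    have := Real.log_nonpos hcpos.le (by linarith)
    linarith [Real.pi_pos]
  refine ⟨3 * m ^ 2 * (-Real.log c + Real.pi) + (m * m) * ((m * m) * C1), ?_⟩
  filter_upwards [hev, ev_Ioo] with r hr hrI
  obtain ⟨hr0, hr1⟩ := hrI
  set Λ := -Real.log (1 - r) with hΛ
  have hΛ0 : 0 ≤ Λ := by
    have := Real.log_nonpos (by linarith : (0:ℝ) ≤ 1 - r) (by linarith)
    linarith
  set D := -Real.log c + Real.pi with hD
  have hkn : ∀ i, ‖kap t (r * rt m i)‖ < 1 := fun i =>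
    kap_norm ht0 ht1 (by rw [rnorm hm hr0]; exact hr1)
  have hterm : ∀ a b : Fin m × Fin m,
      ((conj (rt m a.1) * conj (rt m a.2)) * conj (conj (rt m b.1) * conj (rt m b.2)) *
      (-Complex.log (1 - (kap t (r * rt m a.1) * kap t (r * rt m a.2)) *
        conj (kap t (r * rt m b.1) * kap t (r * rt m b.2))))).re ≤
      (if kap t (rt m a.1) * kap t (rt m a.2) = kap t (rt m b.1) * kap t (rt m b.2) then Λ + D
        else 0) + C1 := by
    rintro ⟨i, j⟩ ⟨k, l⟩
    have h2 := term_le_norm (c := conj (rt m i) * conj (rt m j))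
      (d := conj (conj (rt m k) * conj (rt m l)))
      (L := Complex.log (1 - (kap t (r * rt m i) * kap t (r * rt m j)) *
        conj (kap t (r * rt m k) * kap t (r * rt m l))))
      (by rw [norm_mul, RCLike.norm_conj, RCLike.norm_conj, rt_norm hm, rt_norm hm, one_mul])
      (by rw [RCLike.norm_conj, norm_mul, RCLike.norm_conj, RCLike.norm_conj, rt_norm hm, rt_norm hm,
            one_mul])
    have h3 := (abs_le.mp h2).2
    refine h3.trans ?_
    by_cases hij : kap t (rt m i) * kap t (rt m j) = kap t (rt m k) * kap t (rt m l)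
    · rw [if_pos hij]
      have hK : ‖(kap t (r * rt m i) * kap t (r * rt m j)) *
        conj (kap t (r * rt m k) * kap t (r * rt m l))‖ ≤ ‖kap t (r * rt m i)‖ := by
        rw [norm_mul, RCLike.norm_conj, norm_mul, norm_mul]
        have e1 : ‖kap t (r * rt m i)‖ * ‖kap t (r * rt m j)‖ ≤ ‖kap t (r * rt m i)‖ * 1 :=
          mul_le_mul_of_nonneg_left (hkn j).le (norm_nonneg _)
        have e2 : ‖kap t (r * rt m k)‖ * ‖kap t (r * rt m l)‖ ≤ 1 :=
          mul_le_one₀ (hkn k).le (norm_nonneg _) (hkn l).le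
        calc _ ≤ (‖kap t (r * rt m i)‖ * 1) * 1 :=
              mul_le_mul e1 e2 (by positivity) (by positivity)
          _ = _ := by ring
      have hgap := kap_gap1 ht0 ht1 hr0 hr1 (rnorm hm hr0 i)
      have h4 := log_norm_le hcpos hchalf hr0 hr1 (hK.trans_lt (hkn i))
        (by rw [← hc] at hgap; linarith)
      linarith
    · rw [if_neg hij]
      have h4 := hr ((i, j), (k, l))
      simp only [if_neg hij] at h4
      linarith
  have hcard := card_coincide ht0 ht1 hg hm
  calc _ ≤ ∑ a : Fin m × Fin m, ∑ b : Fin m × Fin m,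
      ((if kap t (rt m a.1) * kap t (rt m a.2) = kap t (rt m b.1) * kap t (rt m b.2) then Λ + D
        else 0) + C1) := Finset.sum_le_sum (fun a _ => Finset.sum_le_sum (fun b _ => hterm a b))
    _ = ∑ p : (Fin m × Fin m) × (Fin m × Fin m),
      ((if kap t (rt m p.1.1) * kap t (rt m p.1.2) = kap t (rt m p.2.1) * kap t (rt m p.2.2) then Λ + D
        else 0) + C1) := by rw [Fintype.sum_prod_type (f := fun p : (Fin m × Fin m) × (Fin m × Fin m) =>
          ((if kap t (rt m p.1.1) * kap t (rt m p.1.2) = kap t (rt m p.2.1) * kap t (rt m p.2.2) then Λ + D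
        else 0) + C1))]
    _ = ((Finset.univ.filter fun p : (Fin m × Fin m) × (Fin m × Fin m) =>
      kap t (rt m p.1.1) * kap t (rt m p.1.2) = kap t (rt m p.2.1) * kap t (rt m p.2.2)).card : ℝ) *
        (Λ + D) + (m * m) * ((m * m) * C1) := by
        rw [Finset.sum_add_distrib, ← Finset.sum_filter, Finset.sum_const, Finset.sum_const,
          nsmul_eq_mul, nsmul_eq_mul, Finset.card_univ, Fintype.card_prod, Fintype.card_prod,
          Fintype.card_fin]
        push_cast
        ring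
    _ ≤ (3 * m ^ 2 : ℝ) * (Λ + D) + (m * m) * ((m * m) * C1) := by
        have : ((Finset.univ.filter fun p : (Fin m × Fin m) × (Fin m × Fin m) =>
          kap t (rt m p.1.1) * kap t (rt m p.1.2) = kap t (rt m p.2.1) * kap t (rt m p.2.2)).card : ℝ) ≤
          3 * m ^ 2 := by exact_mod_cast hcard
        have h5 : 0 ≤ Λ + D := by linarith
        have := mul_le_mul_of_nonneg_right this h5
        linarith
    _ = _ := by ring

end

end Pool.Agent.helper22.Mob
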