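import Mathlib
import Pool.Agent.helper22.Mob.Asym
open Complex Metric Set Filter Topology
open scoped ComplexConjugate

namespace Pool.Agent.helper22.Mob

lemma coef_const_mul {w : ℂ} (hw : ‖w‖ < 1) {f : ℂ → ℂ} (hf : DifferentiableOn ℂ f (ball 0 1))
    (c : ℂ) (n : ℕ) : coef (fun z => c * f z) w n = c * coef f w n := by
  apply coef_unique (ρ := 1) one_pos
  intro z hz
  have := (hasSum_coef hw hf hz).mul_left c
  simpa [mul_assoc] using this

lemma shift_zero (z : ℂ) : shift 0 z = z := by unfold shift; simp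

lemma norm_le_of_coef_zero {f : ℂ → ℂ} (hf : DifferentiableOn ℂ f (ball 0 1))
    (hs : Summable (fun n => ‖coef f 0 n‖)) {z : ℂ} (hz : z ∈ ball (0:ℂ) 1) :
    ‖f z‖ ≤ ∑' n, ‖coef f 0 n‖ := by
  have h1 := hasSum_coef (w := 0) (by simp) hf hz
  rw [shift_zero] at h1
  have hz1 := mem_ball_zero_iff.mp hz
  have hle : ∀ n, ‖coef f 0 n * z ^ n‖ ≤ ‖coef f 0 n‖ := by
    intro n
    rw [norm_mul, norm_pow]
    calc ‖coef f 0 n‖ * ‖z‖ ^ n ≤ ‖coef f 0 n‖ * 1 :=
          mul_le_mul_of_nonneg_left (pow_le_one₀ (norm_nonneg _) hz1.le) (norm_nonneg _)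
      _ = _ := mul_one _
  have hs2 : Summable (fun n => ‖coef f 0 n * z ^ n‖) :=
    Summable.of_nonneg_of_le (fun _ => norm_nonneg _) hle hs
  rw [← h1.tsum_eq]
  exact (norm_tsum_le_tsum_norm hs2).trans (hs2.tsum_le_tsum hle hs)

section
variable {t : ℝ} (ht0 : 0 < t) (ht1 : t < 1) {m : ℕ} (hm : 2 ≤ m)
include ht0 ht1 hm

/-- The exponential sum. -/
noncomputable def qs (t : ℝ) (m : ℕ) (r : ℝ) (n : ℕ) : ℂ :=
  ∑ j, conj (rt m j) * (kap t (r * rt m j)) ^ n

lemma qs_geom {r : ℝ} (hr0 : 0 < r) (hr1 : r < 1) :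
    Summable (fun n => ∑ j, ‖kap t (r * rt m j)‖ ^ n) := by
  apply summable_sum
  intro j _
  apply summable_geometric_of_lt_one (norm_nonneg _)
  apply kap_norm ht0 ht1
  rw [rnorm hm hr0]; exact hr1

omit ht0 ht1 in
lemma qs_norm_le {r : ℝ} (n : ℕ) : ‖qs t m r n‖ ≤ ∑ j, ‖kap t (r * rt m j)‖ ^ n := by
  unfold qs
  refine (norm_sum_le _ _).trans ?_
  apply Finset.sum_le_sum
  intro j _
  rw [norm_mul, RCLike.norm_conj, rt_norm hm, one_mul, norm_pow]

lemma qs_summable {r : ℝ} (hr0 : 0 < r) (hr1 : r < 1) :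
    Summable (fun n : ℕ => ‖qs t m r n‖ / n) := by
  refine Summable.of_nonneg_of_le (fun n => by positivity) (fun n => ?_) (qs_geom ht0 ht1 hm hr0 hr1)
  rcases Nat.eq_zero_or_pos n with h | h
  · subst h
    simp
  · have hn : (1:ℝ) ≤ n := by exact_mod_cast h
    exact (div_le_self (norm_nonneg _) hn).trans (qs_norm_le hm n)

lemma main_lower (hg : Good t) : ∃ C : ℝ, ∀ᶠ r : ℝ in 𝓝[<] (1:ℝ),
    9 / 16 * Real.sqrt m * (-Real.log (1 - r)) - C ≤ ∑' n : ℕ, ‖qs t m r n‖ / n := by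
  obtain ⟨C2, h2⟩ := S2_lower ht0 ht1 hm
  obtain ⟨C4, h4⟩ := S4_upper ht0 ht1 hm hg
  have hmpos : (0:ℝ) < m := by positivity
  have hs : 0 < Real.sqrt m := Real.sqrt_pos.mpr hmpos
  have hss : Real.sqrt m ^ 2 = m := Real.sq_sqrt hmpos.le
  set s := Real.sqrt m with hsdef
  refine ⟨3 / 4 * C2 / s + 1 / 16 * C4 / s ^ 3, ?_⟩
  filter_upwards [h2, h4, ev_Ioo] with r h2r h4r hrI
  obtain ⟨hr0, hr1⟩ := hrI
  have hkn : ∀ i : Fin m, ‖kap t (r * rt m i)‖ < 1 := fun i =>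
    kap_norm ht0 ht1 (by rw [rnorm hm hr0]; exact hr1)
  have H2 := hasSum_sq (Finset.univ) (fun i : Fin m => conj (rt m i)) (fun i => kap t (r * rt m i))
    (fun i _ => hkn i)
  have H4 := hasSum_sq (Finset.univ) (fun a : Fin m × Fin m => conj (rt m a.1) * conj (rt m a.2))
    (fun a => kap t (r * rt m a.1) * kap t (r * rt m a.2)) (fun a _ => by
      rw [norm_mul]
      calc _ ≤ ‖kap t (r * rt m a.1)‖ * 1 :=
            mul_le_mul_of_nonneg_left (hkn a.2).le (norm_nonneg _)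
        _ < 1 := by rw [mul_one]; exact hkn a.1)
  have e4 : (fun n : ℕ => ‖∑ a : Fin m × Fin m, conj (rt m a.1) * conj (rt m a.2) *
      (kap t (r * rt m a.1) * kap t (r * rt m a.2)) ^ n‖ ^ 2 / (n:ℝ)) =
      (fun n : ℕ => ‖qs t m r n‖ ^ 4 / (n:ℝ)) := by
    ext n
    have e5 : ∑ a : Fin m × Fin m, conj (rt m a.1) * conj (rt m a.2) *
      (kap t (r * rt m a.1) * kap t (r * rt m a.2)) ^ n = qs t m r n * qs t m r n := by
      unfold qs
      rw [Fintype.sum_mul_sum, Fintype.sum_prod_type]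
      apply Finset.sum_congr rfl
      intro i _
      apply Finset.sum_congr rfl
      intro j _
      rw [mul_pow]; ring
    rw [e5, norm_mul]
    congr 1
    ring
  rw [e4] at H4
  have hfin := l1_lower hs (q := qs t m r) H2 H4 (qs_summable ht0 ht1 hm hr0 hr1)
  refine le_trans ?_ hfin
  set Λ := -Real.log (1 - r)
  have e1 : 3 / 4 * (m * Λ - C2) / s ≤ 3 / 4 * (∑ i, ∑ j, (conj (rt m i) * conj (conj (rt m j)) *
      (-Complex.log (1 - kap t (r * rt m i) * conj (kap t (r * rt m j))))).re) / s := by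
    gcongr
  have e2 : 1 / 16 * (∑ a : Fin m × Fin m, ∑ b : Fin m × Fin m,
      ((conj (rt m a.1) * conj (rt m a.2)) * conj (conj (rt m b.1) * conj (rt m b.2)) *
      (-Complex.log (1 - (kap t (r * rt m a.1) * kap t (r * rt m a.2)) *
        conj (kap t (r * rt m b.1) * kap t (r * rt m b.2))))).re) / s ^ 3 ≤
      1 / 16 * (3 * m ^ 2 * Λ + C4) / s ^ 3 := by
    gcongr
  have e3 : 9 / 16 * s * Λ - (3 / 4 * C2 / s + 1 / 16 * C4 / s ^ 3) =
      3 / 4 * (m * Λ - C2) / s - 1 / 16 * (3 * m ^ 2 * Λ + C4) / s ^ 3 := by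
    rw [← hss]
    field_simp
    ring
  rw [e3]
  linarith

/-- Absolute convergence of the shifted block. -/
lemma blk_t_summable {r : ℝ} (hr0 : 0 < r) (hr1 : r < 1) :
    Summable (fun n => ‖coef (blk (rt m) r) t n‖) ∧
      ∑' n : ℕ, ‖qs t m r n‖ / n ≤ ∑' n, ‖coef (blk (rt m) r) t n‖ := by
  have hc : ∀ n, coef (blk (rt m) r) t n = (if n = 0 then ∑ j, conj (rt m j) *
      (-Complex.log (1 + r * rt m j * t)) else 0) + qs t m r n / n := fun n =>
    blk_coef_t (rt_norm hm) ht0 ht1 (rt_sum hm) hr0 hr1 n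
  have hq := qs_summable ht0 ht1 hm hr0 hr1
  have hs : Summable (fun n => ‖coef (blk (rt m) r) t n‖) := by
    have h1 : Summable (fun n : ℕ => (if n = 0 then ‖∑ j, conj (rt m j) *
      (-Complex.log (1 + r * rt m j * t))‖ else 0) + ‖qs t m r n‖ / n) :=
      (hasSum_ite_eq 0 _).summable.add hq
    refine Summable.of_nonneg_of_le (fun _ => norm_nonneg _) (fun n => ?_) h1
    rw [hc]
    refine (norm_add_le _ _).trans ?_
    rw [norm_div, Complex.norm_natCast]
    split_ifs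
    · exact le_rfl
    · rw [norm_zero]
  refine ⟨hs, hq.tsum_le_tsum (fun n => ?_) hs⟩
  rw [hc]
  rcases Nat.eq_zero_or_pos n with h | h
  · subst h
    simp
  · rw [if_neg (by omega), zero_add, norm_div, Complex.norm_natCast]

end

/-- The univalent block. -/
lemma uni_block {t : ℝ} (ht0 : 0 < t) (ht1 : t < 1) (hg : Good t) (k : ℕ) (ε : ℝ) (hε : 0 < ε)
    (C : ℝ) : ∃ g : ℂ → ℂ,
      ((∀ z w : ℂ, ‖z‖ < 1 → ‖w‖ < 1 → z ≠ w → 0 ≤ ((g z - g w) / (z - w)).re) ∧
        Summable (fun n => ‖coef g 0 n‖) ∧ ∑' n, ‖coef g 0 n‖ ≤ (1 / 2) ^ k) ∧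
      DifferentiableOn ℂ g (ball 0 1) ∧ (∀ z ∈ ball (0:ℂ) 1, ‖g z‖ ≤ ε) ∧
      ∃ N : ℕ, Summable (fun n => ‖coef g t n‖) ∧ C ≤ ∑ n ∈ Finset.range N, ‖coef g t n‖ := by
  set e := min ε ((1 / 2) ^ k) with he
  have he0 : 0 < e := lt_min hε (by positivity)
  obtain ⟨m, hm⟩ : ∃ m : ℕ, max (2:ℝ) (((C + 1) / (e * (9 / 16))) ^ 2) ≤ (m:ℝ) := exists_nat_ge _
  have hm2 : 2 ≤ m := by exact_mod_cast (le_max_left _ _).trans hm
  have hmC : (C + 1) ≤ e * (9 / 16) * Real.sqrt m := by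
    have h1 : ((C + 1) / (e * (9 / 16))) ^ 2 ≤ m := (le_max_right _ _).trans hm
    have h2 : (C + 1) / (e * (9 / 16)) ≤ Real.sqrt m := Real.le_sqrt_of_sq_le h1
    rw [div_le_iff₀ (by positivity)] at h2
    linarith
  obtain ⟨C1, hC1⟩ := main_lower ht0 ht1 hm2 hg
  have hΛ : Tendsto (fun r : ℝ => -Real.log (1 - r)) (𝓝[<] (1:ℝ)) atTop := by
    apply tendsto_neg_atBot_atTop.comp
    apply Real.tendsto_log_nhdsGT_zero.comp
    apply tendsto_nhdsWithin_iff.mpr
    constructor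
    · have : Tendsto (fun r : ℝ => 1 - r) (𝓝 1) (𝓝 (1 - 1)) :=
        (continuous_const.sub continuous_id).tendsto 1
      rw [sub_self] at this
      exact this.mono_left nhdsWithin_le_nhds
    · filter_upwards [self_mem_nhdsWithin] with r hr
      have : r < 1 := hr
      show 0 < 1 - r
      linarith
  have hbig := hΛ.eventually_ge_atTop (|C| * m + |C1| * e + 1)
  obtain ⟨r, hr1, hr2, hr3, hr4⟩ := (hC1.and (hbig.and ev_Ioo)).exists
  set Λ := -Real.log (1 - r) with hΛdef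
  have hΛpos : 0 < Λ := by
    have : 0 ≤ |C| * m + |C1| * e := by positivity
    linarith
  have hmpos : (0:ℝ) < m := by positivity
  set δ := e / (m + Λ) with hδ
  have hδ0 : 0 < δ := by positivity
  have hbd := blk_norm_zero hm2 hr3 hr4
  have hbt := blk_t_summable ht0 ht1 hm2 hr3 hr4
  have hdiff := blk_diff (rt_norm hm2) hr3 hr4
  have h0 : ‖(0:ℂ)‖ < 1 := by simp
  have htn := norm_t ht0 ht1
  have hcn : ∀ (w : ℂ), ‖w‖ < 1 → ∀ n, ‖coef (fun z => (δ:ℂ) * blk (rt m) r z) w n‖ =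
      δ * ‖coef (blk (rt m) r) w n‖ := by
    intro w hw n
    rw [coef_const_mul hw hdiff, norm_mul, Complex.norm_real, Real.norm_eq_abs, abs_of_pos hδ0]
  have hs0 : Summable (fun n => ‖coef (fun z => (δ:ℂ) * blk (rt m) r z) 0 n‖) := by
    simp_rw [hcn 0 h0]
    exact hbd.1.mul_left δ
  have ht0' : ∑' n, ‖coef (fun z => (δ:ℂ) * blk (rt m) r z) 0 n‖ ≤ e := by
    simp_rw [hcn 0 h0]
    rw [tsum_mul_left]
    calc δ * ∑' n, ‖coef (blk (rt m) r) 0 n‖ ≤ δ * (m - Real.log (1 - r)) :=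
          mul_le_mul_of_nonneg_left hbd.2 hδ0.le
      _ = e := by
          have h5 : (m:ℝ) + Λ ≠ 0 := by positivity
          have h6 : (m:ℝ) - Real.log (1 - r) = m + Λ := by rw [hΛdef]; ring
          rw [h6, hδ, div_mul_cancel₀ _ h5]
  have hd : DifferentiableOn ℂ (fun z => (δ:ℂ) * blk (rt m) r z) (ball 0 1) :=
    (differentiableOn_const _).mul hdiff
  refine ⟨fun z => (δ:ℂ) * blk (rt m) r z, ⟨?_, hs0, ht0'.trans (min_le_right _ _)⟩, hd, ?_, ?_⟩
  · intro z w hz hw hne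
    have h1 := quot_re_nonneg (fun z hz => blk_hasDeriv (rt_norm hm2) hr3 hr4 hz) (fun z hz => by
      rw [Complex.re_sum]
      apply Finset.sum_nonneg
      intro j _
      have hre := re_pos_of_norm_lt (az_norm (rt_norm hm2) hr3 hr4 j hz)
      rw [Complex.div_re, Complex.ofReal_re, Complex.ofReal_im, zero_mul, zero_div, add_zero]
      exact div_nonneg (mul_nonneg hr3.le hre.le) (Complex.normSq_nonneg _)) hz hw hne
    have e1 : ((δ:ℂ) * blk (rt m) r z - δ * blk (rt m) r w) / (z - w) =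
        (δ:ℂ) * ((blk (rt m) r z - blk (rt m) r w) / (z - w)) := by ring
    rw [e1, Complex.re_ofReal_mul]
    exact mul_nonneg hδ0.le h1
  · intro z hz
    exact (norm_le_of_coef_zero hd hs0 hz).trans (ht0'.trans (min_le_left _ _))
  · have hst : Summable (fun n => ‖coef (fun z => (δ:ℂ) * blk (rt m) r z) t n‖) := by
      simp_rw [hcn t htn]
      exact hbt.1.mul_left δ
    have hlow : C < ∑' n, ‖coef (fun z => (δ:ℂ) * blk (rt m) r z) t n‖ := by
      simp_rw [hcn t htn]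
      rw [tsum_mul_left]
      have h1 : 9 / 16 * Real.sqrt m * Λ - C1 ≤ ∑' n, ‖coef (blk (rt m) r) t n‖ := hr1.trans hbt.2
      refine lt_of_lt_of_le ?_ (mul_le_mul_of_nonneg_left h1 hδ0.le)
      rw [hδ, div_mul_eq_mul_div, lt_div_iff₀ (by positivity)]
      have h2 : (C + 1) * Λ ≤ e * (9 / 16) * Real.sqrt m * Λ := mul_le_mul_of_nonneg_right hmC hΛpos.le
      have h3 : C * m ≤ |C| * m := mul_le_mul_of_nonneg_right (le_abs_self _) hmpos.le
      have h4 : C1 * e ≤ |C1| * e := mul_le_mul_of_nonneg_right (le_abs_self _) he0.le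
      nlinarith
    obtain ⟨N, hN⟩ := (hst.hasSum.tendsto_sum_nat.eventually (lt_mem_nhds hlow)).exists
    exact ⟨N, hst, hN.le⟩

/-- A univalent function for which the set of good shifts contains `0` but not `t`. -/
theorem univalent_example : ∃ (f : ℂ → ℂ) (t : ℝ), 0 < t ∧ t < 1 ∧
    DifferentiableOn ℂ f (ball 0 1) ∧ InjOn f (ball 0 1) ∧ (0:ℂ) ∈ W f ∧ (t:ℂ) ∉ W f := by
  obtain ⟨t, ht0, ht1, hg⟩ := exists_good
  have htn := norm_t ht0 ht1
  obtain ⟨g, hgk, hnot⟩ := gliding (b := (t:ℂ)) htn (fun k g =>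
    (∀ z w : ℂ, ‖z‖ < 1 → ‖w‖ < 1 → z ≠ w → 0 ≤ ((g z - g w) / (z - w)).re) ∧
        Summable (fun n => ‖coef g 0 n‖) ∧ ∑' n, ‖coef g 0 n‖ ≤ (1 / 2) ^ k)
    (fun k ε hε C => uni_block ht0 ht1 hg k ε hε C)
  have hgeo : Summable (fun k : ℕ => ((1:ℝ) / 2) ^ k) := summable_geometric_two
  have hd := fun k => (hgk k).2.1
  have hB := fun k => (hgk k).2.2
  have hdG := diff_tsum hd hB hgeo
  have hdid : DifferentiableOn ℂ (fun z : ℂ => z) (ball 0 1) := differentiableOn_id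
  have h0 : ‖(0:ℂ)‖ < 1 := by simp
  refine ⟨fun z => z + ∑' k, g k z, t, ht0, ht1, hdid.add hdG, ?_, ?_, ?_⟩
  · intro z hz w hw heq
    by_contra hne
    have hz1 := mem_ball_zero_iff.mp hz
    have hw1 := mem_ball_zero_iff.mp hw
    have hzw : z - w ≠ 0 := sub_ne_zero.mpr hne
    have hsz : Summable (fun k => g k z) := Summable.of_norm_bounded hgeo (fun k => hB k z hz)
    have hsw : Summable (fun k => g k w) := Summable.of_norm_bounded hgeo (fun k => hB k w hw)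
    have h1 : HasSum (fun k => (g k z - g k w) / (z - w)) ((∑' k, g k z - ∑' k, g k w) / (z - w)) :=
      (hsz.hasSum.sub hsw.hasSum).div_const _
    have h2 : 0 ≤ ((∑' k, g k z - ∑' k, g k w) / (z - w)).re :=
      (Complex.hasSum_re h1).nonneg (fun k => (hgk k).1.1 z w hz1 hw1 hne)
    have h3 : (∑' k, g k z - ∑' k, g k w) / (z - w) = -1 := by
      rw [div_eq_iff hzw]
      have heq' : z + ∑' k, g k z = w + ∑' k, g k w := heq
      linear_combination heq'
    rw [h3] at h2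
    norm_num at h2
  · refine ⟨h0, ?_⟩
    have h1 := summable_coef_tsum h0 hd hB hgeo (fun k => (hgk k).1.2.1)
      (Summable.of_nonneg_of_le (fun k => tsum_nonneg (fun n => norm_nonneg _))
        (fun k => (hgk k).1.2.2) hgeo)
    have h2 := summable_coef_id h0
    refine Summable.of_nonneg_of_le (fun _ => norm_nonneg _) (fun n => ?_) (h2.add h1)
    rw [coef_add h0 hdid hdG]
    exact norm_add_le _ _
  · rintro ⟨_, hs⟩
    apply hnot
    have h2 := summable_coef_id htn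
    refine Summable.of_nonneg_of_le (fun _ => norm_nonneg _) (fun n => ?_) (hs.add h2)
    have h3 := coef_add htn hdid hdG n
    have h4 : coef (fun z => ∑' k, g k z) t n = coef (fun z => z + ∑' k, g k z) t n -
        coef (fun z => z) t n := by rw [h3]; ring
    rw [h4]
    exact norm_sub_le _ _

end Pool.Agent.helper22.Mob
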